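import Mathlib

/-!
Volume of a rotationally symmetric star body in `ℝ³`.
-/

namespace Pool.Agent.IB

open Set MeasureTheory

/-- Coordinates of `ℝ³`. -/
def trip (z : EuclideanSpace ℝ (Fin 3)) : ℝ × (ℝ × ℝ) := (z 0, (z 1, z 2))

lemma trip_mp : MeasurePreserving trip volume volume := by
  have h1 := PiLp.volume_preserving_ofLp (Fin 3)
  have h2 := volume_preserving_piFinSuccAbove (fun _ : Fin 3 => ℝ) 0
  have h3 : MeasurePreserving (Prod.map id MeasurableEquiv.finTwoArrow :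
      ℝ × (Fin 2 → ℝ) → ℝ × (ℝ × ℝ)) volume volume :=
    (MeasurePreserving.id (volume : Measure ℝ)).prod (volume_preserving_finTwoArrow ℝ)
  exact h3.comp (h2.comp h1)

/-- Indicator in the half plane. -/
noncomputable def Nf (R : ℝ → ℝ) (t r : ℝ) : ENNReal :=
  if √(t ^ 2 + r ^ 2) ≤ R (t / √(t ^ 2 + r ^ 2)) then 1 else 0

lemma measurable_Nf {R : ℝ → ℝ} (hR : Continuous R) :
    Measurable (fun q : ℝ × ℝ => Nf R q.1 q.2) := by
  unfold Nf
  apply Measurable.ite _ measurable_const measurable_const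
  apply measurableSet_le
  · fun_prop
  · have := hR.measurable
    fun_prop

lemma vol_triple {R : ℝ → ℝ} (hR : Continuous R) :
    volume {z : EuclideanSpace ℝ (Fin 3) | ‖z‖ ≤ R (z 0 / ‖z‖)} =
      ∫⁻ q : ℝ × (ℝ × ℝ), Nf R q.1 (√(q.2.1 ^ 2 + q.2.2 ^ 2)) := by
  set S : Set (ℝ × (ℝ × ℝ)) := {q | √(q.1 ^ 2 + (√(q.2.1 ^ 2 + q.2.2 ^ 2)) ^ 2) ≤
    R (q.1 / √(q.1 ^ 2 + (√(q.2.1 ^ 2 + q.2.2 ^ 2)) ^ 2))} with hS
  have hSm : MeasurableSet S := by
    apply measurableSet_le
    · fun_prop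
    · have := hR.measurable
      fun_prop
  have hpre : {z : EuclideanSpace ℝ (Fin 3) | ‖z‖ ≤ R (z 0 / ‖z‖)} = trip ⁻¹' S := by
    ext z
    have hn : ‖z‖ = √((z 0) ^ 2 + (√((z 1) ^ 2 + (z 2) ^ 2)) ^ 2) := by
      rw [EuclideanSpace.norm_eq, Real.sq_sqrt (by positivity), Fin.sum_univ_three]
      simp only [Real.norm_eq_abs, sq_abs]
      congr 1; ring
    simp only [mem_ofPred_eq, mem_preimage, hS, trip]
    rw [hn]
  rw [hpre, trip_mp.measure_preimage hSm.nullMeasurableSet, ← lintegral_indicator_one hSm]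
  apply lintegral_congr
  intro q
  unfold Nf
  rw [Set.indicator_apply]
  rfl

lemma plane_radial {F : ℝ → ENNReal} (hF : Measurable F) :
    ∫⁻ q : ℝ × ℝ, F (√(q.1 ^ 2 + q.2 ^ 2)) =
      ENNReal.ofReal (2 * Real.pi) * ∫⁻ r in Ioi (0:ℝ), ENNReal.ofReal r * F r := by
  rw [← lintegral_comp_polarCoord_symm]
  have htm : MeasurableSet polarCoord.target := polarCoord.open_target.measurableSet
  have h1 : ∫⁻ p in polarCoord.target, ENNReal.ofReal p.1 •
      F (√((polarCoord.symm p).1 ^ 2 + (polarCoord.symm p).2 ^ 2)) =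
      ∫⁻ p in polarCoord.target, ENNReal.ofReal p.1 * F p.1 := by
    apply setLIntegral_congr_fun htm
    intro p hp
    have hp1 : 0 < p.1 := hp.1
    simp only [polarCoord_symm_apply, smul_eq_mul]
    have : (p.1 * Real.cos p.2) ^ 2 + (p.1 * Real.sin p.2) ^ 2 = p.1 ^ 2 := by
      have := Real.sin_sq_add_cos_sq p.2
      linear_combination p.1 ^ 2 * this
    rw [this, Real.sqrt_sq hp1.le]
  rw [h1, polarCoord_target, Measure.volume_eq_prod, ← Measure.prod_restrict,
    lintegral_prod _ (by fun_prop)]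
  simp only [lintegral_const, Measure.restrict_apply MeasurableSet.univ, univ_inter,
    Real.volume_Ioo]
  rw [lintegral_mul_const _ (by fun_prop), mul_comm]
  congr 2
  ring

/-- Integrand in polar coordinates. -/
noncomputable def Hf (R : ℝ → ℝ) (p : ℝ × ℝ) : ENNReal :=
  if 0 < Real.sin p.2 ∧ p.1 ≤ R (Real.cos p.2) then ENNReal.ofReal (p.1 ^ 2 * Real.sin p.2) else 0

lemma measurable_Hf {R : ℝ → ℝ} (hR : Continuous R) : Measurable (Hf R) := by
  unfold Hf
  refine Measurable.ite ?_ ?_ measurable_const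
  · show MeasurableSet ({p : ℝ × ℝ | 0 < Real.sin p.2} ∩ {p : ℝ × ℝ | p.1 ≤ R (Real.cos p.2)})
    apply MeasurableSet.inter
    · exact measurableSet_lt measurable_const (by fun_prop)
    · exact measurableSet_le measurable_fst (by fun_prop)
  · fun_prop

lemma inner_Hf {R : ℝ → ℝ} (hR0 : ∀ x, 0 < R x) (ψ : ℝ) :
    ∫⁻ s in Ioi (0:ℝ), Hf R (s, ψ) =
      if 0 < Real.sin ψ then ENNReal.ofReal (R (Real.cos ψ) ^ 3 / 3 * Real.sin ψ) else 0 := by
  by_cases hψ : 0 < Real.sin ψ
  · rw [if_pos hψ]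
    set r := R (Real.cos ψ) with hr
    have hr0 : 0 < r := hR0 _
    have e1 : ∀ s, Hf R (s, ψ) = (Iic r).indicator
        (fun s => ENNReal.ofReal (s ^ 2 * Real.sin ψ)) s := by
      intro s
      unfold Hf
      rw [Set.indicator_apply]
      simp only [hψ, true_and, mem_Iic, ← hr]
    simp only [e1]
    rw [setLIntegral_indicator measurableSet_Iic]
    have e2 : Iic r ∩ Ioi 0 = Ioc 0 r := by
      ext x; simp only [mem_inter_iff, mem_Iic, mem_Ioi, mem_Ioc]; tauto
    rw [e2, ← ofReal_integral_eq_lintegral_ofReal]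
    · rw [← intervalIntegral.integral_of_le hr0.le, intervalIntegral.integral_mul_const,
        integral_pow]
      congr 1
      ring
    · have : IntervalIntegrable (fun s : ℝ => s ^ 2 * Real.sin ψ) volume 0 r :=
        (by fun_prop : Continuous fun s : ℝ => s ^ 2 * Real.sin ψ).intervalIntegrable _ _
      rwa [intervalIntegrable_iff_integrableOn_Ioc_of_le hr0.le] at this
    · exact Filter.Eventually.of_forall fun s => mul_nonneg (sq_nonneg s) hψ.le
  · rw [if_neg hψ]
    have e1 : ∀ s, Hf R (s, ψ) = 0 := by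
      intro s
      unfold Hf
      rw [if_neg]
      intro h
      exact hψ h.1
    simp [e1]

lemma half_plane {R : ℝ → ℝ} (hR : Continuous R) (hR0 : ∀ x, 0 < R x) :
    ∫⁻ t, ∫⁻ r in Ioi (0:ℝ), ENNReal.ofReal r * Nf R t r =
      ENNReal.ofReal ((∫ ψ in (0:ℝ)..Real.pi, R (Real.cos ψ) ^ 3 * Real.sin ψ) / 3) := by
  have hN := measurable_Nf hR
  set F : ℝ × ℝ → ENNReal := fun q => (Ioi (0:ℝ)).indicator
    (fun r => ENNReal.ofReal r * Nf R q.1 r) q.2 with hF
  have hFm : Measurable F := by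
    have e : F = {q : ℝ × ℝ | 0 < q.2}.indicator (fun q => ENNReal.ofReal q.2 * Nf R q.1 q.2) := by
      funext q
      rw [hF]
      simp only [Set.indicator_apply, mem_Ioi, mem_ofPred_eq]
    rw [e]
    apply Measurable.indicator _ (measurableSet_lt measurable_const measurable_snd)
    exact (by fun_prop : Measurable fun q : ℝ × ℝ => ENNReal.ofReal q.2).mul hN
  have h1 : ∫⁻ t, ∫⁻ r in Ioi (0:ℝ), ENNReal.ofReal r * Nf R t r = ∫⁻ q : ℝ × ℝ, F q := by
    rw [Measure.volume_eq_prod, lintegral_prod _ hFm.aemeasurable]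
    apply lintegral_congr
    intro t
    rw [← lintegral_indicator measurableSet_Ioi]
  rw [h1, ← lintegral_comp_polarCoord_symm]
  have htm : MeasurableSet polarCoord.target := polarCoord.open_target.measurableSet
  have h2 : ∫⁻ p in polarCoord.target, ENNReal.ofReal p.1 • F (polarCoord.symm p) =
      ∫⁻ p in polarCoord.target, Hf R p := by
    apply setLIntegral_congr_fun htm
    intro p hp
    have hp1 : 0 < p.1 := hp.1
    simp only [polarCoord_symm_apply, smul_eq_mul, hF]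
    have e : (p.1 * Real.cos p.2) ^ 2 + (p.1 * Real.sin p.2) ^ 2 = p.1 ^ 2 := by
      have := Real.sin_sq_add_cos_sq p.2
      linear_combination p.1 ^ 2 * this
    rw [Set.indicator_apply]
    unfold Nf Hf
    rw [e, Real.sqrt_sq hp1.le, mul_div_cancel_left₀ _ hp1.ne']
    by_cases hs : 0 < Real.sin p.2
    · have : p.1 * Real.sin p.2 ∈ Ioi (0:ℝ) := mul_pos hp1 hs
      rw [if_pos this]
      by_cases hR' : p.1 ≤ R (Real.cos p.2)
      · rw [if_pos hR', if_pos ⟨hs, hR'⟩, mul_one, ← ENNReal.ofReal_mul hp1.le]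
        congr 1; ring
      · rw [if_neg hR', if_neg (fun h => hR' h.2)]
        simp
    · have : ¬ (p.1 * Real.sin p.2 ∈ Ioi (0:ℝ)) := by
        intro h
        apply hs
        exact (mul_pos_iff_of_pos_left hp1).1 h
      rw [if_neg this, if_neg (fun h => hs h.1), mul_zero]
  rw [h2, polarCoord_target, Measure.volume_eq_prod, ← Measure.prod_restrict,
    lintegral_prod_symm _ (measurable_Hf hR).aemeasurable]
  simp only [inner_Hf hR0]
  have hpi := Real.pi_pos
  have e3 : ∀ ψ ∈ Ioo (-Real.pi) Real.pi, (if 0 < Real.sin ψ then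
      ENNReal.ofReal (R (Real.cos ψ) ^ 3 / 3 * Real.sin ψ) else 0) =
      (Ioc 0 Real.pi).indicator (fun ψ => ENNReal.ofReal (R (Real.cos ψ) ^ 3 / 3 * Real.sin ψ)) ψ := by
    intro ψ hψ
    rw [Set.indicator_apply]
    by_cases h0 : 0 < ψ
    · rw [if_pos (Real.sin_pos_of_pos_of_lt_pi h0 hψ.2), if_pos ⟨h0, hψ.2.le⟩]
    · push Not at h0
      rw [if_neg (not_lt.2 (Real.sin_nonpos_of_nonpos_of_neg_pi_le h0 hψ.1.le)),
        if_neg (fun h => absurd h.1 (not_lt.2 h0))]
  rw [setLIntegral_congr_fun measurableSet_Ioo e3, setLIntegral_indicator measurableSet_Ioc]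
  have e4 : (Ioc 0 Real.pi ∩ Ioo (-Real.pi) Real.pi : Set ℝ) = Ioo 0 Real.pi := by
    ext x
    simp only [mem_inter_iff, mem_Ioc, mem_Ioo]
    constructor
    · rintro ⟨⟨a, b⟩, c, d⟩; exact ⟨a, d⟩
    · rintro ⟨a, b⟩; exact ⟨⟨a, b.le⟩, by linarith, b⟩
  rw [e4, ← ofReal_integral_eq_lintegral_ofReal]
  · rw [← integral_Ioc_eq_integral_Ioo, ← intervalIntegral.integral_of_le hpi.le,
      ← intervalIntegral.integral_div]
    congr 1
    congr 1
    funext ψ
    ring
  · have : IntervalIntegrable (fun ψ : ℝ => R (Real.cos ψ) ^ 3 / 3 * Real.sin ψ) volume 0 Real.pi :=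
      (by fun_prop : Continuous fun ψ : ℝ => R (Real.cos ψ) ^ 3 / 3 * Real.sin ψ).intervalIntegrable _ _
    rw [intervalIntegrable_iff_integrableOn_Ioo_of_le hpi.le] at this
    exact this
  · refine (ae_restrict_iff' measurableSet_Ioo).2 (Filter.Eventually.of_forall fun ψ hψ => ?_)
    have h1 := (Real.sin_pos_of_pos_of_lt_pi hψ.1 hψ.2).le
    have h2 := (hR0 (Real.cos ψ)).le
    show 0 ≤ R (Real.cos ψ) ^ 3 / 3 * Real.sin ψ
    positivity

/-- Volume of a rotationally symmetric star body in `ℝ³`. -/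
theorem vol_star {R : ℝ → ℝ} (hR : Continuous R) (hR0 : ∀ x, 0 < R x) :
    (volume {z : EuclideanSpace ℝ (Fin 3) | ‖z‖ ≤ R (z 0 / ‖z‖)}).toReal =
      2 * Real.pi / 3 * ∫ ψ in (0:ℝ)..Real.pi, R (Real.cos ψ) ^ 3 * Real.sin ψ := by
  have hN := measurable_Nf hR
  rw [vol_triple hR, Measure.volume_eq_prod, lintegral_prod _ (by
    have : Measurable fun q : ℝ × (ℝ × ℝ) => (q.1, √(q.2.1 ^ 2 + q.2.2 ^ 2)) := by fun_prop
    exact (hN.comp this).aemeasurable)]
  have h1 : ∀ t : ℝ, ∫⁻ σ : ℝ × ℝ, Nf R t (√(σ.1 ^ 2 + σ.2 ^ 2)) =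
      ENNReal.ofReal (2 * Real.pi) * ∫⁻ r in Ioi (0:ℝ), ENNReal.ofReal r * Nf R t r := by
    intro t
    apply plane_radial (F := fun r => Nf R t r)
    exact hN.comp (measurable_const.prodMk measurable_id)
  simp only [h1]
  rw [lintegral_const_mul', half_plane hR hR0, ← ENNReal.ofReal_mul (by positivity),
    ENNReal.toReal_ofReal]
  · ring
  · have : 0 ≤ ∫ ψ in (0:ℝ)..Real.pi, R (Real.cos ψ) ^ 3 * Real.sin ψ := by
      apply intervalIntegral.integral_nonneg Real.pi_pos.le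
      intro ψ hψ
      have h1 := Real.sin_nonneg_of_nonneg_of_le_pi hψ.1 hψ.2
      have h2 := (hR0 (Real.cos ψ)).le
      positivity
    positivity
  · exact ENNReal.ofReal_ne_top

end Pool.Agent.IB
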