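import Pool.Agent.IB.PartA
import Pool.Agent.IB.Vol

/-!
The body of revolution with support function `1 + w (arcsin u₄)`.
-/

namespace Pool.Agent.IB

open Set MeasureTheory
open scoped RealInnerProductSpace

/-- Four dimensional Euclidean space. -/
abbrev E4 := EuclideanSpace ℝ (Fin 4)

/-- The axis. -/
noncomputable def ax : E4 := EuclideanSpace.single 3 1

/-- A vector orthogonal to the axis. -/
noncomputable def n0 : E4 := EuclideanSpace.single 0 1

lemma norm_ax : ‖ax‖ = 1 := by simp [ax]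

lemma norm_n0 : ‖n0‖ = 1 := by simp [n0]

lemma inner_ax_n0 : ⟪ax, n0⟫ = 0 := by
  simp [ax, n0, EuclideanSpace.inner_single_left]

lemma inner_ax_ax : ⟪ax, ax⟫ = 1 := by
  rw [real_inner_self_eq_norm_sq, norm_ax]; norm_num

/-- Axis coordinate. -/
noncomputable def yc (x : E4) : ℝ := ⟪ax, x⟫

/-- Distance to the axis. -/
noncomputable def rc (x : E4) : ℝ := ‖x - yc x • ax‖

lemma rc_nonneg (x : E4) : 0 ≤ rc x := norm_nonneg _

lemma inner_ax_perp (x : E4) : ⟪ax, x - yc x • ax⟫ = 0 := by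
  rw [inner_sub_right, inner_smul_right, inner_ax_ax]
  unfold yc; ring

lemma rc_sq (x : E4) : rc x ^ 2 + yc x ^ 2 = ‖x‖ ^ 2 := by
  have h : x = (x - yc x • ax) + yc x • ax := by abel
  have h1 : ‖x‖ ^ 2 = ‖(x - yc x • ax) + yc x • ax‖ ^ 2 := by rw [← h]
  rw [h1, norm_add_sq_real, inner_smul_right, real_inner_comm, inner_ax_perp, norm_smul,
    norm_ax]
  unfold rc
  simp

lemma decomp (x : E4) : ∃ n : E4, ‖n‖ = 1 ∧ ⟪ax, n⟫ = 0 ∧ x = rc x • n + yc x • ax := by
  by_cases h : rc x = 0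
  · refine ⟨n0, norm_n0, inner_ax_n0, ?_⟩
    have h1 : x - yc x • ax = 0 := norm_eq_zero.1 h
    rw [h, zero_smul, zero_add]
    exact sub_eq_zero.1 h1
  · refine ⟨(rc x)⁻¹ • (x - yc x • ax), ?_, ?_, ?_⟩
    · rw [norm_smul, norm_inv, Real.norm_eq_abs, abs_of_nonneg (rc_nonneg x)]
      exact inv_mul_cancel₀ h
    · rw [inner_smul_right, inner_ax_perp, mul_zero]
    · rw [smul_smul, mul_inv_cancel₀ h, one_smul]; abel

lemma yc_comb {n : E4} (hn : ⟪ax, n⟫ = 0) (a b : ℝ) : yc (a • n + b • ax) = b := by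
  unfold yc
  rw [inner_add_right, inner_smul_right, inner_smul_right, hn, inner_ax_ax]; ring

lemma norm_comb {n : E4} (hn1 : ‖n‖ = 1) (hn : ⟪ax, n⟫ = 0) (a b : ℝ) :
    ‖a • n + b • ax‖ ^ 2 = a ^ 2 + b ^ 2 := by
  rw [norm_add_sq_real, inner_smul_left, inner_smul_right, real_inner_comm, hn, norm_smul,
    norm_smul, norm_ax, hn1, Real.norm_eq_abs, Real.norm_eq_abs]
  simp

lemma inner_comb {n : E4} (hn1 : ‖n‖ = 1) (hn : ⟪ax, n⟫ = 0) (a b c d : ℝ) :
    ⟪a • n + b • ax, c • n + d • ax⟫ = a * c + b * d := by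
  have h1 : ⟪n, ax⟫ = 0 := by rw [real_inner_comm]; exact hn
  have h2 : ⟪n, n⟫ = 1 := by rw [real_inner_self_eq_norm_sq, hn1]; norm_num
  rw [inner_add_left, inner_add_right, inner_add_right]
  simp only [inner_smul_left, inner_smul_right, hn, h1, h2, inner_ax_ax, conj_trivial]
  ring

/-- Bound for the inner product. -/
lemma inner_le {n : E4} (hn1 : ‖n‖ = 1) (hn : ⟪ax, n⟫ = 0) {a : ℝ} (ha : 0 ≤ a) (b : ℝ)
    (v : E4) : ⟪a • n + b • ax, v⟫ ≤ a * rc v + b * yc v := by
  rw [inner_add_left, inner_smul_left, inner_smul_left]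
  simp only [conj_trivial]
  have h1 : ⟪n, v⟫ = ⟪n, v - yc v • ax⟫ := by
    have h0 : ⟪n, ax⟫ = 0 := by rw [real_inner_comm]; exact hn
    rw [inner_sub_right, inner_smul_right, h0]
    ring
  have h2 : ⟪n, v⟫ ≤ rc v := by
    rw [h1]
    refine (real_inner_le_norm _ _).trans ?_
    rw [hn1, one_mul]; rfl
  have h3 : ⟪ax, v⟫ = yc v := rfl
  rw [h3]
  have := mul_le_mul_of_nonneg_left h2 ha
  linarith

lemma abs_yc_le {u : E4} (hu : ‖u‖ = 1) : |yc u| ≤ 1 := by
  have := rc_sq u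
  rw [hu] at this
  rw [← sq_le_one_iff_abs_le_one]
  nlinarith [sq_nonneg (rc u)]

lemma sin_arcsin_yc {u : E4} (hu : ‖u‖ = 1) : Real.sin (Real.arcsin (yc u)) = yc u := by
  have := abs_le.1 (abs_yc_le hu)
  exact Real.sin_arcsin this.1 this.2

lemma cos_arcsin_yc {u : E4} (hu : ‖u‖ = 1) : Real.cos (Real.arcsin (yc u)) = rc u := by
  rw [Real.cos_arcsin]
  have := rc_sq u
  rw [hu] at this
  rw [show 1 - yc u ^ 2 = rc u ^ 2 by linarith]
  exact Real.sqrt_sq (rc_nonneg u)

/-- Assumptions on the profile. -/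
structure Prof (w w' : ℝ → ℝ) : Prop where
  c11 : C11 w w' (1/30)
  out : ∀ α, |α| ≤ 1/10 ∨ Real.pi / 2 - 1/10 ≤ |α| → w α = 0
  key : ∀ β, 0 ≤ β → β ≤ Real.pi / 2 →
      (1 + (w (Real.pi / 2 - β) + w (-(Real.pi / 2 - β))) / 2) *
        ∫ φ in (0:ℝ)..β, (rad w φ ^ 3 + rad w (-φ) ^ 3) / 2 * Real.cos φ = Real.sin β

/-- The body. -/
def body (w : ℝ → ℝ) : Set E4 := {x | ∀ u : E4, ‖u‖ = 1 → ⟪x, u⟫ ≤ 1 + w (Real.arcsin (yc u))}

variable {w w' : ℝ → ℝ}

lemma Prof.abs_le (h : Prof w w') (α : ℝ) : |w α| ≤ 1/30 := h.c11.bl.1 α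

lemma Prof.hi (h : Prof w w') {α : ℝ} (hα : Real.pi / 2 ≤ α) : w α = 0 := by
  apply h.out
  right
  have := Real.pi_pos
  rw [abs_of_nonneg (by linarith)]
  linarith

lemma Prof.lo (h : Prof w w') {α : ℝ} (hα : α ≤ -(Real.pi / 2)) : w α = 0 := by
  apply h.out
  right
  have := Real.pi_pos
  rw [abs_of_nonpos (by linarith)]
  linarith

/-- Radial description of the body. -/
lemma mem_body_iff (h : Prof w w') (x : E4) :
    x ∈ body w ↔ ‖x‖ ≤ rad w (Real.arcsin (yc x / ‖x‖)) := by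
  have hbl := h.c11.bl
  by_cases hx0 : x = 0
  · subst hx0
    constructor
    · intro _
      rw [norm_zero]
      have := rad_ge hbl (by norm_num) (Real.arcsin (yc 0 / 0))
      linarith
    · intro _ u hu
      rw [inner_zero_left]
      have := abs_le.1 (h.abs_le (Real.arcsin (yc u)))
      linarith [this.1]
  have hs : 0 < ‖x‖ := norm_pos_iff.2 hx0
  set s := ‖x‖ with hsdef
  obtain ⟨n, hn1, hn, hx⟩ := decomp x
  set φ := Real.arcsin (yc x / s) with hφ
  have hrs := rc_sq x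
  have hyc : |yc x / s| ≤ 1 := by
    rw [abs_div, abs_of_pos hs, div_le_one hs]
    apply abs_le_of_sq_le_sq _ hs.le
    nlinarith [sq_nonneg (rc x)]
  have hyc' := abs_le.1 hyc
  have hsin : yc x = s * Real.sin φ := by
    rw [hφ, Real.sin_arcsin hyc'.1 hyc'.2]
    field_simp
  have hφ1 := Real.neg_pi_div_two_le_arcsin (yc x / s)
  have hφ2 := Real.arcsin_le_pi_div_two (yc x / s)
  rw [← hφ] at hφ1 hφ2
  have hcos0 : 0 ≤ Real.cos φ := Real.cos_nonneg_of_neg_pi_div_two_le_of_le hφ1 hφ2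
  have hcos : rc x = s * Real.cos φ := by
    have e1 : rc x ^ 2 = (s * Real.cos φ) ^ 2 := by
      have e2 := Real.sin_sq_add_cos_sq φ
      rw [hsin] at hrs
      have : rc x ^ 2 = s ^ 2 - (s * Real.sin φ) ^ 2 := by linarith
      rw [this]
      linear_combination (-s ^ 2) * e2
    exact (sq_eq_sq₀ (rc_nonneg x) (by positivity)).1 e1
  constructor
  · intro hmem
    have hprof : ∀ α, -(Real.pi / 2) ≤ α → α ≤ Real.pi / 2 → s * Real.cos (α - φ) ≤ 1 + w α := by
      intro α h1 h2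
      have hv : ‖Real.cos α • n + Real.sin α • ax‖ = 1 := by
        have := norm_comb hn1 hn (Real.cos α) (Real.sin α)
        rw [Real.cos_sq_add_sin_sq] at this
        have h0 := norm_nonneg (Real.cos α • n + Real.sin α • ax)
        nlinarith
      have h3 := hmem _ hv
      rw [yc_comb hn, Real.arcsin_sin h1 h2] at h3
      rw [hx, inner_comb hn1 hn, hcos, hsin] at h3
      rw [Real.cos_sub]
      linarith
    obtain ⟨t, ht, hts, he, _⟩ := rad_spec' hbl (by norm_num) φ
    have ht10 : |t| ≤ 1/10 := by linarith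
    have ht' := _root_.abs_le.1 ht10
    rw [he, le_div_iff₀ (cos_pos_of_mem ht)]
    have hpi := Real.pi_gt_three
    rcases le_or_gt (φ + t) (Real.pi / 2) with h1 | h1
    · rcases le_or_gt (-(Real.pi / 2)) (φ + t) with h2 | h2
      · have := hprof (φ + t) h2 h1
        rwa [show φ + t - φ = t by ring] at this
      · rw [h.lo h2.le]
        have h3 := hprof (-(Real.pi / 2)) le_rfl (by linarith)
        rw [h.lo le_rfl] at h3
        have h4 : Real.cos t ≤ Real.cos (-(Real.pi / 2) - φ) := by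
          rw [← Real.cos_neg t, ← Real.cos_neg (-(Real.pi / 2) - φ)]
          apply Real.cos_le_cos_of_nonneg_of_le_pi <;> linarith
        have := mul_le_mul_of_nonneg_left h4 hs.le
        linarith
    · rw [h.hi h1.le]
      have h3 := hprof (Real.pi / 2) (by linarith) le_rfl
      rw [h.hi le_rfl] at h3
      have h4 : Real.cos t ≤ Real.cos (Real.pi / 2 - φ) := by
        apply Real.cos_le_cos_of_nonneg_of_le_pi <;> linarith
      have := mul_le_mul_of_nonneg_left h4 hs.le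
      linarith
  · intro hle v hv
    have hx' := hx
    rw [hcos, hsin] at hx'
    have h1 := inner_le hn1 hn (mul_nonneg hs.le hcos0) (s * Real.sin φ) v
    rw [← hx', ← cos_arcsin_yc hv] at h1
    have hsv := sin_arcsin_yc hv
    set β := Real.arcsin (yc v) with hβ
    have hβ1 := Real.neg_pi_div_two_le_arcsin (yc v)
    have hβ2 := Real.arcsin_le_pi_div_two (yc v)
    rw [← hβ] at hβ1 hβ2
    have h2 : ⟪x, v⟫ ≤ s * Real.cos (β - φ) := by
      rw [Real.cos_sub, hsv]; linarith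
    refine h2.trans ?_
    have hsle : s ≤ 31/30 := by
      have a := rad_le hbl.continuous φ
      have b := (_root_.abs_le.1 (h.abs_le φ)).2
      linarith
    rcases le_or_gt |β - φ| 1 with h3 | h3
    · obtain ⟨_, _, _, _, hle'⟩ := rad_spec' hbl (by norm_num) φ
      have h4 := hle' (β - φ) (_root_.abs_le.1 h3)
      rw [show φ + (β - φ) = β by ring] at h4
      have h5 := hle.trans h4
      rwa [le_div_iff₀ (cos_pos_of_mem (_root_.abs_le.1 h3))] at h5
    · have h4 : Real.cos (β - φ) ≤ 5/9 := by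
        rw [← Real.cos_abs]
        refine le_trans (Real.cos_le_cos_of_nonneg_of_le_pi zero_le_one ?_ h3.le) Real.cos_one_le
        rw [_root_.abs_le]
        constructor <;> linarith
      have h5 := (_root_.abs_le.1 (h.abs_le β)).1
      nlinarith

end Pool.Agent.IB
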