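import Pool.Agent.IB.Body

/-!
Support function, sections and volumes for the body of revolution.
-/

namespace Pool.Agent.IB

open Set MeasureTheory
open scoped RealInnerProductSpace

variable {w w' : ℝ → ℝ}

lemma Prof.deriv_zero (h : Prof w w') {α : ℝ} (hα : Real.pi / 2 - 1/10 ≤ |α|) : w' α = 0 := by
  have hpi := Real.pi_gt_three
  rcases le_or_gt 0 α with h0 | h0
  · rw [abs_of_nonneg h0] at hα
    apply deriv_zero_right (h.c11.der α)
    intro x hx
    apply h.out
    right
    rw [abs_of_nonneg (by linarith)]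
    linarith
  · rw [abs_of_neg h0] at hα
    apply deriv_zero_left (h.c11.der α)
    intro x hx
    apply h.out
    right
    rw [abs_of_nonpos (by linarith)]
    linarith

/-- The support function is attained. -/
lemma exists_support (h : Prof w w') {u : E4} (hu : ‖u‖ = 1) :
    ∃ x ∈ body w, ⟪x, u⟫ = 1 + w (Real.arcsin (yc u)) := by
  obtain ⟨n, hn1, hn, hun⟩ := decomp u
  have hc := cos_arcsin_yc hu
  have hsn := sin_arcsin_yc hu
  set α := Real.arcsin (yc u) with hα
  have hα1 := Real.neg_pi_div_two_le_arcsin (yc u)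
  have hα2 := Real.arcsin_le_pi_div_two (yc u)
  rw [← hα] at hα1 hα2
  have hpi := Real.pi_gt_three
  have hpi4 := Real.pi_lt_four
  have hu' : u = Real.cos α • n + Real.sin α • ax := by rw [hc, hsn]; exact hun
  set A := (1 + w α) * Real.cos α - w' α * Real.sin α with hA
  set Y := (1 + w α) * Real.sin α + w' α * Real.cos α with hY
  have hcos0 : 0 ≤ Real.cos α := Real.cos_nonneg_of_neg_pi_div_two_le_of_le hα1 hα2
  have hwα := abs_le.1 (h.abs_le α)
  have hA0 : 0 ≤ A := by
    rcases le_or_gt (Real.pi / 2 - 1/10) |α| with h1 | h1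
    · rw [hA, h.deriv_zero h1, zero_mul, sub_zero]
      exact mul_nonneg (by linarith) hcos0
    · have h2 : 1/20 ≤ Real.cos α := by
        rw [← Real.cos_abs]
        have h3 : 1 - 2 / Real.pi * |α| ≤ Real.cos |α| :=
          Real.one_sub_mul_le_cos (abs_nonneg _) (by linarith)
        have h4 : 2 / Real.pi * |α| ≤ 2 / Real.pi * (Real.pi / 2 - 1/10) :=
          mul_le_mul_of_nonneg_left h1.le (by positivity)
        have h5 : 2 / Real.pi * (Real.pi / 2 - 1/10) = 1 - 1 / (5 * Real.pi) := by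
          field_simp; ring
        have h6 : 1/20 ≤ 1 / (5 * Real.pi) := by
          apply one_div_le_one_div_of_le (by positivity)
          linarith
        linarith
      have h3 : |w' α * Real.sin α| ≤ 1/30 * 1 := by
        rw [abs_mul]
        exact mul_le_mul (h.c11.bl'.1 α) (Real.abs_sin_le_one α) (abs_nonneg _) (by norm_num)
      have h4 := (abs_le.1 h3).2
      have h5 : 29/30 * (1/20) ≤ (1 + w α) * Real.cos α :=
        mul_le_mul (by linarith) h2 (by norm_num) (by linarith)
      rw [hA]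
      linarith
  refine ⟨A • n + Y • ax, ?_, ?_⟩
  · intro v hv
    have h1 := inner_le hn1 hn hA0 Y v
    rw [← cos_arcsin_yc hv] at h1
    have hsv := sin_arcsin_yc hv
    have hβ1 := Real.neg_pi_div_two_le_arcsin (yc v)
    have hβ2 := Real.arcsin_le_pi_div_two (yc v)
    set β := Real.arcsin (yc v) with hβ
    have h2 := support_ineq h.c11 le_rfl α (β - α) (by
      rw [abs_le]; constructor <;> linarith)
    rw [show α + (β - α) = β by ring, Real.cos_sub, Real.sin_sub] at h2
    refine h1.trans (le_trans (le_of_eq ?_) h2)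
    rw [hA, hY, ← hsv]
    ring
  · rw [hu', inner_comb hn1 hn, hA, hY]
    have := Real.sin_sq_add_cos_sq α
    linear_combination (1 + w α) * this

lemma convex_body (w : ℝ → ℝ) : Convex ℝ (body w) := by
  have e : body w = ⋂ u : E4, {x : E4 | ‖u‖ = 1 → ⟪x, u⟫ ≤ 1 + w (Real.arcsin (yc u))} := by
    ext x; simp [body]
  rw [e]
  apply convex_iInter
  intro u
  by_cases hu : ‖u‖ = 1
  · simp only [hu, true_imp_iff]
    intro x hx y hy a b ha hb hab
    simp only [mem_ofPred_eq] at *
    rw [inner_add_left, inner_smul_left, inner_smul_left]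
    simp only [conj_trivial]
    calc a * ⟪x, u⟫ + b * ⟪y, u⟫ ≤ a * (1 + w (Real.arcsin (yc u))) +
          b * (1 + w (Real.arcsin (yc u))) := by gcongr
      _ = 1 + w (Real.arcsin (yc u)) := by rw [← add_mul, hab, one_mul]
  · simp only [hu, false_imp_iff]
    exact convex_univ

lemma isClosed_body (w : ℝ → ℝ) : IsClosed (body w) := by
  have e : body w = ⋂ u : E4, {x : E4 | ‖u‖ = 1 → ⟪x, u⟫ ≤ 1 + w (Real.arcsin (yc u))} := by
    ext x; simp [body]
  rw [e]
  apply isClosed_iInter
  intro u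
  by_cases hu : ‖u‖ = 1
  · simp only [hu, true_imp_iff]
    exact isClosed_le (by fun_prop) continuous_const
  · simp only [hu, false_imp_iff]
    exact isClosed_univ

lemma norm_le_of_mem (h : Prof w w') {x : E4} (hx : x ∈ body w) : ‖x‖ ≤ 31/30 := by
  rw [mem_body_iff h] at hx
  have a := rad_le h.c11.bl.continuous (Real.arcsin (yc x / ‖x‖))
  have b := (abs_le.1 (h.abs_le (Real.arcsin (yc x / ‖x‖)))).2
  linarith

lemma isCompact_body (h : Prof w w') : IsCompact (body w) := by
  apply Metric.isCompact_of_isClosed_isBounded (isClosed_body w)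
  apply (Metric.isBounded_closedBall (x := (0:E4)) (r := 31/30)).subset
  intro x hx
  rw [mem_closedBall_zero_iff]
  exact norm_le_of_mem h hx

lemma ball_subset_body (h : Prof w w') : Metric.closedBall (0:E4) (29/30) ⊆ body w := by
  intro x hx u hu
  rw [mem_closedBall_zero_iff] at hx
  have h1 := real_inner_le_norm x u
  rw [hu, mul_one] at h1
  have := (abs_le.1 (h.abs_le (Real.arcsin (yc u)))).1
  linarith

lemma zero_mem_interior (h : Prof w w') : (0:E4) ∈ interior (body w) := by
  rw [mem_interior_iff_mem_nhds]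
  exact Filter.mem_of_superset (Metric.closedBall_mem_nhds _ (by norm_num)) (ball_subset_body h)

/-! ### Sections -/

/-- The `(n-1)`-dimensional volume of the section by the hyperplane orthogonal to `u`. -/
noncomputable def secVol {n : ℕ} (K : Set (EuclideanSpace ℝ (Fin n)))
    (u : EuclideanSpace ℝ (Fin n)) : ℝ :=
  (volume {x : (ℝ ∙ u)ᗮ | (x : EuclideanSpace ℝ (Fin n)) ∈ K}).toReal

lemma finrank_perp {u : E4} (hu : ‖u‖ = 1) : Module.finrank ℝ (ℝ ∙ u)ᗮ = 3 := by
  have hu0 : u ≠ 0 := by
    intro h0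
    rw [h0, norm_zero] at hu
    norm_num at hu
  have : Fact (Module.finrank ℝ E4 = 3 + 1) := ⟨by simp⟩
  exact Submodule.finrank_orthogonal_span_singleton hu0

/-- An adapted orthonormal basis of `u^⊥`. -/
lemma exists_basis {u : E4} (hu : ‖u‖ = 1) :
    ∃ b : OrthonormalBasis (Fin 3) ℝ (ℝ ∙ u)ᗮ, ∀ z : (ℝ ∙ u)ᗮ, yc (z : E4) = rc u * (b.repr z) 0 := by
  have hfin := finrank_perp hu
  -- the vector `m`
  obtain ⟨n, hn1, hn, hun⟩ := decomp u
  have hru := rc_sq u
  rw [hu] at hru
  -- unit vector `f = rc u • ax - yc u • n`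
  set f : E4 := (-yc u) • n + rc u • ax with hf
  have hf1 : ‖f‖ = 1 := by
    have := norm_comb hn1 hn (-yc u) (rc u)
    rw [← hf] at this
    have h0 := norm_nonneg f
    nlinarith
  have hfu : ⟪u, f⟫ = 0 := by
    nth_rewrite 1 [hun]
    rw [hf, inner_comb hn1 hn]; ring
  have hfmem : f ∈ (ℝ ∙ u)ᗮ := Submodule.mem_orthogonal_singleton_iff_inner_right.2 hfu
  set f' : (ℝ ∙ u)ᗮ := ⟨f, hfmem⟩ with hf'
  obtain ⟨b, hb⟩ := Orthonormal.exists_orthonormalBasis_extension_of_card_eq
    (𝕜 := ℝ) (E := (ℝ ∙ u)ᗮ) (ι := Fin 3) (by rw [hfin]; simp) (v := fun _ => f') (s := {0}) (by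
      constructor
      · intro i
        exact hf1
      · intro i j hij
        exact absurd (Subsingleton.elim i j) hij)
  refine ⟨b, fun z => ?_⟩
  have hb0 : b 0 = f' := hb 0 rfl
  rw [b.repr_apply_apply, hb0]
  have h1 : ⟪f', z⟫ = ⟪f, (z : E4)⟫ := rfl
  rw [h1]
  have h2 : rc u • f + yc u • (rc u • n + yc u • ax) = ax := by
    have e : rc u * rc u + yc u * yc u = 1 := by nlinarith
    have e2 : rc u • f + yc u • (rc u • n + yc u • ax) =
        (rc u * rc u + yc u * yc u) • ax := by
      rw [hf]; module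
    rw [e2, e, one_smul]
  rw [← hun] at h2
  have h3 : ⟪u, (z : E4)⟫ = 0 := Submodule.mem_orthogonal_singleton_iff_inner_right.1 z.2
  have h4 : yc (z : E4) = ⟪rc u • f + yc u • u, (z : E4)⟫ := by rw [h2]; rfl
  rw [h4, inner_add_left, inner_smul_left, inner_smul_left, h3]
  simp

lemma rad_pos (h : Prof w w') (x : ℝ) : 0 < rad w x := by
  have := rad_ge h.c11.bl (by norm_num) x
  linarith

lemma rad_cont (h : Prof w w') : Continuous (rad w) := by
  have h1 := (rad_BL h.c11.bl (by norm_num)).continuous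
  have h2 : Continuous fun x => (rad w x - 1) + 1 := h1.add continuous_const
  simpa using h2

lemma secVol_body (h : Prof w w') {u : E4} (hu : ‖u‖ = 1) :
    secVol (body w) u = 2 * Real.pi / 3 *
      ∫ ψ in (0:ℝ)..Real.pi, rad w (Real.arcsin (rc u * Real.cos ψ)) ^ 3 * Real.sin ψ := by
  obtain ⟨b, hb⟩ := exists_basis hu
  set R : ℝ → ℝ := fun c => rad w (Real.arcsin (rc u * c)) with hR
  have hRc : Continuous R := (rad_cont h).comp (Real.continuous_arcsin.comp (by fun_prop))
  have hR0 : ∀ x, 0 < R x := fun x => rad_pos h _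
  have hset : {x : (ℝ ∙ u)ᗮ | (x : E4) ∈ body w} =
      b.repr ⁻¹' {z : EuclideanSpace ℝ (Fin 3) | ‖z‖ ≤ R (z 0 / ‖z‖)} := by
    ext z
    simp only [mem_ofPred_eq, mem_preimage]
    rw [mem_body_iff h, hb z, b.repr.norm_map, mul_div_assoc]
    rfl
  have hm : MeasurableSet {z : EuclideanSpace ℝ (Fin 3) | ‖z‖ ≤ R (z 0 / ‖z‖)} := by
    apply measurableSet_le
    · fun_prop
    · have := hRc.measurable
      fun_prop
  unfold secVol
  rw [hset, b.measurePreserving_repr.measure_preimage hm.nullMeasurableSet, vol_star hRc hR0]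

/-- Mean of the support function in opposite directions. -/
noncomputable def hbar (w : ℝ → ℝ) (u : E4) : ℝ :=
  1 + (w (Real.arcsin (yc u)) + w (-Real.arcsin (yc u))) / 2

lemma integral_subst (h : Prof w w') {k : ℝ} (hk0 : 0 ≤ k) (hk1 : k ≤ 1) :
    k * ∫ ψ in (0:ℝ)..Real.pi, rad w (Real.arcsin (k * Real.cos ψ)) ^ 3 * Real.sin ψ =
      2 * ∫ φ in (0:ℝ)..(Real.arcsin k), (rad w φ ^ 3 + rad w (-φ) ^ 3) / 2 * Real.cos φ := by
  have hrc := rad_cont h
  set g : ℝ → ℝ := fun z => rad w (Real.arcsin z) ^ 3 with hg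
  have hgc : Continuous g := by
    have := Real.continuous_arcsin
    fun_prop
  -- first substitution
  have h1 : k * ∫ ψ in (0:ℝ)..Real.pi, rad w (Real.arcsin (k * Real.cos ψ)) ^ 3 * Real.sin ψ =
      ∫ z in (-k)..k, g z := by
    have e1 : ∫ ψ in (0:ℝ)..Real.pi, (g ∘ fun ψ => k * Real.cos ψ) ψ * (-(k * Real.sin ψ)) =
        ∫ z in (k * Real.cos 0)..(k * Real.cos Real.pi), g z := by
      apply intervalIntegral.integral_comp_mul_deriv (f := fun ψ => k * Real.cos ψ)
      · intro x _
        have := (Real.hasDerivAt_cos x).const_mul k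
        exact this.congr_deriv (by ring)
      · fun_prop
      · exact hgc
    rw [Real.cos_zero, Real.cos_pi, mul_one, mul_neg_one,
      intervalIntegral.integral_symm (-k) k] at e1
    have e2 : ∫ z in (-k)..k, g z =
      -∫ ψ in (0:ℝ)..Real.pi, (g ∘ fun ψ => k * Real.cos ψ) ψ * (-(k * Real.sin ψ)) := by
      rw [e1, neg_neg]
    rw [e2, ← intervalIntegral.integral_neg, ← intervalIntegral.integral_const_mul]
    congr 1
    funext ψ
    simp only [Function.comp_apply, hg]
    ring
  -- second substitution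
  set β := Real.arcsin k with hβ
  have hβ0 : 0 ≤ β := Real.arcsin_nonneg.2 hk0
  have hβ1 : β ≤ Real.pi / 2 := Real.arcsin_le_pi_div_two k
  have hsin : Real.sin β = k := Real.sin_arcsin (by linarith) hk1
  have h2 : ∫ φ in (-β)..β, rad w φ ^ 3 * Real.cos φ = ∫ z in (-k)..k, g z := by
    have e1 : ∫ φ in (-β)..β, (g ∘ Real.sin) φ * Real.cos φ =
        ∫ z in (Real.sin (-β))..(Real.sin β), g z := by
      apply intervalIntegral.integral_comp_mul_deriv
      · intro x _; exact Real.hasDerivAt_sin x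
      · fun_prop
      · exact hgc
    rw [Real.sin_neg, hsin] at e1
    rw [← e1]
    apply intervalIntegral.integral_congr
    intro φ hφ
    have h3 : min (-β) β ≤ φ := hφ.1
    have h4 : φ ≤ max (-β) β := hφ.2
    rw [min_eq_left (by linarith)] at h3
    rw [max_eq_right (by linarith)] at h4
    simp only [Function.comp_apply, hg]
    rw [Real.arcsin_sin (by linarith) (by linarith)]
  -- splitting
  have hint : ∀ x y : ℝ, IntervalIntegrable (fun φ => rad w φ ^ 3 * Real.cos φ) volume x y :=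
    fun x y => (by fun_prop : Continuous fun φ => rad w φ ^ 3 * Real.cos φ).intervalIntegrable _ _
  have hint' : ∀ x y : ℝ, IntervalIntegrable (fun φ => rad w (-φ) ^ 3 * Real.cos φ) volume x y :=
    fun x y => (by fun_prop : Continuous fun φ => rad w (-φ) ^ 3 * Real.cos φ).intervalIntegrable _ _
  have h3 : ∫ φ in (-β)..β, rad w φ ^ 3 * Real.cos φ =
      2 * ∫ φ in (0:ℝ)..β, (rad w φ ^ 3 + rad w (-φ) ^ 3) / 2 * Real.cos φ := by
    rw [← intervalIntegral.integral_add_adjacent_intervals (hint (-β) 0) (hint 0 β)]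
    have e1 : ∫ φ in (-β)..0, rad w φ ^ 3 * Real.cos φ =
        ∫ φ in (0:ℝ)..β, rad w (-φ) ^ 3 * Real.cos φ := by
      have := intervalIntegral.integral_comp_neg (a := 0) (b := β)
        (fun φ => rad w φ ^ 3 * Real.cos φ)
      rw [neg_zero] at this
      rw [← this]
      simp only [Real.cos_neg]
    rw [e1, ← intervalIntegral.integral_add (hint' _ _) (hint _ _),
      ← intervalIntegral.integral_const_mul]
    congr 1
    funext φ
    ring
  rw [h1, ← h2, h3]

lemma rad_zero_eq (h : Prof w w') : rad w 0 = 1 := by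
  have h1 : rad w 0 = rad (fun _ => 0) 0 := by
    apply rad_congr h.c11.bl (BL_zero (by norm_num)) (by norm_num)
    intro t ht
    apply h.out
    left
    rw [zero_add]
    linarith
  rw [h1, rad_zero]

lemma hbar_eq {u : E4} (hu : ‖u‖ = 1) : hbar w u =
    1 + (w (Real.pi / 2 - Real.arcsin (rc u)) + w (-(Real.pi / 2 - Real.arcsin (rc u)))) / 2 := by
  have h1 := Real.neg_pi_div_two_le_arcsin (yc u)
  have h2 := Real.arcsin_le_pi_div_two (yc u)
  have hc := cos_arcsin_yc hu
  have e : Real.pi / 2 - Real.arcsin (rc u) = |Real.arcsin (yc u)| := by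
    have h3 : Real.arcsin (rc u) = Real.pi / 2 - |Real.arcsin (yc u)| := by
      rw [← hc, ← Real.cos_abs, ← Real.sin_pi_div_two_sub]
      apply Real.arcsin_sin
      · have : |Real.arcsin (yc u)| ≤ Real.pi / 2 := abs_le.2 ⟨h1, h2⟩
        have := Real.pi_pos
        linarith
      · have := abs_nonneg (Real.arcsin (yc u))
        linarith
    rw [h3]; ring
  rw [e]
  unfold hbar
  rcases abs_cases (Real.arcsin (yc u)) with ⟨h3, _⟩ | ⟨h3, _⟩
  · rw [h3]
  · rw [h3, neg_neg, add_comm (w (-Real.arcsin (yc u)))]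

/-- The key geometric identity. -/
theorem secVol_mul_hbar (h : Prof w w') {u : E4} (hu : ‖u‖ = 1) :
    secVol (body w) u * hbar w u = 4 * Real.pi / 3 := by
  have hr0 := rc_nonneg u
  have hr1 : rc u ≤ 1 := by
    have := rc_sq u
    rw [hu] at this
    nlinarith [sq_nonneg (yc u)]
  rw [secVol_body h hu, hbar_eq hu]
  set J := ∫ ψ in (0:ℝ)..Real.pi, rad w (Real.arcsin (rc u * Real.cos ψ)) ^ 3 * Real.sin ψ with hJ
  set β := Real.arcsin (rc u) with hβ
  have hβ0 : 0 ≤ β := Real.arcsin_nonneg.2 hr0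
  have hβ1 : β ≤ Real.pi / 2 := Real.arcsin_le_pi_div_two _
  have hsin : Real.sin β = rc u := Real.sin_arcsin (by linarith) hr1
  have hkey := h.key β hβ0 hβ1
  have hsub := integral_subst h hr0 hr1
  rw [← hJ, ← hβ] at hsub
  set I := ∫ φ in (0:ℝ)..β, (rad w φ ^ 3 + rad w (-φ) ^ 3) / 2 * Real.cos φ with hI
  set H := 1 + (w (Real.pi / 2 - β) + w (-(Real.pi / 2 - β))) / 2 with hH
  rcases hr0.eq_or_lt with h0 | h0
  · -- the equatorial section
    have hβz : β = 0 := by rw [hβ, ← h0, Real.arcsin_zero]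
    have hJ2 : J = 2 := by
      rw [hJ, ← h0]
      simp only [zero_mul, Real.arcsin_zero, rad_zero_eq h, one_pow, one_mul]
      rw [integral_sin, Real.cos_zero, Real.cos_pi]; norm_num
    have hH1 : H = 1 := by
      rw [hH, hβz, sub_zero, h.hi le_rfl, h.lo le_rfl]; norm_num
    rw [hJ2, hH1]; ring
  · rw [hsin] at hkey
    have h1 : rc u * (J * H) = rc u * 2 := by
      have : rc u * (J * H) = (rc u * J) * H := by ring
      rw [this, hsub]
      linarith
    have h2 := mul_left_cancel₀ h0.ne' h1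
    calc 2 * Real.pi / 3 * J * H = 2 * Real.pi / 3 * (J * H) := by ring
      _ = 4 * Real.pi / 3 := by rw [h2]; ring

end Pool.Agent.IB
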