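import Pool.Agent.IB.MapDef

/-!
Existence and Lipschitz dependence of the fixed point.
-/

namespace Pool.Agent.IB

open Set MeasureTheory
open scoped BoundedContinuousFunction

namespace Zone

variable (Z : Zone)

/-- Bound of `nu`. -/
noncomputable def B : ℝ := 25 * Z.K * Z.A ^ 2 + 24 * Z.I0

/-- Lipschitz bound of `nu`. -/
noncomputable def B' : ℝ := 18 * Z.K * Z.A + 6

/-- Bound of the new density. -/
noncomputable def B2 : ℝ := 31 * ((1 + 2 * Z.K) * Z.B) * Z.k⁻¹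

/-- Lipschitz bound of the new density. -/
noncomputable def KL : ℝ :=
  2 * (Z.B' + 2 * Z.B * Z.K + 93 * ((1 + 2 * Z.K) * Z.B)) * (Z.k⁻¹ + Z.K * (Z.k⁻¹ * Z.k⁻¹))

/-- Contraction constant. -/
noncomputable def Cc : ℝ := 31 * ((1 + 2 * Z.K) * Z.Cd) * Z.k⁻¹

/-- The smallness condition. -/
structure Tiny (ε : ℝ) : Prop where
  small : Z.Small ε ((Z.KL + 1) * ε)
  le1 : ε ≤ 1
  hB2 : Z.B2 * ε ≤ 1
  hCc : Z.Cc * ε ≤ 1 / 2

variable {Z}

lemma B_pos : 0 < Z.B := by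
  have := Z.I0_pos
  have := Z.K_pos
  have := Z.A_pos
  unfold B; positivity

lemma B'_pos : 0 < Z.B' := by
  have := Z.K_pos
  have := Z.A_pos
  unfold B'; positivity

lemma B2_pos : 0 < Z.B2 := by
  have := Z.K_pos
  have := Z.B_pos
  have := Z.hk
  unfold B2; positivity

lemma KL_pos : 0 < Z.KL := by
  have := Z.K_pos
  have := Z.B_pos
  have := Z.B'_pos
  have := Z.hk
  unfold KL; positivity

lemma Cc_pos : 0 < Z.Cc := by
  have := Z.K_pos
  have := Z.Cd_pos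
  have := Z.hk
  unfold Cc; positivity

lemma exists_tiny : ∃ ε₀ > 0, ∀ ε, 0 < ε → ε ≤ ε₀ → Z.Tiny ε := by
  have h1 := Z.K_pos
  have h2 := Z.KL_pos
  have h3 := Z.A_pos
  have h4 := Z.I1_pos
  have h5 := Z.B2_pos
  have h6 := Z.Cc_pos
  have h7 := Z.hk
  set R := 4 / Z.k + 2 * (Z.KL + 1) + 10 * Z.A + 30 * (8 * Z.I1 * (Z.KL + 1) + Z.K) + 1 + Z.B2 +
    2 * Z.Cc with hR
  have hk4 : 0 < 4 / Z.k := by positivity
  have hR0 : 0 < R := by positivity
  refine ⟨1 / R, by positivity, fun ε hε hle => ?_⟩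
  have hRe : R * ε ≤ 1 := by
    rw [le_div_iff₀ hR0] at hle
    linarith
  have key : ∀ c, 0 ≤ c → c ≤ R → c * ε ≤ 1 := fun c _ hc =>
    (mul_le_mul_of_nonneg_right hc hε.le).trans hRe
  have p1 : 0 < 8 * Z.I1 * (Z.KL + 1) + Z.K := by positivity
  refine ⟨⟨hε, ?_, ?_, ?_, ?_, ?_⟩, ?_, ?_, ?_⟩
  · nlinarith
  · have := key (4 / Z.k) hk4.le (by rw [hR]; linarith)
    rw [div_mul_eq_mul_div, div_le_one h7] at this
    linarith
  · have := key (2 * (Z.KL + 1)) (by positivity) (by rw [hR]; linarith)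
    linarith
  · have := key (10 * Z.A) (by positivity) (by rw [hR]; linarith)
    linarith
  · have := key (30 * (8 * Z.I1 * (Z.KL + 1) + Z.K)) (by positivity) (by rw [hR]; linarith)
    linarith
  · have := key 1 (by norm_num) (by rw [hR]; linarith)
    linarith
  · exact key Z.B2 h5.le (by rw [hR]; linarith)
  · have := key (2 * Z.Cc) (by positivity) (by rw [hR]; linarith)
    linarith

/-- The map sends admissible densities to admissible densities of quadratic size. -/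
lemma sol_nu_adm {g g' p : ℝ → ℝ} {ε : ℝ} (ht : Z.Tiny ε) (hg : Force Z g g' ε)
    (hp : Adm p ε ((Z.KL + 1) * ε)) :
    Adm (Z.sol (Z.nu g p)) (Z.B2 * ε ^ 2) ((Z.KL + 1) * ε) := by
  have hε := ht.small.pos
  have hK := Z.K_pos
  have hB := Z.B_pos
  have hk := Z.hk
  have hb : ∀ x, |Z.nu g p x| ≤ Z.B * ε ^ 2 := nu_bound hg hp ht.small
  have hl : BL (Z.nu g p) (Z.B' * ε) := nu_BL hg hp ht.small
  apply sol_adm hl (nu_out hg hp ht.small) hb
  · unfold B2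
    apply le_of_eq; ring
  · have h2 : ε ^ 2 ≤ ε := by nlinarith [ht.le1]
    have h3 : Z.KL * ε = 2 * (Z.B' * ε + 2 * (Z.B * ε) * Z.K +
      93 * ((1 + 2 * Z.K) * (Z.B * ε))) * (Z.k⁻¹ + Z.K * (Z.k⁻¹ * Z.k⁻¹)) := by
      unfold KL; ring
    have h4 : Z.B * ε ^ 2 ≤ Z.B * ε := mul_le_mul_of_nonneg_left h2 hB.le
    have h5 : 2 * (Z.B' * ε + 2 * (Z.B * ε ^ 2) * Z.K + 93 * ((1 + 2 * Z.K) * (Z.B * ε ^ 2))) *
        (Z.k⁻¹ + Z.K * (Z.k⁻¹ * Z.k⁻¹)) ≤ Z.KL * ε := by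
      rw [h3]
      gcongr
    linarith

lemma sol_nu_adm' {g g' p : ℝ → ℝ} {ε : ℝ} (ht : Z.Tiny ε) (hg : Force Z g g' ε)
    (hp : Adm p ε ((Z.KL + 1) * ε)) :
    Adm (Z.sol (Z.nu g p)) ε ((Z.KL + 1) * ε) := by
  have h := sol_nu_adm ht hg hp
  refine ⟨fun x => (h.sup x).trans ?_, h.bl, h.out, h.obs⟩
  have := ht.hB2
  have := ht.small.pos
  nlinarith

lemma sol_nu_sub {g g' p h h' q : ℝ → ℝ} {ε d γ : ℝ} (ht : Z.Tiny ε) (hg : Force Z g g' ε)
    (hp : Adm p ε ((Z.KL + 1) * ε)) (hh : Force Z h h' ε) (hq : Adm q ε ((Z.KL + 1) * ε))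
    (hd : ∀ x, |p x - q x| ≤ d) (hγ : BL (fun x => g x - h x) γ) (x : ℝ) :
    |Z.sol (Z.nu g p) x - Z.sol (Z.nu h q) x| ≤ (d + γ) / 2 := by
  have hs := ht.small
  have hd0 : 0 ≤ d := (abs_nonneg _).trans (hd 0)
  have hγ0 : 0 ≤ γ := hγ.nonneg
  have h1 := sol_sub_bound (Z := Z) (nu_BL hg hp hs).continuous (nu_BL hh hq hs).continuous
    (nu_out hg hp hs) (nu_out hh hq hs) (nu_sub hg hp hh hq hs hd hγ) x
  refine h1.trans ?_
  have e : 31 * ((1 + 2 * Z.K) * (Z.Cd * ε * (d + γ))) * Z.k⁻¹ = (Z.Cc * ε) * (d + γ) := by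
    unfold Cc; ring
  rw [e]
  have := mul_le_mul_of_nonneg_right ht.hCc (add_nonneg hd0 hγ0)
  linarith

/-- The space of admissible densities. -/
def X (Z : Zone) (ε : ℝ) : Set (ℝ →ᵇ ℝ) := {p | Adm p ε ((Z.KL + 1) * ε)}

lemma Ei_lip : LipschitzWith 2 (fun p : ℝ →ᵇ ℝ => Ei p (Real.pi / 2)) := by
  apply LipschitzWith.of_dist_le_mul
  intro p q
  rw [Real.dist_eq, ← Ei_sub p.continuous q.continuous]
  unfold Ei
  have h := intervalIntegral.norm_integral_le_of_norm_le_const (a := (0:ℝ)) (b := Real.pi / 2)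
    (C := dist p q) (f := fun t => (p t - q t) * Real.cos t) (fun t _ => by
      rw [Real.norm_eq_abs, abs_mul]
      calc |p t - q t| * |Real.cos t| ≤ dist p q * 1 := by
            apply mul_le_mul _ (Real.abs_cos_le_one _) (abs_nonneg _) dist_nonneg
            rw [← Real.dist_eq]
            exact BoundedContinuousFunction.dist_coe_le_dist t
        _ = dist p q := mul_one _)
  rw [Real.norm_eq_abs, sub_zero, abs_of_pos (by positivity : 0 < Real.pi / 2)] at h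
  have h4 := Real.pi_lt_four
  have hd : 0 ≤ dist p q := dist_nonneg
  refine h.trans ?_
  rw [NNReal.coe_ofNat]
  nlinarith

lemma isClosed_X (ε : ℝ) : IsClosed (Z.X ε) := by
  have e : Z.X ε = (⋂ x : ℝ, {p : ℝ →ᵇ ℝ | |p x| ≤ ε}) ∩
      ((⋂ x : ℝ, {p : ℝ →ᵇ ℝ | |p x| ≤ (Z.KL + 1) * ε}) ∩
      (⋂ x : ℝ, ⋂ y : ℝ, {p : ℝ →ᵇ ℝ | |p x - p y| ≤ (Z.KL + 1) * ε * |x - y|})) ∩
      (⋂ x : ℝ, {p : ℝ →ᵇ ℝ | OutZ x → p x = 0}) ∩
      {p : ℝ →ᵇ ℝ | Ei p (Real.pi / 2) = 0} := by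
    ext p
    simp only [mem_inter_iff, mem_iInter, mem_ofPred_eq, X]
    constructor
    · intro h
      exact ⟨⟨⟨h.sup, h.bl.1, h.bl.2⟩, h.out⟩, h.obs⟩
    · rintro ⟨⟨⟨h1, h2, h3⟩, h4⟩, h5⟩
      exact ⟨h1, ⟨h2, h3⟩, h4, h5⟩
  have hev : ∀ x : ℝ, Continuous fun p : ℝ →ᵇ ℝ => p x := fun x =>
    continuous_eval_const x
  rw [e]
  refine IsClosed.inter (IsClosed.inter (IsClosed.inter ?_ (IsClosed.inter ?_ ?_)) ?_) ?_
  · exact isClosed_iInter fun x => isClosed_le (hev x).abs continuous_const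
  · exact isClosed_iInter fun x => isClosed_le (hev x).abs continuous_const
  · exact isClosed_iInter fun x => isClosed_iInter fun y =>
      isClosed_le ((hev x).sub (hev y)).abs continuous_const
  · refine isClosed_iInter fun x => ?_
    by_cases hx : OutZ x
    · simp only [hx, true_imp_iff]
      exact isClosed_eq (hev x) continuous_const
    · simp only [hx, false_imp_iff]
      exact isClosed_univ
  · exact isClosed_eq Ei_lip.continuous continuous_const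

lemma Adm_zero {δ L : ℝ} (hδ : 0 ≤ δ) (hL : 0 ≤ L) : Adm (fun _ => 0) δ L where
  sup := fun x => by simpa using hδ
  bl := BL_zero hL
  out := fun x _ => rfl
  obs := by unfold Ei; simp

/-- Existence of the fixed point. -/
theorem exists_fixed {g g' : ℝ → ℝ} {ε : ℝ} (ht : Z.Tiny ε) (hg : Force Z g g' ε) :
    ∃ p : ℝ → ℝ, Adm p ε ((Z.KL + 1) * ε) ∧ ∀ x, Z.sol (Z.nu g p) x = p x := by
  have hε := ht.small.pos
  have hKL := Z.KL_pos
  have hL : 0 ≤ (Z.KL + 1) * ε := by positivity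
  have hmem : ∀ p : Z.X ε, Adm (Z.sol (Z.nu g p.1)) ε ((Z.KL + 1) * ε) := fun p =>
    sol_nu_adm' ht hg p.2
  let T : Z.X ε → Z.X ε := fun p =>
    ⟨BoundedContinuousFunction.ofNormedAddCommGroup (Z.sol (Z.nu g p.1)) (hmem p).cont ε
      (fun x => (hmem p).sup x), hmem p⟩
  have : CompleteSpace (Z.X ε) := (isClosed_X ε).completeSpace_coe
  have : Nonempty (Z.X ε) := ⟨⟨0, Adm_zero hε.le hL⟩⟩
  have hT : ContractingWith (1/2) T := by
    refine ⟨by
      rw [← NNReal.coe_lt_coe]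
      norm_num, ?_⟩
    apply LipschitzWith.of_dist_le_mul
    intro p q
    have hd : 0 ≤ dist p q := dist_nonneg
    have e : dist (T p) (T q) = dist (T p).1 (T q).1 := rfl
    rw [e, BoundedContinuousFunction.dist_le (by positivity)]
    intro x
    rw [Real.dist_eq]
    have h := sol_nu_sub (γ := 0) (d := dist p q) ht hg p.2 hg q.2 (fun y => by
      rw [← Real.dist_eq]
      exact BoundedContinuousFunction.dist_coe_le_dist y) (by
        simpa using BL_zero le_rfl) x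
    have e2 : (((1/2 : NNReal)) : ℝ) * dist p q = (dist p q + 0) / 2 := by
      push_cast; ring
    rw [e2]
    exact h
  have hfix := hT.fixedPoint_isFixedPt
  refine ⟨(hT.fixedPoint T).1, (hT.fixedPoint T).2, fun x => ?_⟩
  have h1 : (T (hT.fixedPoint T)).1 x = (hT.fixedPoint T).1 x := by
    rw [hfix.eq]
  exact h1

lemma sup_iter {f : ℝ → ℝ} {C γ : ℝ} (hb : ∀ x, |f x| ≤ C)
    (h : ∀ d, (∀ x, |f x| ≤ d) → ∀ x, |f x| ≤ (d + γ) / 2) (x : ℝ) : |f x| ≤ γ := by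
  have hbdd : BddAbove (range fun x => |f x|) := ⟨C, by rintro _ ⟨y, rfl⟩; exact hb y⟩
  have h1 : ∀ y, |f y| ≤ ⨆ x, |f x| := fun y => le_ciSup hbdd y
  have h2 : (⨆ x, |f x|) ≤ ((⨆ x, |f x|) + γ) / 2 := ciSup_le (h _ h1)
  have := h1 x
  linarith

/-- Lipschitz dependence of the fixed point on the forcing. -/
lemma fixed_sub {g g' p h h' q : ℝ → ℝ} {ε γ : ℝ} (ht : Z.Tiny ε) (hg : Force Z g g' ε)
    (hp : Adm p ε ((Z.KL + 1) * ε)) (hh : Force Z h h' ε) (hq : Adm q ε ((Z.KL + 1) * ε))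
    (hfp : ∀ x, Z.sol (Z.nu g p) x = p x) (hfq : ∀ x, Z.sol (Z.nu h q) x = q x)
    (hγ : BL (fun x => g x - h x) γ) (x : ℝ) : |p x - q x| ≤ γ := by
  apply sup_iter (f := fun x => p x - q x) (C := 2 * ε)
  · intro y
    have := hp.sup y
    have := hq.sup y
    refine (abs_sub _ _).trans ?_
    linarith
  · intro d hd y
    have := sol_nu_sub ht hg hp hh hq hd hγ y
    rw [hfp, hfq] at this
    exact this

/-- The fixed point has quadratic size. -/
lemma fixed_sup {g g' p : ℝ → ℝ} {ε : ℝ} (ht : Z.Tiny ε) (hg : Force Z g g' ε)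
    (hp : Adm p ε ((Z.KL + 1) * ε)) (hfp : ∀ x, Z.sol (Z.nu g p) x = p x) (x : ℝ) :
    |p x| ≤ Z.B2 * ε ^ 2 := by
  rw [← hfp]
  exact (sol_nu_adm ht hg hp).sup x

/-- At a fixed point with vanishing obstruction the equation holds. -/
lemma fixed_eq {g g' p : ℝ → ℝ} {ε : ℝ} (ht : Z.Tiny ε) (hg : Force Z g g' ε)
    (hp : Adm p ε ((Z.KL + 1) * ε)) (hfp : ∀ x, Z.sol (Z.nu g p) x = p x)
    (hl : cI (Z.nu g p) (Real.pi / 2) = 0) (x : ℝ) : Z.Pm g p x = p x := by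
  have hs := ht.small
  have hν := (nu_BL hg hp hs).continuous
  have hpr : Z.pr (Z.nu g p) = Z.nu g p := by
    funext y; unfold pr; rw [hl]; ring
  have hE : Di p x = osc (Z.pr (Z.nu g p)) (Real.pi / 2 - x) := by
    unfold Di
    rw [← sol_Ei hν (nu_out hg hp hs)]
    congr 1
    funext y; exact (hfp y).symm
  have h1 := hfp x
  unfold sol at h1
  rw [← hE, hpr] at h1
  have hc := Z.hk.trans_le (Z.kc x)
  rw [← div_eq_mul_inv, div_eq_iff hc.ne'] at h1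
  unfold nu at h1
  have h2 : Z.c x * Z.Pm g p x = Z.c x * p x := by linarith
  exact mul_left_cancel₀ hc.ne' h2

end Zone

end Pool.Agent.IB
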