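import Pool.Agent.IB.Fixpt

/-!
Second order expansion of the obstruction, and the choice of the parameter.
-/

namespace Pool.Agent.IB

open Set MeasureTheory

/-- Expansion of the cube of the radial function. -/
lemma cube_expand {w w' : ℝ → ℝ} {s : ℝ} (h : C11 w w' s) (hs : s ≤ 1/30) (x : ℝ) :
    |rad w x ^ 3 - (1 + 3 * w x + 3 * (w x) ^ 2 - 3/2 * (w' x) ^ 2)| ≤ 100 * s ^ 3 := by
  have hs0 := h.bl.nonneg
  have h1 := rad_expand h hs x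
  have h2 := rad_approx h.bl (by linarith) x
  have h3 := (rad_BL h.bl (by linarith)).1 x
  simp only at h3
  have hw := h.bl.1 x
  set r := rad w x - 1 with hr
  have e : rad w x ^ 3 - (1 + 3 * w x + 3 * (w x) ^ 2 - 3/2 * (w' x) ^ 2) =
      3 * (rad w x - (1 + w x - (w' x) ^ 2 / 2)) + 3 * ((r - w x) * (r + w x)) + r ^ 3 := by
    rw [hr]; ring
  rw [e]
  have c1 : |(r - w x) * (r + w x)| ≤ (4 * s * s) * (3 * s) := by
    rw [abs_mul]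
    apply mul_le_mul h2 _ (abs_nonneg _) (by positivity)
    refine (abs_add_le _ _).trans ?_
    linarith
  have c2 : |r ^ 3| ≤ 8 * s ^ 3 := by
    rw [abs_pow]
    have := pow_le_pow_left₀ (abs_nonneg r) h3 3
    linarith [this, (by ring : (2 * s) ^ 3 = 8 * s ^ 3)]
  have e3 : (4 * s * s) * (3 * s) = 12 * s ^ 3 := by ring
  rw [e3] at c1
  have hs3 : 0 ≤ s ^ 3 := by positivity
  have h1' := abs_le.1 h1
  have c1' := abs_le.1 c1
  have c2' := abs_le.1 c2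
  rw [abs_le]
  constructor <;> linarith

lemma deriv_le_of_BL {f f' : ℝ → ℝ} {M : ℝ} (h : BL f M) (hd : ∀ x, HasDerivAt f (f' x) x)
    (x : ℝ) : |f' x| ≤ M := by
  have hM := h.nonneg
  have hl : LipschitzWith (Real.toNNReal M) f := by
    apply LipschitzWith.of_dist_le_mul
    intro x y
    rw [Real.dist_eq, Real.dist_eq, Real.coe_toNNReal _ hM]
    exact h.2 x y
  have := (hd x).le_of_lipschitz hl
  rwa [Real.norm_eq_abs, Real.coe_toNNReal _ hM] at this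

namespace Zone

variable {Z : Zone}

/-- Constant in the expansion. -/
noncomputable def Q1 (Z : Zone) : ℝ := 8 * Z.I1 * (Z.KL + 1) + Z.K

/-- Size of `eta` at the fixed point. -/
noncomputable def Q2 (Z : Zone) : ℝ := 4 * Z.I0 * Z.B2

/-- Error constant. -/
noncomputable def Q3 (Z : Zone) : ℝ :=
  Z.K * (100 * Z.Q1 ^ 3 + 9 * Z.Q2 ^ 2) + 6 * Z.B2 * Z.Q2

lemma Q1_pos : 0 < Z.Q1 := by
  have := Z.I1_pos
  have := Z.KL_pos
  have := Z.K_pos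
  unfold Q1; positivity

lemma Q2_pos : 0 < Z.Q2 := by
  have := Z.I0_pos
  have := Z.B2_pos
  unfold Q2; positivity

lemma Q3_pos : 0 < Z.Q3 := by
  have := Z.Q1_pos
  have := Z.Q2_pos
  have := Z.B2_pos
  have := Z.K_pos
  unfold Q3; positivity

/-- Expansion of `nu` at the fixed point. -/
lemma nu_expand {g g' p : ℝ → ℝ} {ε : ℝ} (ht : Z.Tiny ε) (hg : Force Z g g' ε)
    (hp : Adm p ε ((Z.KL + 1) * ε)) (hfp : ∀ x, Z.sol (Z.nu g p) x = p x) (x : ℝ) :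
    |Z.nu g p x - Z.c x * (3 * (g x) ^ 2 - 3/2 * (g' x) ^ 2)| ≤ Z.Q3 * ε ^ 3 := by
  have hs := ht.small
  have hε := hs.pos
  have hK := Z.K_pos
  have hKL := Z.KL_pos
  have hI0 := Z.I0_pos
  have hB2 := Z.B2_pos
  have hQ1 := Z.Q1_pos
  have hQ2 := Z.Q2_pos
  have hsup := fixed_sup ht hg hp hfp
  have hp2 : Adm p (Z.B2 * ε ^ 2) ((Z.KL + 1) * ε) := ⟨hsup, hp.bl, hp.out, hp.obs⟩
  have hBε : Z.B2 * ε ^ 2 ≤ ε := by
    have := ht.hB2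
    nlinarith
  have hδ : Z.B2 * ε ^ 2 ≤ Z.k / 4 := hBε.trans hs.h1
  have heta : BL (Z.eta p) (Z.Q2 * ε ^ 2) :=
    (eta_BL hp2 hδ).mono (by unfold Q2; linarith)
  have hC := eta_C11 (Z := Z) hp hs.h1 hs.le hs.h2
  have heta' := deriv_le_of_BL heta hC.der
  have hS : 8 * Z.I1 * ((Z.KL + 1) * ε) + Z.K * ε = Z.Q1 * ε := by unfold Q1; ring
  have hQs : Z.Q1 * ε ≤ 1/30 := by rw [← hS]; exact hs.h4
  have w1 := wf_C11 hg hp hs
  have w2 := wf_C11 hg.neg hp hs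
  rw [hS] at w1 w2
  have e1 := abs_le.1 (cube_expand w1 hQs x)
  have e2 := abs_le.1 (cube_expand w2 hQs x)
  -- the mean
  have hη := heta.1 x
  have hη' := heta' x
  have hη2 : (Z.eta p x) ^ 2 ≤ Z.Q2 ^ 2 * ε ^ 3 := by
    have := pow_le_pow_left₀ (abs_nonneg _) hη 2
    rw [sq_abs] at this
    have e : (Z.Q2 * ε ^ 2) ^ 2 = Z.Q2 ^ 2 * ε ^ 3 * ε := by ring
    rw [e] at this
    have h0 : 0 ≤ Z.Q2 ^ 2 * ε ^ 3 := by positivity
    have := mul_le_mul_of_nonneg_left ht.le1 h0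
    linarith
  have hη2' : (eta' Z p x) ^ 2 ≤ Z.Q2 ^ 2 * ε ^ 3 := by
    have := pow_le_pow_left₀ (abs_nonneg _) hη' 2
    rw [sq_abs] at this
    have e : (Z.Q2 * ε ^ 2) ^ 2 = Z.Q2 ^ 2 * ε ^ 3 * ε := by ring
    rw [e] at this
    have h0 : 0 ≤ Z.Q2 ^ 2 * ε ^ 3 := by positivity
    have := mul_le_mul_of_nonneg_left ht.le1 h0
    linarith
  have hN : |Z.Pm g p x - 3 * Z.eta p x - (3 * (g x) ^ 2 - 3/2 * (g' x) ^ 2)| ≤
      (100 * Z.Q1 ^ 3 + 9 * Z.Q2 ^ 2) * ε ^ 3 := by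
    have e3 : (Z.Q1 * ε) ^ 3 = Z.Q1 ^ 3 * ε ^ 3 := by ring
    rw [e3] at e1 e2
    unfold wf at e1 e2
    have h0 := sq_nonneg (Z.eta p x)
    have h0' := sq_nonneg (eta' Z p x)
    unfold Pm wf
    rw [abs_le]
    constructor <;> nlinarith [e1.1, e1.2, e2.1, e2.2]
  rw [nu_eq hp hs.h1]
  have e : Z.c x * (Z.Pm g p x - 3 * Z.eta p x) - 3 * (Di p x * Z.eta p x) -
      Z.c x * (3 * (g x) ^ 2 - 3/2 * (g' x) ^ 2) =
      Z.c x * (Z.Pm g p x - 3 * Z.eta p x - (3 * (g x) ^ 2 - 3/2 * (g' x) ^ 2)) -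
      3 * (Di p x * Z.eta p x) := by ring
  rw [e]
  have h1 : |Z.c x * (Z.Pm g p x - 3 * Z.eta p x - (3 * (g x) ^ 2 - 3/2 * (g' x) ^ 2))| ≤
      Z.K * ((100 * Z.Q1 ^ 3 + 9 * Z.Q2 ^ 2) * ε ^ 3) := by
    rw [abs_mul]
    exact mul_le_mul (c_le x) hN (abs_nonneg _) hK.le
  have h2 : |3 * (Di p x * Z.eta p x)| ≤ 6 * Z.B2 * Z.Q2 * ε ^ 3 := by
    rw [abs_mul, abs_of_pos (by norm_num : (0:ℝ) < 3), abs_mul]
    have h3 : |Di p x| * |Z.eta p x| ≤ (2 * (Z.B2 * ε ^ 2)) * (Z.Q2 * ε ^ 2) :=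
      mul_le_mul (hp2.Di_BL.1 x) hη (abs_nonneg _) (by positivity)
    have e4 : (2 * (Z.B2 * ε ^ 2)) * (Z.Q2 * ε ^ 2) = 2 * Z.B2 * Z.Q2 * ε ^ 3 * ε := by ring
    have h0 : 0 ≤ 2 * Z.B2 * Z.Q2 * ε ^ 3 := by positivity
    have := mul_le_mul_of_nonneg_left ht.le1 h0
    linarith
  refine (abs_sub _ _).trans ((add_le_add h1 h2).trans ?_)
  unfold Q3
  apply le_of_eq; ring

/-- Expansion of the obstruction. -/
lemma lam_expand {G G' p : ℝ → ℝ} {ε : ℝ} (ht : Z.Tiny ε)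
    (hg : Force Z (fun x => ε * G x) (fun x => ε * G' x) ε)
    (hp : Adm p ε ((Z.KL + 1) * ε)) (hfp : ∀ x, Z.sol (Z.nu (fun x => ε * G x) p) x = p x)
    (hG : Continuous G) (hG' : Continuous G') :
    |cI (Z.nu (fun x => ε * G x) p) (Real.pi / 2) -
      ε ^ 2 * cI (fun x => Z.c x * (3 * (G x) ^ 2 - 3/2 * (G' x) ^ 2)) (Real.pi / 2)| ≤
      2 * (Z.Q3 * ε ^ 3) := by
  have hs := ht.small
  have hν := (nu_BL hg hp hs).continuous
  have hc := Z.hc.bl.continuous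
  have hf : Continuous fun x => ε ^ 2 * (Z.c x * (3 * (G x) ^ 2 - 3/2 * (G' x) ^ 2)) := by
    fun_prop
  rw [← cI_const_mul, ← cI_sub hν hf]
  apply cI_bound (fun x => ?_) (by positivity) le_rfl
  have := nu_expand ht hg hp hfp x
  have e : ε ^ 2 * (Z.c x * (3 * (G x) ^ 2 - 3/2 * (G' x) ^ 2)) =
      Z.c x * (3 * (ε * G x) ^ 2 - 3/2 * (ε * G' x) ^ 2) := by ring
  rw [e]
  exact this

/-- The interpolated bump. -/
def Gm (G H : ℝ → ℝ) (μ x : ℝ) : ℝ := (1 - μ) * G x + μ * H x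

lemma force_Gm {G G' H H' : ℝ → ℝ} {ε μ : ℝ} (hε : 0 ≤ ε) (hμ : μ ∈ Icc (0:ℝ) 1)
    (hG : Force Z G G' 1) (hH : Force Z H H' 1) :
    Force Z (fun x => ε * Gm G H μ x) (fun x => ε * Gm G' H' μ x) ε := by
  obtain ⟨h0, h1⟩ := hμ
  refine ⟨?_, fun x hx => ?_⟩
  · have h := ((hG.c11.const_mul (1 - μ)).add (hH.c11.const_mul μ)).const_mul ε
    refine h.mono ?_
    rw [abs_of_nonneg hε, abs_of_nonneg h0, abs_of_nonneg (by linarith : 0 ≤ 1 - μ)]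
    apply le_of_eq; ring
  · show ε * Gm G H μ x = 0
    unfold Gm
    rw [hG.out x hx, hH.out x hx]; ring

lemma Gm_diff {G G' H H' : ℝ → ℝ} {ε μ μ' : ℝ} (hε : 0 ≤ ε)
    (hG : Force Z G G' 1) (hH : Force Z H H' 1) :
    BL (fun x => ε * Gm G H μ x - ε * Gm G H μ' x) (ε * |μ - μ'| * (2 * Z.K)) := by
  have h := (hH.c11.bl.sub hG.c11.bl).const_mul (ε * (μ - μ'))
  have e : (fun x => ε * Gm G H μ x - ε * Gm G H μ' x) =
      fun x => ε * (μ - μ') * (H x - G x) := by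
    funext x; unfold Gm; ring
  rw [e]
  refine h.mono ?_
  rw [abs_mul, abs_of_nonneg hε]
  apply le_of_eq; ring

/-- The bump data. -/
structure Bumps (Z : Zone) where
  G : ℝ → ℝ
  G' : ℝ → ℝ
  H : ℝ → ℝ
  H' : ℝ → ℝ
  hG : Force Z G G' 1
  hH : Force Z H H' 1
  JG : cI (fun x => Z.c x * (3 * (G x) ^ 2 - 3/2 * (G' x) ^ 2)) (Real.pi / 2) < 0
  JH : 0 < cI (fun x => Z.c x * (3 * (H x) ^ 2 - 3/2 * (H' x) ^ 2)) (Real.pi / 2)
  ne : ∀ μ, ∃ x, Gm G H μ x ≠ 0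

/-- Main existence theorem for the one dimensional problem. -/
theorem exists_solution (W : Z.Bumps) (s₀ : ℝ) (hs₀ : 0 < s₀) :
    ∃ (g g' p : ℝ → ℝ) (ε : ℝ), Z.Tiny ε ∧ Z.Q1 * ε ≤ s₀ ∧ Force Z g g' ε ∧
      Adm p ε ((Z.KL + 1) * ε) ∧ (∀ x, Z.Pm g p x = p x) ∧ ∃ x, g x ≠ 0 := by
  obtain ⟨ε₀, hε₀, htiny⟩ := Z.exists_tiny
  have hQ1 := Z.Q1_pos
  have hQ3 := Z.Q3_pos
  set JG := cI (fun x => Z.c x * (3 * (W.G x) ^ 2 - 3/2 * (W.G' x) ^ 2)) (Real.pi / 2) with hJG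
  set JH := cI (fun x => Z.c x * (3 * (W.H x) ^ 2 - 3/2 * (W.H' x) ^ 2)) (Real.pi / 2) with hJH
  have hJG0 : JG < 0 := W.JG
  have hJH0 : 0 < JH := W.JH
  obtain ⟨ε, hε, hle0, hleG, hleH, hle1⟩ : ∃ ε > 0, ε ≤ ε₀ ∧ 2 * Z.Q3 * ε < -JG ∧
      2 * Z.Q3 * ε < JH ∧ Z.Q1 * ε ≤ s₀ := by
    refine ⟨min (min ε₀ (-JG / (4 * Z.Q3))) (min (JH / (4 * Z.Q3)) (s₀ / Z.Q1)), ?_, ?_, ?_, ?_, ?_⟩
    · have : 0 < -JG := by linarith
      positivity
    · exact (min_le_left _ _).trans (min_le_left _ _)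
    · have h1 : min (min ε₀ (-JG / (4 * Z.Q3))) (min (JH / (4 * Z.Q3)) (s₀ / Z.Q1)) ≤
        -JG / (4 * Z.Q3) := (min_le_left _ _).trans (min_le_right _ _)
      rw [le_div_iff₀ (by positivity)] at h1
      linarith
    · have h1 : min (min ε₀ (-JG / (4 * Z.Q3))) (min (JH / (4 * Z.Q3)) (s₀ / Z.Q1)) ≤
        JH / (4 * Z.Q3) := (min_le_right _ _).trans (min_le_left _ _)
      rw [le_div_iff₀ (by positivity)] at h1
      linarith
    · have h1 : min (min ε₀ (-JG / (4 * Z.Q3))) (min (JH / (4 * Z.Q3)) (s₀ / Z.Q1)) ≤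
        s₀ / Z.Q1 := (min_le_right _ _).trans (min_le_right _ _)
      rw [le_div_iff₀ hQ1] at h1
      linarith
  have ht := htiny ε hε hle0
  have hs := ht.small
  have hF : ∀ μ ∈ Icc (0:ℝ) 1, Force Z (fun x => ε * Gm W.G W.H μ x)
      (fun x => ε * Gm W.G' W.H' μ x) ε := fun μ hμ => force_Gm hε.le hμ W.hG W.hH
  have hex : ∀ μ : ℝ, ∃ p : ℝ → ℝ, μ ∈ Icc (0:ℝ) 1 → Adm p ε ((Z.KL + 1) * ε) ∧
      ∀ x, Z.sol (Z.nu (fun x => ε * Gm W.G W.H μ x) p) x = p x := by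
    intro μ
    by_cases hμ : μ ∈ Icc (0:ℝ) 1
    · obtain ⟨p, hp⟩ := exists_fixed ht (hF μ hμ)
      exact ⟨p, fun _ => hp⟩
    · exact ⟨fun _ => 0, fun h => absurd h hμ⟩
  choose p hp using hex
  set lam : ℝ → ℝ := fun μ => cI (Z.nu (fun x => ε * Gm W.G W.H μ x) (p μ)) (Real.pi / 2)
    with hlam
  have hcont : ContinuousOn lam (Icc 0 1) := by
    have hlip : LipschitzOnWith (Real.toNNReal (2 * (Z.Cd * ε * (2 * (ε * (2 * Z.K)))))) lam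
        (Icc 0 1) := by
      apply LipschitzOnWith.of_dist_le_mul
      intro μ hμ μ' hμ'
      have hK := Z.K_pos
      have hCd := Z.Cd_pos
      rw [Real.coe_toNNReal _ (by positivity), Real.dist_eq, Real.dist_eq, hlam]
      show |cI (Z.nu (fun x => ε * Gm W.G W.H μ x) (p μ)) (Real.pi / 2) -
        cI (Z.nu (fun x => ε * Gm W.G W.H μ' x) (p μ')) (Real.pi / 2)| ≤ _
      obtain ⟨h1, h2⟩ := hp μ hμ
      obtain ⟨h1', h2'⟩ := hp μ' hμ'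
      have hγ := Gm_diff (μ := μ) (μ' := μ') hε.le W.hG W.hH
      have hd := fixed_sub ht (hF μ hμ) h1 (hF μ' hμ') h1' h2 h2' hγ
      have hn := nu_sub (hF μ hμ) h1 (hF μ' hμ') h1' hs hd hγ
      rw [← cI_sub (nu_BL (hF μ hμ) h1 hs).continuous (nu_BL (hF μ' hμ') h1' hs).continuous]
      have := cI_bound hn (x := Real.pi / 2) (by positivity) le_rfl
      refine this.trans ?_
      apply le_of_eq; ring
    exact hlip.continuousOn
  have h0m : (0:ℝ) ∈ Icc (0:ℝ) 1 := ⟨le_rfl, zero_le_one⟩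
  have h1m : (1:ℝ) ∈ Icc (0:ℝ) 1 := ⟨zero_le_one, le_rfl⟩
  have hG0 : Gm W.G W.H 0 = W.G := by funext x; unfold Gm; ring
  have hG0' : Gm W.G' W.H' 0 = W.G' := by funext x; unfold Gm; ring
  have hG1 : Gm W.G W.H 1 = W.H := by funext x; unfold Gm; ring
  have hG1' : Gm W.G' W.H' 1 = W.H' := by funext x; unfold Gm; ring
  have hneg : lam 0 < 0 := by
    have h := lam_expand ht (hF 0 h0m) (hp 0 h0m).1 (hp 0 h0m).2
      (by rw [hG0]; exact W.hG.c11.bl.continuous) (by rw [hG0']; exact W.hG.c11.bl'.continuous)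
    rw [hG0'] at h
    simp only [hG0] at h
    rw [← hJG] at h
    have h1 := (abs_le.1 h).2
    have h2 : lam 0 - ε ^ 2 * JG ≤ 2 * (Z.Q3 * ε ^ 3) := by
      rw [hlam]
      simp only [hG0]
      exact h1
    have h3 : 2 * (Z.Q3 * ε ^ 3) = ε ^ 2 * (2 * Z.Q3 * ε) := by ring
    have h4 : ε ^ 2 * (2 * Z.Q3 * ε) < ε ^ 2 * (-JG) :=
      mul_lt_mul_of_pos_left hleG (by positivity)
    linarith
  have hpos : 0 < lam 1 := by
    have h := lam_expand ht (hF 1 h1m) (hp 1 h1m).1 (hp 1 h1m).2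
      (by rw [hG1]; exact W.hH.c11.bl.continuous) (by rw [hG1']; exact W.hH.c11.bl'.continuous)
    rw [hG1'] at h
    simp only [hG1] at h
    rw [← hJH] at h
    have h1 := (abs_le.1 h).1
    have h2 : -(2 * (Z.Q3 * ε ^ 3)) ≤ lam 1 - ε ^ 2 * JH := by
      rw [hlam]
      simp only [hG1]
      exact h1
    have h3 : 2 * (Z.Q3 * ε ^ 3) = ε ^ 2 * (2 * Z.Q3 * ε) := by ring
    have h4 : ε ^ 2 * (2 * Z.Q3 * ε) < ε ^ 2 * JH :=
      mul_lt_mul_of_pos_left hleH (by positivity)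
    linarith
  obtain ⟨μ, hμ, hμ0⟩ := intermediate_value_Icc zero_le_one hcont ⟨hneg.le, hpos.le⟩
  refine ⟨fun x => ε * Gm W.G W.H μ x, fun x => ε * Gm W.G' W.H' μ x, p μ, ε, ht, hle1, hF μ hμ,
    (hp μ hμ).1, fun x => fixed_eq ht (hF μ hμ) (hp μ hμ).1 (hp μ hμ).2 hμ0 x, ?_⟩
  obtain ⟨x, hx⟩ := W.ne μ
  exact ⟨x, mul_ne_zero hε.ne' hx⟩

end Zone

end Pool.Agent.IB
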