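import Pool.Agent.IB.SolOp

/-!
The nonlinear map of the fixed point scheme.
-/

namespace Pool.Agent.IB

open Set MeasureTheory

/-! ### Cubes -/

lemma cube_approx {w : ℝ → ℝ} {s : ℝ} (hw : BL w s) (hs : s ≤ 1/10) (x : ℝ) :
    |rad w x ^ 3 - 1 - 3 * w x| ≤ 25 * s ^ 2 := by
  have hs0 := hw.nonneg
  have h1 := abs_le.1 (rad_approx hw hs x)
  have h2 := (rad_BL hw hs).1 x
  simp only at h2
  set r := rad w x - 1 with hr
  have e : rad w x ^ 3 - 1 - 3 * w x = 3 * (rad w x - 1 - w x) + 3 * r ^ 2 + r ^ 3 := by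
    rw [hr]; ring
  have h3 : r ^ 2 ≤ 4 * s ^ 2 := by
    have := pow_le_pow_left₀ (abs_nonneg r) h2 2
    rw [sq_abs] at this
    linarith
  have h4 : |r ^ 3| ≤ 8/10 * s ^ 2 := by
    rw [abs_pow]
    have := pow_le_pow_left₀ (abs_nonneg r) h2 3
    have e2 : (2 * s) ^ 3 = 8 * s ^ 2 * s := by ring
    have : 8 * s ^ 2 * s ≤ 8 * s ^ 2 * (1/10) := mul_le_mul_of_nonneg_left hs (by positivity)
    linarith
  have h5 := abs_le.1 h4
  have h6 := sq_nonneg r
  rw [e, abs_le]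
  constructor <;> nlinarith

lemma cube_BL {w : ℝ → ℝ} {s : ℝ} (hw : BL w s) (hs : s ≤ 1/10) :
    BL (fun x => rad w x ^ 3 - 1) (9 * s) := by
  have hs0 := hw.nonneg
  have hb := rad_BL hw hs
  have hr : ∀ x, 0 ≤ rad w x ∧ rad w x ≤ 6/5 := fun x => by
    have h := abs_le.1 (hb.1 x)
    simp only at h
    constructor <;> linarith
  refine ⟨fun x => ?_, fun x y => ?_⟩
  · have e : rad w x ^ 3 - 1 = (rad w x - 1) * (rad w x ^ 2 + rad w x + 1) := by ring
    show |rad w x ^ 3 - 1| ≤ 9 * s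
    rw [e, abs_mul]
    obtain ⟨h0, h1⟩ := hr x
    have h2 : rad w x ^ 2 + rad w x + 1 ≤ 4 := by nlinarith
    have h3 : 0 ≤ rad w x ^ 2 + rad w x + 1 := by positivity
    calc |rad w x - 1| * |rad w x ^ 2 + rad w x + 1| ≤ (2 * s) * 4 := by
          apply mul_le_mul (hb.1 x) _ (abs_nonneg _) (by positivity)
          rwa [abs_of_nonneg h3]
      _ ≤ 9 * s := by linarith
  · have e : rad w x ^ 3 - 1 - (rad w y ^ 3 - 1) =
        ((rad w x - 1) - (rad w y - 1)) * (rad w x ^ 2 + rad w x * rad w y + rad w y ^ 2) := by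
      ring
    show |rad w x ^ 3 - 1 - (rad w y ^ 3 - 1)| ≤ 9 * s * |x - y|
    rw [e, abs_mul]
    obtain ⟨h0, h1⟩ := hr x
    obtain ⟨h0', h1'⟩ := hr y
    have h2 : rad w x ^ 2 + rad w x * rad w y + rad w y ^ 2 ≤ 9/2 := by nlinarith
    have h3 : 0 ≤ rad w x ^ 2 + rad w x * rad w y + rad w y ^ 2 := by positivity
    calc |rad w x - 1 - (rad w y - 1)| * |rad w x ^ 2 + rad w x * rad w y + rad w y ^ 2|
        ≤ (2 * s * |x - y|) * (9/2) := by
          apply mul_le_mul (hb.2 x y) _ (abs_nonneg _) (by positivity)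
          rwa [abs_of_nonneg h3]
      _ = 9 * s * |x - y| := by ring

lemma cube_sub {w v : ℝ → ℝ} {s m : ℝ} (hw : BL w s) (hv : BL v s) (hs : s ≤ 1/10)
    (hd : BL (fun x => w x - v x) m) (x : ℝ) :
    |rad w x ^ 3 - rad v x ^ 3 - 3 * (w x - v x)| ≤ 31 * s * m := by
  have hs0 := hw.nonneg
  have hm0 := hd.nonneg
  have h1 := rad_sub hw hv hs hd x
  have h2 := hd.1 x
  have h3 := (rad_BL hw hs).1 x
  have h4 := (rad_BL hv hs).1 x
  simp only at h2 h3 h4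
  set a := rad w x - 1 with ha
  set b := rad v x - 1 with hb
  have hsm : 0 ≤ s * m := mul_nonneg hs0 hm0
  have e : rad w x ^ 3 - rad v x ^ 3 - 3 * (w x - v x) =
      (rad w x - rad v x) * (3 * a + 3 * b + a ^ 2 + a * b + b ^ 2) +
      3 * (rad w x - rad v x - (w x - v x)) := by
    rw [ha, hb]; ring
  rw [e]
  have h5 : |rad w x - rad v x| ≤ 7/5 * m := by
    have e2 : rad w x - rad v x = (rad w x - rad v x - (w x - v x)) + (w x - v x) := by ring
    rw [e2]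
    refine (abs_add_le _ _).trans ?_
    have : 4 * s * m ≤ 2/5 * m := mul_le_mul_of_nonneg_right (by linarith) hm0
    linarith
  have ha2 := abs_le.1 h3
  have hb2 := abs_le.1 h4
  have h6 : |3 * a + 3 * b + a ^ 2 + a * b + b ^ 2| ≤ 66/5 * s := by
    have c1 : |a ^ 2| ≤ 2/5 * s := by
      rw [sq, abs_mul]
      have : |a| * |a| ≤ (2 * s) * (1/5) := mul_le_mul h3 (by linarith) (abs_nonneg _) (by positivity)
      linarith
    have c2 : |b ^ 2| ≤ 2/5 * s := by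
      rw [sq, abs_mul]
      have : |b| * |b| ≤ (2 * s) * (1/5) := mul_le_mul h4 (by linarith) (abs_nonneg _) (by positivity)
      linarith
    have c3 : |a * b| ≤ 2/5 * s := by
      rw [abs_mul]
      have : |a| * |b| ≤ (2 * s) * (1/5) := mul_le_mul h3 (by linarith) (abs_nonneg _) (by positivity)
      linarith
    have c1' := abs_le.1 c1
    have c2' := abs_le.1 c2
    have c3' := abs_le.1 c3
    rw [abs_le]
    constructor <;> linarith
  calc |(rad w x - rad v x) * (3 * a + 3 * b + a ^ 2 + a * b + b ^ 2) +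
      3 * (rad w x - rad v x - (w x - v x))|
      ≤ |rad w x - rad v x| * |3 * a + 3 * b + a ^ 2 + a * b + b ^ 2| +
        3 * |rad w x - rad v x - (w x - v x)| := by
          refine (abs_add_le _ _).trans ?_
          rw [abs_mul, abs_mul, abs_of_pos (by norm_num : (0:ℝ) < 3)]
    _ ≤ (7/5 * m) * (66/5 * s) + 3 * (4 * s * m) := by
          gcongr
    _ ≤ 31 * s * m := by nlinarith

/-! ### Vanishing outside the zone -/

lemma deriv_zero_left {w : ℝ → ℝ} {w' a : ℝ} (h : HasDerivAt w w' a)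
    (h0 : ∀ x, x ≤ a → w x = 0) : w' = 0 := by
  have h1 : HasDerivWithinAt w w' (Iic a) a := h.hasDerivWithinAt
  have h2 : HasDerivWithinAt w 0 (Iic a) a :=
    (hasDerivWithinAt_const a (Iic a) (0:ℝ)).congr (fun x hx => h0 x hx) (h0 a le_rfl)
  exact (uniqueDiffWithinAt_Iic a).eq_deriv _ h1 h2

lemma deriv_zero_right {w : ℝ → ℝ} {w' a : ℝ} (h : HasDerivAt w w' a)
    (h0 : ∀ x, a ≤ x → w x = 0) : w' = 0 := by
  have h1 : HasDerivWithinAt w w' (Ici a) a := h.hasDerivWithinAt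
  have h2 : HasDerivWithinAt w 0 (Ici a) a :=
    (hasDerivWithinAt_const a (Ici a) (0:ℝ)).congr (fun x hx => h0 x hx) (h0 a le_rfl)
  exact (uniqueDiffWithinAt_Ici a).eq_deriv _ h1 h2

lemma out_quad {w w' : ℝ → ℝ} {S : ℝ} (h : C11 w w' S) (hout : ∀ x, OutZ x → w x = 0)
    {x : ℝ} (hx : OutZ x) (t : ℝ) : |w (x + t)| ≤ S * t ^ 2 := by
  have hS := h.bl.nonneg
  by_cases hxt : OutZ (x + t)
  · rw [hout _ hxt, abs_zero]; positivity
  · have hxt' := hxt
    unfold OutZ at hxt'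
    push Not at hxt'
    rcases hx with hx | hx
    · have h1 := h.second (1/10) (x + t - 1/10)
      rw [hout (1/10) (Or.inl le_rfl), deriv_zero_left (h.der (1/10)) (fun y hy => hout y (Or.inl hy))]
        at h1
      have e : 1/10 + (x + t - 1/10) = x + t := by ring
      rw [e] at h1
      simp only [sub_zero, zero_mul] at h1
      refine h1.trans (mul_le_mul_of_nonneg_left ?_ hS)
      apply pow_le_pow_left₀ (by linarith)
      linarith
    · have h1 := h.second (Real.pi / 2 - 1/10) (x + t - (Real.pi / 2 - 1/10))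
      rw [hout (Real.pi / 2 - 1/10) (Or.inr le_rfl),
        deriv_zero_right (h.der (Real.pi / 2 - 1/10)) (fun y hy => hout y (Or.inr hy))] at h1
      have e : Real.pi / 2 - 1/10 + (x + t - (Real.pi / 2 - 1/10)) = x + t := by ring
      rw [e] at h1
      simp only [sub_zero, zero_mul] at h1
      refine h1.trans (mul_le_mul_of_nonneg_left ?_ hS)
      rw [← sq_abs, ← sq_abs t]
      apply pow_le_pow_left₀ (abs_nonneg _)
      rw [abs_of_neg (by linarith), abs_of_neg (by linarith)]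
      linarith

lemma rad_out {w w' : ℝ → ℝ} {S : ℝ} (h : C11 w w' S) (hS : S ≤ 1/30)
    (hout : ∀ x, OutZ x → w x = 0) {x : ℝ} (hx : OutZ x) : rad w x = 1 := by
  apply rad_eq_one h.bl.continuous (hout x hx)
  intro t _
  have h1 := (abs_le.1 (out_quad h hout hx t)).1
  have h2 : S * t ^ 2 ≤ 11/25 * t ^ 2 := mul_le_mul_of_nonneg_right (by linarith) (sq_nonneg t)
  linarith

/-! ### The map -/

/-- Admissible forcing. -/
structure Force (Z : Zone) (g g' : ℝ → ℝ) (ε : ℝ) : Prop where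
  c11 : C11 g g' (Z.K * ε)
  out : ∀ x, OutZ x → g x = 0

lemma Force.neg {Z : Zone} {g g' : ℝ → ℝ} {ε : ℝ} (h : Force Z g g' ε) :
    Force Z (fun x => - g x) (fun x => - g' x) ε :=
  ⟨h.c11.neg, fun x hx => by rw [h.out x hx, neg_zero]⟩

namespace Zone

variable (Z : Zone)

/-- One sided perturbation. -/
noncomputable def wf (g p : ℝ → ℝ) (x : ℝ) : ℝ := Z.eta p x + g x

/-- `P - 1`. -/
noncomputable def Pm (g p : ℝ → ℝ) (x : ℝ) : ℝ :=
  ((rad (Z.wf g p) x ^ 3 - 1) + (rad (Z.wf (fun x => - g x) p) x ^ 3 - 1)) / 2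

/-- The right hand side. -/
noncomputable def nu (g p : ℝ → ℝ) (x : ℝ) : ℝ := Z.c x * Z.Pm g p x + 3 * Di p x

/-- The main constant. -/
noncomputable def A : ℝ := 4 * Z.I0 + Z.K

/-- Smallness. -/
structure Small (ε L : ℝ) : Prop where
  pos : 0 < ε
  le : ε ≤ L
  h1 : ε ≤ Z.k / 4
  h2 : L ≤ 1 / 2
  h3 : Z.A * ε ≤ 1 / 10
  h4 : 8 * Z.I1 * L + Z.K * ε ≤ 1 / 30

variable {Z}

lemma A_pos : 0 < Z.A := by
  have := Z.I0_pos
  have := Z.K_pos
  unfold A; positivity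

lemma wf_BL {g g' p : ℝ → ℝ} {ε L : ℝ} (hf : Force Z g g' ε) (hp : Adm p ε L)
    (hs : Z.Small ε L) : BL (Z.wf g p) (Z.A * ε) :=
  ((eta_BL hp hs.h1).add hf.c11.bl).mono (by unfold A; linarith)

lemma wf_C11 {g g' p : ℝ → ℝ} {ε L : ℝ} (hf : Force Z g g' ε) (hp : Adm p ε L)
    (hs : Z.Small ε L) : C11 (Z.wf g p) (fun x => eta' Z p x + g' x)
      (8 * Z.I1 * L + Z.K * ε) :=
  (eta_C11 hp hs.h1 hs.le hs.h2).add hf.c11

lemma wf_out {g g' p : ℝ → ℝ} {ε L : ℝ} (hf : Force Z g g' ε) (hp : Adm p ε L) (x : ℝ)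
    (hx : OutZ x) : Z.wf g p x = 0 := by
  unfold wf
  rw [eta_out hp x hx, hf.out x hx, add_zero]

lemma Pm_out {g g' p : ℝ → ℝ} {ε L : ℝ} (hf : Force Z g g' ε) (hp : Adm p ε L)
    (hs : Z.Small ε L) (x : ℝ) (hx : OutZ x) : Z.Pm g p x = 0 := by
  unfold Pm
  rw [rad_out (wf_C11 hf hp hs) hs.h4 (wf_out hf hp) hx,
    rad_out (wf_C11 hf.neg hp hs) hs.h4 (wf_out hf.neg hp) hx]
  norm_num

lemma Pm_approx {g g' p : ℝ → ℝ} {ε L : ℝ} (hf : Force Z g g' ε) (hp : Adm p ε L)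
    (hs : Z.Small ε L) (x : ℝ) : |Z.Pm g p x - 3 * Z.eta p x| ≤ 25 * (Z.A * ε) ^ 2 := by
  have h1 := cube_approx (wf_BL hf hp hs) hs.h3 x
  have h2 := cube_approx (wf_BL hf.neg hp hs) hs.h3 x
  have h1' := abs_le.1 h1
  have h2' := abs_le.1 h2
  unfold Pm
  unfold wf at *
  rw [abs_le]
  constructor <;> linarith [h1'.1, h1'.2, h2'.1, h2'.2]

lemma Pm_BL {g g' p : ℝ → ℝ} {ε L : ℝ} (hf : Force Z g g' ε) (hp : Adm p ε L)
    (hs : Z.Small ε L) : BL (Z.Pm g p) (9 * (Z.A * ε)) := by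
  have h1 := cube_BL (wf_BL hf hp hs) hs.h3
  have h2 := cube_BL (wf_BL hf.neg hp hs) hs.h3
  have h := (h1.add h2).const_mul (1/2)
  have e : Z.Pm g p = fun x => 1/2 * ((rad (Z.wf g p) x ^ 3 - 1) +
    (rad (Z.wf (fun x => - g x) p) x ^ 3 - 1)) := by
    funext x; unfold Pm; ring
  rw [e]
  refine h.mono ?_
  rw [abs_of_pos (by norm_num)]
  linarith

lemma nu_out {g g' p : ℝ → ℝ} {ε L : ℝ} (hf : Force Z g g' ε) (hp : Adm p ε L)
    (hs : Z.Small ε L) (x : ℝ) (hx : OutZ x) : Z.nu g p x = 0 := by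
  unfold nu
  rw [Pm_out hf hp hs x hx, hp.Di_out x hx]; ring

lemma nu_BL {g g' p : ℝ → ℝ} {ε L : ℝ} (hf : Force Z g g' ε) (hp : Adm p ε L)
    (hs : Z.Small ε L) : BL (Z.nu g p) ((18 * Z.K * Z.A + 6) * ε) := by
  have h := (Z.hc.bl.mul (Pm_BL hf hp hs)).add (hp.Di_BL.const_mul 3)
  refine h.mono ?_
  rw [abs_of_pos (by norm_num : (0:ℝ) < 3)]
  apply le_of_eq; ring

lemma c_le (x : ℝ) : |Z.c x| ≤ Z.K := Z.hc.bl.1 x

lemma nu_eq {g p : ℝ → ℝ} {δ L : ℝ} (hp : Adm p δ L) (hδ : δ ≤ Z.k / 4) (x : ℝ) :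
    Z.nu g p x = Z.c x * (Z.Pm g p x - 3 * Z.eta p x) - 3 * (Di p x * Z.eta p x) := by
  have := eta_eq (Z := Z) hp hδ x
  unfold nu
  linarith

lemma nu_bound {g g' p : ℝ → ℝ} {ε L : ℝ} (hf : Force Z g g' ε) (hp : Adm p ε L)
    (hs : Z.Small ε L) (x : ℝ) :
    |Z.nu g p x| ≤ (25 * Z.K * Z.A ^ 2 + 24 * Z.I0) * ε ^ 2 := by
  rw [nu_eq hp hs.h1]
  have hK := Z.K_pos
  have hI := Z.I0_pos
  have hε := hs.pos
  have h1 : |Z.c x * (Z.Pm g p x - 3 * Z.eta p x)| ≤ Z.K * (25 * (Z.A * ε) ^ 2) := by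
    rw [abs_mul]
    exact mul_le_mul (c_le x) (Pm_approx hf hp hs x) (abs_nonneg _) hK.le
  have h2 : |3 * (Di p x * Z.eta p x)| ≤ 3 * ((2 * ε) * (4 * Z.I0 * ε)) := by
    rw [abs_mul, abs_of_pos (by norm_num : (0:ℝ) < 3), abs_mul]
    apply mul_le_mul_of_nonneg_left _ (by norm_num)
    exact mul_le_mul (hp.Di_BL.1 x) ((eta_BL hp hs.h1).1 x) (abs_nonneg _) (by positivity)
  refine (abs_sub _ _).trans ?_
  nlinarith

/-- Constant for the differences. -/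
noncomputable def Cd (Z : Zone) : ℝ :=
  31 * Z.K * Z.A * (16 * Z.K * Z.I0 * Z.I0 + 1) + 3 * (32 * Z.K * Z.I0 * Z.I0 + 8 * Z.I0)

lemma Cd_pos : 0 < Z.Cd := by
  have := Z.I0_pos
  have := Z.K_pos
  have := Z.A_pos
  unfold Cd; positivity

lemma nu_sub {g g' p h h' q : ℝ → ℝ} {ε L d γ : ℝ} (hg : Force Z g g' ε) (hp : Adm p ε L)
    (hh : Force Z h h' ε) (hq : Adm q ε L) (hs : Z.Small ε L)
    (hd : ∀ x, |p x - q x| ≤ d) (hγ : BL (fun x => g x - h x) γ) (x : ℝ) :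
    |Z.nu g p x - Z.nu h q x| ≤ Z.Cd * ε * (d + γ) := by
  have hK := Z.K_pos
  have hI := Z.I0_pos
  have hA := Z.A_pos
  have hε := hs.pos
  have hd0 : 0 ≤ d := (abs_nonneg _).trans (hd 0)
  have hγ0 : 0 ≤ γ := hγ.nonneg
  have he := eta_sub_BL (Z := Z) hp hq hs.h1 hd
  set T := 16 * Z.K * Z.I0 * Z.I0 with hT
  have hT0 : 0 < T := by positivity
  have m1 : BL (fun x => Z.wf g p x - Z.wf h q x) (T * d + γ) := by
    have h1 := he.add hγ
    have e : (fun x => Z.wf g p x - Z.wf h q x) =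
      fun x => (Z.eta p x - Z.eta q x) + (g x - h x) := by
      funext x; unfold wf; ring
    rwa [e]
  have m2 : BL (fun x => Z.wf (fun x => - g x) p x - Z.wf (fun x => - h x) q x) (T * d + γ) := by
    have h1 := he.add hγ.neg
    have e : (fun x => Z.wf (fun x => - g x) p x - Z.wf (fun x => - h x) q x) =
      fun x => (Z.eta p x - Z.eta q x) + -(g x - h x) := by
      funext x; unfold wf; ring
    rwa [e]
  have c1 := abs_le.1 (cube_sub (wf_BL hg hp hs) (wf_BL hh hq hs) hs.h3 m1 x)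
  have c2 := abs_le.1 (cube_sub (wf_BL hg.neg hp hs) (wf_BL hh.neg hq hs) hs.h3 m2 x)
  have hN : |(Z.Pm g p x - 3 * Z.eta p x) - (Z.Pm h q x - 3 * Z.eta q x)| ≤
      31 * (Z.A * ε) * (T * d + γ) := by
    unfold Pm
    unfold wf at *
    rw [abs_le]
    constructor <;> linarith [c1.1, c1.2, c2.1, c2.2]
  rw [nu_eq hp hs.h1, nu_eq hq hs.h1]
  have e : Z.c x * (Z.Pm g p x - 3 * Z.eta p x) - 3 * (Di p x * Z.eta p x) -
      (Z.c x * (Z.Pm h q x - 3 * Z.eta q x) - 3 * (Di q x * Z.eta q x)) =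
      Z.c x * ((Z.Pm g p x - 3 * Z.eta p x) - (Z.Pm h q x - 3 * Z.eta q x)) -
      3 * (Di p x * (Z.eta p x - Z.eta q x) + Z.eta q x * (Di p x - Di q x)) := by ring
  rw [e]
  have h1 : |Z.c x * ((Z.Pm g p x - 3 * Z.eta p x) - (Z.Pm h q x - 3 * Z.eta q x))| ≤
      Z.K * (31 * (Z.A * ε) * (T * d + γ)) := by
    rw [abs_mul]
    exact mul_le_mul (c_le x) hN (abs_nonneg _) hK.le
  have h2 : |3 * (Di p x * (Z.eta p x - Z.eta q x) + Z.eta q x * (Di p x - Di q x))| ≤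
      3 * ((2 * ε) * (T * d) + (4 * Z.I0 * ε) * (2 * d)) := by
    rw [abs_mul, abs_of_pos (by norm_num : (0:ℝ) < 3)]
    apply mul_le_mul_of_nonneg_left _ (by norm_num)
    refine (abs_add_le _ _).trans (add_le_add ?_ ?_)
    · rw [abs_mul]
      exact mul_le_mul (hp.Di_BL.1 x) (he.1 x) (abs_nonneg _) (by positivity)
    · rw [abs_mul]
      exact mul_le_mul ((eta_BL hq hs.h1).1 x) ((Di_sub_BL hp hq hd).1 x) (abs_nonneg _)
        (by positivity)
  refine (abs_sub _ _).trans ((add_le_add h1 h2).trans ?_)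
  have e3 : Z.Cd * ε * (d + γ) = Z.K * (31 * (Z.A * ε) * (T * d + γ)) +
      3 * ((2 * ε) * (T * d) + (4 * Z.I0 * ε) * (2 * d)) +
      (31 * Z.K * Z.A * ε * d + 31 * Z.K * Z.A * T * ε * γ +
        3 * (2 * T + 8 * Z.I0) * ε * γ) := by
    unfold Cd
    rw [hT]
    ring
  rw [e3]
  have : 0 ≤ 31 * Z.K * Z.A * ε * d + 31 * Z.K * Z.A * T * ε * γ +
        3 * (2 * T + 8 * Z.I0) * ε * γ := by positivity
  linarith

end Zone

end Pool.Agent.IB
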