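import Pool.Agent.IB.RadSmooth

/-!
Explicit inversion of `E' (x) + 3 E (π/2 - x) = ν x`.
-/

namespace Pool.Agent.IB

open Set MeasureTheory intervalIntegral

/-- `∫_0^x cos (3 t) ν t`. -/
noncomputable def cI (ν : ℝ → ℝ) (x : ℝ) : ℝ := ∫ t in (0:ℝ)..x, Real.cos (3 * t) * ν t

/-- `∫_0^x sin (3 t) ν t`. -/
noncomputable def sI (ν : ℝ → ℝ) (x : ℝ) : ℝ := ∫ t in (0:ℝ)..x, Real.sin (3 * t) * ν t

/-- The solution operator. -/
noncomputable def osc (ν : ℝ → ℝ) (x : ℝ) : ℝ :=
  Real.cos (3 * x) * (cI ν x - cI ν (Real.pi / 2 - x)) +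
    Real.sin (3 * x) * (sI ν x + sI ν (Real.pi / 2 - x) - sI ν (Real.pi / 2))

lemma hasDerivAt_cI {ν : ℝ → ℝ} (hν : Continuous ν) (x : ℝ) :
    HasDerivAt (cI ν) (Real.cos (3 * x) * ν x) x := by
  have hc : Continuous fun t => Real.cos (3 * t) * ν t := by fun_prop
  exact integral_hasDerivAt_right (hc.intervalIntegrable _ _)
    (hc.stronglyMeasurableAtFilter _ _) hc.continuousAt

lemma hasDerivAt_sI {ν : ℝ → ℝ} (hν : Continuous ν) (x : ℝ) :
    HasDerivAt (sI ν) (Real.sin (3 * x) * ν x) x := by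
  have hc : Continuous fun t => Real.sin (3 * t) * ν t := by fun_prop
  exact integral_hasDerivAt_right (hc.intervalIntegrable _ _)
    (hc.stronglyMeasurableAtFilter _ _) hc.continuousAt

lemma cos3_refl (x : ℝ) : Real.cos (3 * (Real.pi / 2 - x)) = - Real.sin (3 * x) := by
  rw [show 3 * (Real.pi / 2 - x) = (Real.pi / 2 - 3 * x) + Real.pi by ring, Real.cos_add_pi,
    Real.cos_pi_div_two_sub]

lemma sin3_refl (x : ℝ) : Real.sin (3 * (Real.pi / 2 - x)) = - Real.cos (3 * x) := by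
  rw [show 3 * (Real.pi / 2 - x) = (Real.pi / 2 - 3 * x) + Real.pi by ring, Real.sin_add_pi,
    Real.sin_pi_div_two_sub]

lemma osc_refl (ν : ℝ → ℝ) (x : ℝ) : osc ν (Real.pi / 2 - x) =
    Real.sin (3 * x) * (cI ν x - cI ν (Real.pi / 2 - x)) -
    Real.cos (3 * x) * (sI ν x + sI ν (Real.pi / 2 - x) - sI ν (Real.pi / 2)) := by
  unfold osc
  rw [cos3_refl, sin3_refl, show Real.pi / 2 - (Real.pi / 2 - x) = x by ring]
  ring

lemma hasDerivAt_osc {ν : ℝ → ℝ} (hν : Continuous ν) (x : ℝ) :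
    HasDerivAt (osc ν) (ν x - 3 * osc ν (Real.pi / 2 - x)) x := by
  have hr : HasDerivAt (fun x : ℝ => Real.pi / 2 - x) (-1) x := by
    simpa using (hasDerivAt_id x).const_sub (Real.pi / 2)
  have h3 : HasDerivAt (fun x : ℝ => 3 * x) 3 x := by
    simpa using (hasDerivAt_id x).const_mul 3
  have hc3 : HasDerivAt (fun x : ℝ => Real.cos (3 * x)) (-Real.sin (3 * x) * 3) x := h3.cos
  have hs3 : HasDerivAt (fun x : ℝ => Real.sin (3 * x)) (Real.cos (3 * x) * 3) x := h3.sin
  have h1 := hasDerivAt_cI hν x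
  have h2 := hasDerivAt_sI hν x
  have h1' : HasDerivAt (fun x => cI ν (Real.pi / 2 - x))
      ((Real.cos (3 * (Real.pi / 2 - x)) * ν (Real.pi / 2 - x)) * (-1)) x :=
    (hasDerivAt_cI hν (Real.pi / 2 - x)).comp x hr
  have h2' : HasDerivAt (fun x => sI ν (Real.pi / 2 - x))
      ((Real.sin (3 * (Real.pi / 2 - x)) * ν (Real.pi / 2 - x)) * (-1)) x :=
    (hasDerivAt_sI hν (Real.pi / 2 - x)).comp x hr
  have key := (hc3.fun_mul (h1.fun_sub h1')).fun_add
    (hs3.fun_mul ((h2.fun_add h2').sub_const (sI ν (Real.pi / 2))))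
  have e : osc ν = fun x => Real.cos (3 * x) * (cI ν x - cI ν (Real.pi / 2 - x)) +
    Real.sin (3 * x) * (sI ν x + sI ν (Real.pi / 2 - x) - sI ν (Real.pi / 2)) := rfl
  rw [e]
  refine key.congr_deriv ?_
  have e2 := osc_refl ν x
  rw [e] at e2
  rw [e2, cos3_refl, sin3_refl]
  have hsq := Real.sin_sq_add_cos_sq (3 * x)
  linear_combination (ν x) * hsq

lemma integral_zero_of_zero {f : ℝ → ℝ} {x y : ℝ} (h : ∀ t ∈ uIcc x y, f t = 0) :
    ∫ t in x..y, f t = 0 := by
  rw [integral_congr (g := fun _ => (0:ℝ)) (fun t ht => h t ht)]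
  simp

/-- Vanishing outside the zone. -/
lemma osc_zero {ν : ℝ → ℝ} (hν : Continuous ν) {a : ℝ} (ha : 0 ≤ a)
    (hsupp : ∀ x, x ≤ a ∨ Real.pi / 2 - a ≤ x → ν x = 0) (hobs : cI ν (Real.pi / 2) = 0)
    (x : ℝ) (hx : x ≤ a ∨ Real.pi / 2 - a ≤ x) : osc ν x = 0 := by
  have hint : ∀ y z : ℝ, IntervalIntegrable (fun t => Real.cos (3 * t) * ν t) volume y z :=
    fun y z => (by fun_prop : Continuous fun t => Real.cos (3 * t) * ν t).intervalIntegrable _ _
  have hint' : ∀ y z : ℝ, IntervalIntegrable (fun t => Real.sin (3 * t) * ν t) volume y z :=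
    fun y z => (by fun_prop : Continuous fun t => Real.sin (3 * t) * ν t).intervalIntegrable _ _
  have hlow : ∀ y, y ≤ a → cI ν y = 0 ∧ sI ν y = 0 := by
    intro y hy
    have hz : ∀ t ∈ uIcc 0 y, ν t = 0 := by
      intro t ht
      apply hsupp t
      left
      rcases uIcc_subset_uIcc (a₁ := (0:ℝ)) (b₁ := y) (a₂ := 0) (b₂ := y)
        left_mem_uIcc right_mem_uIcc ht with ⟨_, h2⟩
      exact h2.trans (sup_le ha hy)
    constructor
    · exact integral_zero_of_zero fun t ht => by simp [hz t ht]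
    · exact integral_zero_of_zero fun t ht => by simp [hz t ht]
  have hhigh : ∀ y, Real.pi / 2 - a ≤ y → cI ν y = 0 ∧ sI ν y = sI ν (Real.pi / 2) := by
    intro y hy
    have hz : ∀ t ∈ uIcc (Real.pi / 2) y, ν t = 0 := by
      intro t ht
      apply hsupp t
      right
      have h1 : min (Real.pi / 2) y ≤ t := ht.1
      exact (le_min (by linarith) hy).trans h1
    constructor
    · have h1 : cI ν y = cI ν (Real.pi / 2) + ∫ t in (Real.pi / 2)..y, Real.cos (3 * t) * ν t :=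
        (integral_add_adjacent_intervals (hint _ _) (hint _ _)).symm
      rw [h1, hobs, integral_zero_of_zero fun t ht => by simp [hz t ht]]
      ring
    · have h1 : sI ν y = sI ν (Real.pi / 2) + ∫ t in (Real.pi / 2)..y, Real.sin (3 * t) * ν t :=
        (integral_add_adjacent_intervals (hint' _ _) (hint' _ _)).symm
      rw [h1, integral_zero_of_zero fun t ht => by simp [hz t ht]]
      ring
  unfold osc
  rcases hx with hx | hx
  · have h1 := hlow x hx
    have h2 := hhigh (Real.pi / 2 - x) (by linarith)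
    rw [h1.1, h1.2, h2.1, h2.2]; ring
  · have h1 := hhigh x hx
    have h2 := hlow (Real.pi / 2 - x) (by linarith)
    rw [h1.1, h1.2, h2.1, h2.2]; ring

lemma cI_bound {ν : ℝ → ℝ} {M : ℝ} (hM : ∀ x, |ν x| ≤ M) {x : ℝ} (hx0 : 0 ≤ x)
    (hx : x ≤ Real.pi / 2) : |cI ν x| ≤ 2 * M := by
  have hM0 : 0 ≤ M := (abs_nonneg _).trans (hM 0)
  have h := norm_integral_le_of_norm_le_const (a := (0:ℝ)) (b := x) (C := M)
    (f := fun t => Real.cos (3 * t) * ν t) (fun t _ => by
      rw [Real.norm_eq_abs, abs_mul]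
      calc |Real.cos (3 * t)| * |ν t| ≤ 1 * M :=
            mul_le_mul (Real.abs_cos_le_one _) (hM t) (abs_nonneg _) zero_le_one
        _ = M := one_mul M)
  rw [Real.norm_eq_abs, sub_zero, abs_of_nonneg hx0] at h
  have := Real.pi_lt_four
  unfold cI
  nlinarith

lemma sI_bound {ν : ℝ → ℝ} {M : ℝ} (hM : ∀ x, |ν x| ≤ M) {x : ℝ} (hx0 : 0 ≤ x)
    (hx : x ≤ Real.pi / 2) : |sI ν x| ≤ 2 * M := by
  have hM0 : 0 ≤ M := (abs_nonneg _).trans (hM 0)
  have h := norm_integral_le_of_norm_le_const (a := (0:ℝ)) (b := x) (C := M)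
    (f := fun t => Real.sin (3 * t) * ν t) (fun t _ => by
      rw [Real.norm_eq_abs, abs_mul]
      calc |Real.sin (3 * t)| * |ν t| ≤ 1 * M :=
            mul_le_mul (Real.abs_sin_le_one _) (hM t) (abs_nonneg _) zero_le_one
        _ = M := one_mul M)
  rw [Real.norm_eq_abs, sub_zero, abs_of_nonneg hx0] at h
  have := Real.pi_lt_four
  unfold sI
  nlinarith

lemma osc_bound {ν : ℝ → ℝ} (hν : Continuous ν) {a M : ℝ} (ha : 0 ≤ a)
    (hsupp : ∀ x, x ≤ a ∨ Real.pi / 2 - a ≤ x → ν x = 0) (hobs : cI ν (Real.pi / 2) = 0)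
    (hM : ∀ x, |ν x| ≤ M) (x : ℝ) : |osc ν x| ≤ 10 * M := by
  have hM0 : 0 ≤ M := (abs_nonneg _).trans (hM 0)
  by_cases hx : x ≤ a ∨ Real.pi / 2 - a ≤ x
  · rw [osc_zero hν ha hsupp hobs x hx, abs_zero]; positivity
  · push Not at hx
    have h1 : 0 ≤ x := by linarith [hx.1]
    have h2 : x ≤ Real.pi / 2 := by linarith [hx.2]
    have c1 := cI_bound hM h1 h2
    have c2 := cI_bound hM (x := Real.pi / 2 - x) (by linarith) (by linarith)
    have s1 := sI_bound hM h1 h2
    have s2 := sI_bound hM (x := Real.pi / 2 - x) (by linarith) (by linarith)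
    have s3 := sI_bound hM (x := Real.pi / 2) (by linarith [Real.pi_pos]) le_rfl
    unfold osc
    have e1 : |Real.cos (3 * x) * (cI ν x - cI ν (Real.pi / 2 - x))| ≤ 1 * (2 * M + 2 * M) := by
      rw [abs_mul]
      exact mul_le_mul (Real.abs_cos_le_one _) ((abs_sub _ _).trans (add_le_add c1 c2))
        (abs_nonneg _) zero_le_one
    have e2 : |Real.sin (3 * x) * (sI ν x + sI ν (Real.pi / 2 - x) - sI ν (Real.pi / 2))| ≤
        1 * (2 * M + 2 * M + 2 * M) := by
      rw [abs_mul]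
      exact mul_le_mul (Real.abs_sin_le_one _) ((abs_sub _ _).trans
        (add_le_add ((abs_add_le _ _).trans (add_le_add s1 s2)) s3)) (abs_nonneg _) zero_le_one
    refine (abs_add_le _ _).trans ?_
    linarith

lemma cI_sub {ν ξ : ℝ → ℝ} (hν : Continuous ν) (hξ : Continuous ξ) (x : ℝ) :
    cI (fun t => ν t - ξ t) x = cI ν x - cI ξ x := by
  unfold cI
  rw [← intervalIntegral.integral_sub]
  · congr 1; funext t; simp only []; ring
  · exact (by fun_prop : Continuous fun t => Real.cos (3 * t) * ν t).intervalIntegrable _ _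
  · exact (by fun_prop : Continuous fun t => Real.cos (3 * t) * ξ t).intervalIntegrable _ _

lemma sI_sub {ν ξ : ℝ → ℝ} (hν : Continuous ν) (hξ : Continuous ξ) (x : ℝ) :
    sI (fun t => ν t - ξ t) x = sI ν x - sI ξ x := by
  unfold sI
  rw [← intervalIntegral.integral_sub]
  · congr 1; funext t; simp only []; ring
  · exact (by fun_prop : Continuous fun t => Real.sin (3 * t) * ν t).intervalIntegrable _ _
  · exact (by fun_prop : Continuous fun t => Real.sin (3 * t) * ξ t).intervalIntegrable _ _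

lemma osc_sub {ν ξ : ℝ → ℝ} (hν : Continuous ν) (hξ : Continuous ξ) (x : ℝ) :
    osc (fun t => ν t - ξ t) x = osc ν x - osc ξ x := by
  unfold osc
  rw [cI_sub hν hξ, cI_sub hν hξ, sI_sub hν hξ, sI_sub hν hξ, sI_sub hν hξ]
  ring

lemma cI_const_mul {ν : ℝ → ℝ} (c x : ℝ) :
    cI (fun t => c * ν t) x = c * cI ν x := by
  unfold cI
  rw [← intervalIntegral.integral_const_mul]
  congr 1; funext t; ring

end Pool.Agent.IB
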