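import Pool.Agent.IB.ZoneEx

/-!
The one dimensional existence statement.
-/

namespace Pool.Agent.IB

open Set MeasureTheory

lemma rad_cmp {w v : ℝ → ℝ} {s : ℝ} (hw : BL w s) (hv : BL v s) (hs : s ≤ 1/10) {x y : ℝ}
    (h : ∀ t ∈ Icc (-1:ℝ) 1, |t| ≤ 3 * s → ∃ t' ∈ Icc (-1:ℝ) 1,
      Real.cos t' = Real.cos t ∧ w (x + t') = v (y + t)) : rad w x ≤ rad v y := by
  obtain ⟨t, ht, hts, he, _⟩ := rad_spec' hv hs y
  obtain ⟨_, _, _, _, hle'⟩ := rad_spec' hw hs x
  obtain ⟨t', ht', hc, hw'⟩ := h t ht hts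
  rw [he, ← hw', ← hc]
  exact hle' t' ht'

lemma rad_congr {w v : ℝ → ℝ} {s : ℝ} (hw : BL w s) (hv : BL v s) (hs : s ≤ 1/10) {x y : ℝ}
    (h : ∀ t, |t| ≤ 3 * s → w (x + t) = v (y + t)) : rad w x = rad v y := by
  apply le_antisymm
  · exact rad_cmp hw hv hs fun t ht hts => ⟨t, ht, rfl, h t hts⟩
  · exact rad_cmp hv hw hs fun t ht hts => ⟨t, ht, rfl, (h t hts).symm⟩

lemma rad_congr_neg {w v : ℝ → ℝ} {s : ℝ} (hw : BL w s) (hv : BL v s) (hs : s ≤ 1/10) {x y : ℝ}
    (h : ∀ t, |t| ≤ 3 * s → w (x - t) = v (y + t)) : rad w x = rad v y := by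
  apply le_antisymm
  · refine rad_cmp hw hv hs fun t ht hts => ⟨-t, ?_, Real.cos_neg t, ?_⟩
    · constructor <;> linarith [ht.1, ht.2]
    · rw [← sub_eq_add_neg]; exact h t hts
  · refine rad_cmp hv hw hs fun t ht hts => ⟨-t, ?_, Real.cos_neg t, ?_⟩
    · constructor <;> linarith [ht.1, ht.2]
    · have := h (-t) (by rwa [abs_neg])
      rw [sub_neg_eq_add] at this
      exact this.symm

/-- The one dimensional existence statement. -/
theorem exists_profile : ∃ (w w' : ℝ → ℝ), C11 w w' (1/30) ∧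
    (∀ α, |α| ≤ 1/10 ∨ Real.pi / 2 - 1/10 ≤ |α| → w α = 0) ∧
    (∀ β, 0 ≤ β → β ≤ Real.pi / 2 →
      (1 + (w (Real.pi / 2 - β) + w (-(Real.pi / 2 - β))) / 2) *
        ∫ φ in (0:ℝ)..β, (rad w φ ^ 3 + rad w (-φ) ^ 3) / 2 * Real.cos φ = Real.sin β) ∧
    ∃ α, w α ≠ w (-α) := by
  obtain ⟨Z, ⟨W⟩⟩ := exists_zone
  obtain ⟨g, g', p, ε, ht, hQ, hg, hp, hP, hgx⟩ := Zone.exists_solution W (1/60) (by norm_num)
  have hs := ht.small
  have hS : 8 * Z.I1 * ((Z.KL + 1) * ε) + Z.K * ε = Z.Q1 * ε := by unfold Zone.Q1; ring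
  set w1 := Z.wf g p with hw1
  set w2 := Z.wf (fun x => - g x) p with hw2
  have c1 : C11 w1 _ (1/60) := (Zone.wf_C11 hg hp hs).mono (by rw [hS]; exact hQ)
  have c2 : C11 w2 _ (1/60) := (Zone.wf_C11 hg.neg hp hs).mono (by rw [hS]; exact hQ)
  have o1 : ∀ x, OutZ x → w1 x = 0 := Zone.wf_out hg hp
  have o2 : ∀ x, OutZ x → w2 x = 0 := Zone.wf_out hg.neg hp
  have c3 := (c1.add (c2.comp_sub 0)).mono (by norm_num : (1/60 + 1/60 : ℝ) ≤ 1/30)
  have hpi := Real.pi_gt_three
  refine ⟨_, _, c3, ?_, ?_, ?_⟩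
  · intro α hα
    have h1 : OutZ α ∧ OutZ (0 - α) := by
      unfold OutZ
      rcases hα with hα | hα
      · have := abs_le.1 hα
        exact ⟨Or.inl this.2, Or.inl (by linarith)⟩
      · rcases le_or_gt 0 α with h | h
        · rw [abs_of_nonneg h] at hα
          exact ⟨Or.inr hα, Or.inl (by linarith)⟩
        · rw [abs_of_neg h] at hα
          exact ⟨Or.inl (by linarith), Or.inr (by linarith)⟩
    rw [o1 _ h1.1, o2 _ h1.2, add_zero]
  · intro β hβ0 hβ1
    set w : ℝ → ℝ := fun x => w1 x + w2 (0 - x) with hw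
    have hbw : BL w (1/30) := c3.bl
    have hb1 : BL w1 (1/30) := c1.bl.mono (by norm_num)
    have hb2 : BL w2 (1/30) := c2.bl.mono (by norm_num)
    have r1 : ∀ φ, 0 ≤ φ → rad w φ = rad w1 φ := by
      intro φ hφ
      apply rad_congr hbw hb1 (by norm_num)
      intro t ht
      have := abs_le.1 ht
      show w1 (φ + t) + w2 (0 - (φ + t)) = w1 (φ + t)
      rw [o2 _ (Or.inl (by linarith [this.1])), add_zero]
    have r2 : ∀ φ, 0 ≤ φ → rad w (-φ) = rad w2 φ := by
      intro φ hφ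
      apply rad_congr_neg hbw hb2 (by norm_num)
      intro t ht
      have := abs_le.1 ht
      show w1 (-φ - t) + w2 (0 - (-φ - t)) = w2 (φ + t)
      rw [o1 _ (Or.inl (by linarith [this.1])), zero_add]
      congr 1; ring
    have hI : ∫ φ in (0:ℝ)..β, (rad w φ ^ 3 + rad w (-φ) ^ 3) / 2 * Real.cos φ =
        Real.sin β + Ei p β := by
      have e1 : ∫ φ in (0:ℝ)..β, (rad w φ ^ 3 + rad w (-φ) ^ 3) / 2 * Real.cos φ =
          ∫ φ in (0:ℝ)..β, (Real.cos φ + p φ * Real.cos φ) := by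
        apply intervalIntegral.integral_congr
        intro φ hφ
        have hφ0 : 0 ≤ φ := by
          have h1 : min 0 β ≤ φ := hφ.1
          rwa [min_eq_left hβ0] at h1
        simp only
        rw [r1 φ hφ0, r2 φ hφ0]
        have := hP φ
        unfold Zone.Pm at this
        rw [← hw1, ← hw2] at this
        rw [← this]; ring
      have hpc := hp.cont
      rw [e1, intervalIntegral.integral_add (Real.continuous_cos.intervalIntegrable _ _)
        ((by fun_prop : Continuous fun φ => p φ * Real.cos φ).intervalIntegrable _ _),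
        integral_cos, Real.sin_zero, sub_zero]
      rfl
    have hx : w (Real.pi / 2 - β) + w (-(Real.pi / 2 - β)) = 2 * Z.eta p (Real.pi / 2 - β) := by
      show w1 (Real.pi / 2 - β) + w2 (0 - (Real.pi / 2 - β)) +
        (w1 (-(Real.pi / 2 - β)) + w2 (0 - (-(Real.pi / 2 - β)))) = _
      rw [o2 (0 - (Real.pi / 2 - β)) (Or.inl (by linarith)),
        o1 (-(Real.pi / 2 - β)) (Or.inl (by linarith)),
        show 0 - (-(Real.pi / 2 - β)) = Real.pi / 2 - β by ring, hw1, hw2]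
      unfold Zone.wf
      ring
    have hD : Di p (Real.pi / 2 - β) = Ei p β := by
      unfold Di
      congr 1; ring
    have hcos : Real.cos (Real.pi / 2 - β) = Real.sin β := Real.cos_pi_div_two_sub β
    rw [hx, hI]
    by_cases hz : OutZ (Real.pi / 2 - β)
    · rw [Zone.eta_out hp _ hz, ← hD, hp.Di_out _ hz]; ring
    · have h1 := Z.cc _ hz
      have h2 := Zone.den_ge (Z := Z) hp hs.h1 (Real.pi / 2 - β)
      have hk := Z.hk
      rw [h1, hcos, hD] at h2
      have h3 : Real.sin β + Ei p β ≠ 0 := (by linarith : 0 < Real.sin β + Ei p β).ne'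
      unfold Zone.eta
      rw [hD, h1, hcos]
      field_simp
      ring
  · obtain ⟨x, hx⟩ := hgx
    refine ⟨x, ?_⟩
    have hnz : ¬ OutZ x := fun h => hx (hg.out x h)
    have hx0 : 0 < x := by
      unfold OutZ at hnz
      push Not at hnz
      linarith [hnz.1]
    show w1 x + w2 (0 - x) ≠ w1 (-x) + w2 (0 - -x)
    rw [o2 (0 - x) (Or.inl (by linarith)), o1 (-x) (Or.inl (by linarith)),
      show 0 - -x = x by ring, hw1, hw2]
    unfold Zone.wf
    intro h
    apply hx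
    linarith

end Pool.Agent.IB
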