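import Mathlib

/-!
The radial function of the Wulff shape of `1 + w`, for small Lipschitz `w : ℝ → ℝ`.
-/

namespace Pool.Agent.IB

open Set

/-- `f` is bounded by `M` and `M`-Lipschitz. -/
def BL (f : ℝ → ℝ) (M : ℝ) : Prop :=
  (∀ x, |f x| ≤ M) ∧ ∀ x y, |f x - f y| ≤ M * |x - y|

lemma BL.continuous {f : ℝ → ℝ} {M : ℝ} (h : BL f M) : Continuous f := by
  have : LipschitzWith (Real.toNNReal M) f := by
    apply LipschitzWith.of_dist_le_mul
    intro x y
    rw [Real.dist_eq, Real.dist_eq]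
    refine (h.2 x y).trans ?_
    apply mul_le_mul_of_nonneg_right (Real.le_coe_toNNReal M) (abs_nonneg _)
  exact this.continuous

lemma BL.nonneg {f : ℝ → ℝ} {M : ℝ} (h : BL f M) : 0 ≤ M := (abs_nonneg _).trans (h.1 0)

lemma BL.mono {f : ℝ → ℝ} {M M' : ℝ} (h : BL f M) (hM : M ≤ M') : BL f M' :=
  ⟨fun x => (h.1 x).trans hM, fun x y => (h.2 x y).trans
    (mul_le_mul_of_nonneg_right hM (abs_nonneg _))⟩

lemma BL.add {f g : ℝ → ℝ} {M M' : ℝ} (hf : BL f M) (hg : BL g M') :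
    BL (fun x => f x + g x) (M + M') := by
  refine ⟨fun x => (abs_add_le _ _).trans (add_le_add (hf.1 x) (hg.1 x)), fun x y => ?_⟩
  have : f x + g x - (f y + g y) = (f x - f y) + (g x - g y) := by ring
  rw [this, add_mul]
  exact (abs_add_le _ _).trans (add_le_add (hf.2 x y) (hg.2 x y))

lemma BL.neg {f : ℝ → ℝ} {M : ℝ} (hf : BL f M) : BL (fun x => - f x) M := by
  refine ⟨fun x => by rw [abs_neg]; exact hf.1 x, fun x y => ?_⟩
  have : -f x - -f y = -(f x - f y) := by ring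
  rw [this, abs_neg]
  exact hf.2 x y

lemma BL.sub {f g : ℝ → ℝ} {M M' : ℝ} (hf : BL f M) (hg : BL g M') :
    BL (fun x => f x - g x) (M + M') := by
  have := hf.add hg.neg
  simpa [sub_eq_add_neg] using this

lemma BL.const_mul {f : ℝ → ℝ} {M : ℝ} (c : ℝ) (hf : BL f M) :
    BL (fun x => c * f x) (|c| * M) := by
  refine ⟨fun x => ?_, fun x y => ?_⟩
  · rw [abs_mul]; exact mul_le_mul_of_nonneg_left (hf.1 x) (abs_nonneg _)
  · rw [← mul_sub, abs_mul, mul_assoc]
    exact mul_le_mul_of_nonneg_left (hf.2 x y) (abs_nonneg _)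

lemma BL.mul {f g : ℝ → ℝ} {M M' : ℝ} (hf : BL f M) (hg : BL g M') :
    BL (fun x => f x * g x) (2 * M * M') := by
  have hM := hf.nonneg
  have hM' := hg.nonneg
  refine ⟨fun x => ?_, fun x y => ?_⟩
  · rw [abs_mul]
    calc |f x| * |g x| ≤ M * M' := mul_le_mul (hf.1 x) (hg.1 x) (abs_nonneg _) hM
      _ ≤ 2 * M * M' := by nlinarith [mul_nonneg hM hM']
  · have : f x * g x - f y * g y = f x * (g x - g y) + g y * (f x - f y) := by ring
    rw [this]
    refine (abs_add_le _ _).trans ?_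
    rw [abs_mul, abs_mul]
    have h1 : |f x| * |g x - g y| ≤ M * (M' * |x - y|) :=
      mul_le_mul (hf.1 x) (hg.2 x y) (abs_nonneg _) hM
    have h2 : |g y| * |f x - f y| ≤ M' * (M * |x - y|) :=
      mul_le_mul (hg.1 y) (hf.2 x y) (abs_nonneg _) hM'
    linarith

/-- Reflection `x ↦ c - x`. -/
lemma BL.comp_sub {f : ℝ → ℝ} {M : ℝ} (hf : BL f M) (c : ℝ) :
    BL (fun x => f (c - x)) M := by
  refine ⟨fun x => hf.1 _, fun x y => ?_⟩
  have := hf.2 (c - x) (c - y)
  have e : |c - x - (c - y)| = |x - y| := by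
    rw [show c - x - (c - y) = -(x - y) by ring, abs_neg]
  rwa [e] at this

lemma BL.inv {f : ℝ → ℝ} {M k : ℝ} (hf : BL f M) (hk : 0 < k) (hfk : ∀ x, k ≤ f x) :
    BL (fun x => (f x)⁻¹) (k⁻¹ + M * (k⁻¹ * k⁻¹)) := by
  have hM := hf.nonneg
  have hk' : 0 < k⁻¹ := inv_pos.2 hk
  have hpos : ∀ x, 0 < f x := fun x => hk.trans_le (hfk x)
  have hb : ∀ x, |(f x)⁻¹| ≤ k⁻¹ := fun x => by
    rw [abs_of_pos (inv_pos.2 (hpos x))]
    exact inv_anti₀ hk (hfk x)
  refine ⟨fun x => (hb x).trans ?_, fun x y => ?_⟩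
  · have : 0 ≤ M * (k⁻¹ * k⁻¹) := by positivity
    linarith
  · have e : (f x)⁻¹ - (f y)⁻¹ = (f y - f x) * ((f x)⁻¹ * (f y)⁻¹) := by
      have h1 := (hpos x).ne'
      have h2 := (hpos y).ne'
      field_simp
    rw [e, abs_mul, abs_mul]
    have h1 : |f y - f x| ≤ M * |x - y| := by
      rw [abs_sub_comm]; exact hf.2 x y
    have h2 : |(f x)⁻¹| * |(f y)⁻¹| ≤ k⁻¹ * k⁻¹ :=
      mul_le_mul (hb x) (hb y) (abs_nonneg _) hk'.le
    calc |f y - f x| * (|(f x)⁻¹| * |(f y)⁻¹|) ≤ (M * |x - y|) * (k⁻¹ * k⁻¹) :=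
          mul_le_mul h1 h2 (by positivity) (by positivity)
      _ = M * (k⁻¹ * k⁻¹) * |x - y| := by ring
      _ ≤ (k⁻¹ + M * (k⁻¹ * k⁻¹)) * |x - y| := by
          apply mul_le_mul_of_nonneg_right _ (abs_nonneg _)
          linarith

/-- The radial function (at angle `x`) of the Wulff shape of `1 + w`. -/
noncomputable def rad (w : ℝ → ℝ) (x : ℝ) : ℝ :=
  sInf ((fun t => (1 + w (x + t)) / Real.cos t) '' Icc (-1) 1)

lemma cos_pos_of_mem {t : ℝ} (ht : t ∈ Icc (-1 : ℝ) 1) : 0 < Real.cos t :=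
  Real.cos_pos_of_le_one (abs_le.2 ht)

lemma one_sub_cos_ge {t : ℝ} (ht : t ∈ Icc (-1 : ℝ) 1) : 11/25 * t ^ 2 ≤ 1 - Real.cos t := by
  have h1 := Real.cos_bound (abs_le.2 ht)
  have h2 := (abs_le.1 h1).2
  have h3 : |t| ^ 4 ≤ t ^ 2 := by
    have : |t| ^ 4 = t ^ 2 * t ^ 2 := by
      rw [← sq_abs t]; ring
    rw [this]
    have : t ^ 2 ≤ 1 := by
      rw [sq_le_one_iff_abs_le_one]; exact abs_le.2 ht
    nlinarith [sq_nonneg t]
  nlinarith [sq_nonneg t]

lemma cos_ge {t : ℝ} : 1 - t ^ 2 / 2 ≤ Real.cos t := Real.one_sub_sq_div_two_le_cos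

lemma rad_spec {w : ℝ → ℝ} (hw : Continuous w) (x : ℝ) :
    ∃ t ∈ Icc (-1 : ℝ) 1, rad w x = (1 + w (x + t)) / Real.cos t ∧
      ∀ t' ∈ Icc (-1 : ℝ) 1, rad w x ≤ (1 + w (x + t')) / Real.cos t' := by
  have hc : ContinuousOn (fun t => (1 + w (x + t)) / Real.cos t) (Icc (-1 : ℝ) 1) := by
    apply ContinuousOn.div
    · exact (by fun_prop : Continuous fun t => 1 + w (x + t)).continuousOn
    · exact Real.continuous_cos.continuousOn
    · intro t ht; exact (cos_pos_of_mem ht).ne'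
  obtain ⟨t, ht, hteq, hle⟩ := isCompact_Icc.exists_sInf_image_eq_and_le
    (nonempty_Icc.2 (by norm_num)) hc
  exact ⟨t, ht, hteq, fun t' ht' => by rw [rad, hteq]; exact hle t' ht'⟩

lemma rad_le {w : ℝ → ℝ} (hw : Continuous w) (x : ℝ) : rad w x ≤ 1 + w x := by
  obtain ⟨t, ht, he, hle⟩ := rad_spec hw x
  have := hle 0 (by norm_num)
  simpa using this

/-- Localisation of the minimiser. -/
lemma small_of_le {w : ℝ → ℝ} {s : ℝ} (hw : BL w s) (hs : s ≤ 1/10) {x t : ℝ}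
    (ht : t ∈ Icc (-1 : ℝ) 1) (h : (1 + w (x + t)) / Real.cos t ≤ 1 + w x) : |t| ≤ 3 * s := by
  have hc := cos_pos_of_mem ht
  rw [div_le_iff₀ hc] at h
  have h1 := (abs_le.1 (hw.2 (x + t) x)).1
  have h2 := (abs_le.1 (hw.1 x)).1
  have h3 := one_sub_cos_ge ht
  have h4 : |x + t - x| = |t| := by ring_nf
  rw [h4] at h1
  have hs0 := hw.nonneg
  have h5 : (1 + w x) * (1 - Real.cos t) ≤ s * |t| := by nlinarith
  have h6 : 9/10 * (11/25 * t ^ 2) ≤ (1 + w x) * (1 - Real.cos t) := by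
    apply mul_le_mul (by linarith) h3 (by positivity) (by linarith)
  have h7 : t ^ 2 = |t| * |t| := by rw [← sq_abs]; ring
  rw [h7] at h6
  rcases (abs_nonneg t).eq_or_lt with h0 | h0
  · rw [← h0]; positivity
  · have : 9/10 * (11/25 * |t|) * |t| ≤ s * |t| := by linarith
    have := le_of_mul_le_mul_right this h0
    linarith

lemma rad_spec' {w : ℝ → ℝ} {s : ℝ} (hw : BL w s) (hs : s ≤ 1/10) (x : ℝ) :
    ∃ t ∈ Icc (-1 : ℝ) 1, |t| ≤ 3 * s ∧ rad w x = (1 + w (x + t)) / Real.cos t ∧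
      ∀ t' ∈ Icc (-1 : ℝ) 1, rad w x ≤ (1 + w (x + t')) / Real.cos t' := by
  obtain ⟨t, ht, he, hle⟩ := rad_spec hw.continuous x
  refine ⟨t, ht, ?_, he, hle⟩
  apply small_of_le hw hs ht
  rw [← he]
  exact rad_le hw.continuous x

lemma rad_ge {w : ℝ → ℝ} {s : ℝ} (hw : BL w s) (hs : s ≤ 1/10) (x : ℝ) : 1 - s ≤ rad w x := by
  obtain ⟨t, ht, _, he, _⟩ := rad_spec' hw hs x
  rw [he, le_div_iff₀ (cos_pos_of_mem ht)]
  have h1 := (abs_le.1 (hw.1 (x + t))).1
  have h2 := Real.cos_le_one t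
  have h3 := cos_pos_of_mem ht
  nlinarith

lemma inv_cos_bound {t : ℝ} (ht : |t| ≤ 3/10) : (Real.cos t)⁻¹ ≤ 1 + 3/5 * t ^ 2 := by
  have ht1 : t ∈ Icc (-1 : ℝ) 1 := abs_le.1 (ht.trans (by norm_num))
  have hc := cos_pos_of_mem ht1
  rw [inv_le_iff_one_le_mul₀ hc]
  have h1 : 1 - t ^ 2 / 2 ≤ Real.cos t := cos_ge
  have h2 : t ^ 2 ≤ 9/100 := by
    have := pow_le_pow_left₀ (abs_nonneg t) ht 2
    rw [sq_abs] at this
    linarith
  have h3 : 0 ≤ t ^ 2 := sq_nonneg t
  nlinarith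

/-- Comparison of two radial functions. -/
lemma rad_sub {w v : ℝ → ℝ} {s d : ℝ} (hw : BL w s) (hv : BL v s) (hs : s ≤ 1/10)
    (hd : BL (fun x => w x - v x) d) (x : ℝ) :
    |rad w x - rad v x - (w x - v x)| ≤ 4 * s * d := by
  have key : ∀ (w v : ℝ → ℝ), BL w s → BL v s → BL (fun x => w x - v x) d →
      rad w x - rad v x - (w x - v x) ≤ 4 * s * d := by
    intro w v hw hv hd
    obtain ⟨t, ht, hts, he, hle⟩ := rad_spec' hv hs x
    obtain ⟨_, _, _, _, hle'⟩ := rad_spec' hw hs x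
    have h1 := hle' t ht
    have hs0 := hv.nonneg
    have hd0 := hd.nonneg
    have hc := cos_pos_of_mem ht
    have e1 : (1 + w (x + t)) / Real.cos t =
        (1 + v (x + t)) / Real.cos t + (w (x + t) - v (x + t)) * (Real.cos t)⁻¹ := by
      field_simp; ring
    rw [e1, ← he] at h1
    have h2 : |(w (x + t) - v (x + t)) - (w x - v x)| ≤ d * |t| := by
      have := hd.2 (x + t) x
      simpa using this
    have h3 := (abs_le.1 h2).2
    have h4 := (abs_le.1 (hd.1 x))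
    have h4a := h4.1
    have h4b := h4.2
    simp only at h4a h4b
    have ht3 : |t| ≤ 3/10 := by linarith
    have h5 := inv_cos_bound ht3
    have h6 : 1 ≤ (Real.cos t)⁻¹ := by
      rw [one_le_inv₀ hc]; exact Real.cos_le_one t
    have h7 : t ^ 2 ≤ 3/10 * (3 * s) := by
      have : t ^ 2 = |t| * |t| := by rw [← sq_abs]; ring
      rw [this]
      exact mul_le_mul ht3 hts (abs_nonneg _) (by norm_num)
    have h8 : (w (x + t) - v (x + t)) * (Real.cos t)⁻¹ ≤
        (w x - v x) + 4 * s * d := by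
      have a1 : (w (x + t) - v (x + t)) ≤ (w x - v x) + d * |t| := by linarith
      have a2 : (w (x + t) - v (x + t)) * (Real.cos t)⁻¹ ≤
          ((w x - v x) + d * |t|) * (Real.cos t)⁻¹ :=
        mul_le_mul_of_nonneg_right a1 (by linarith)
      have a3 : ((w x - v x) + d * |t|) * (Real.cos t)⁻¹ =
          (w x - v x) + d * |t| + ((w x - v x) + d * |t|) * ((Real.cos t)⁻¹ - 1) := by ring
      have a4 : ((w x - v x) + d * |t|) * ((Real.cos t)⁻¹ - 1) ≤
          (d + d * (3/10)) * (3/5 * (3/10 * (3 * s))) := by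
        apply mul_le_mul
        · have := mul_le_mul_of_nonneg_left ht3 hd0
          linarith
        · nlinarith
        · linarith
        · positivity
      have a5 : d * |t| ≤ d * (3 * s) := mul_le_mul_of_nonneg_left hts hd0
      have a6 : 0 ≤ s * d := mul_nonneg hs0 hd0
      nlinarith
    linarith
  rw [abs_le]
  constructor
  · have hd' : BL (fun x => v x - w x) d := by
      have := hd.neg
      simpa using this
    have := key v w hv hw hd'
    linarith
  · exact key w v hw hv hd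

lemma BL_zero {s : ℝ} (hs : 0 ≤ s) : BL (fun _ => 0) s :=
  ⟨fun _ => by simpa using hs, fun _ _ => by simpa using mul_nonneg hs (abs_nonneg _)⟩

lemma rad_zero (x : ℝ) : rad (fun _ => 0) x = 1 := by
  apply le_antisymm
  · simpa using rad_le (w := fun _ => 0) continuous_const x
  · have := rad_ge (BL_zero le_rfl) (by norm_num : (0:ℝ) ≤ 1/10) x
    linarith

lemma rad_approx {w : ℝ → ℝ} {s : ℝ} (hw : BL w s) (hs : s ≤ 1/10) (x : ℝ) :
    |rad w x - 1 - w x| ≤ 4 * s * s := by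
  have := rad_sub hw (BL_zero hw.nonneg) hs (by simpa using hw) x
  rw [rad_zero] at this
  simpa using this

/-- The radial function is Lipschitz. -/
lemma rad_BL {w : ℝ → ℝ} {s : ℝ} (hw : BL w s) (hs : s ≤ 1/10) :
    BL (fun x => rad w x - 1) (2 * s) := by
  have hs0 := hw.nonneg
  refine ⟨fun x => ?_, fun x y => ?_⟩
  · rw [abs_le]
    have h1 := rad_ge hw hs x
    have h2 := rad_le hw.continuous x
    have h3 := (abs_le.1 (hw.1 x)).2
    constructor <;> linarith
  · have key : ∀ x y, rad w y - rad w x ≤ 2 * s * |x - y| := by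
      intro x y
      obtain ⟨t, ht, hts, he, hle⟩ := rad_spec' hw hs x
      obtain ⟨_, _, _, _, hle'⟩ := rad_spec' hw hs y
      have h1 := hle' t ht
      have hc := cos_pos_of_mem ht
      have e1 : (1 + w (y + t)) / Real.cos t =
        (1 + w (x + t)) / Real.cos t + (w (y + t) - w (x + t)) * (Real.cos t)⁻¹ := by
        field_simp; ring
      rw [e1, ← he] at h1
      have h2 := (abs_le.1 (hw.2 (y + t) (x + t))).2
      have h3 : |y + t - (x + t)| = |x - y| := by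
        rw [show y + t - (x + t) = -(x - y) by ring, abs_neg]
      rw [h3] at h2
      have ht3 : |t| ≤ 3/10 := by linarith
      have h5 := inv_cos_bound ht3
      have h6 : 0 < (Real.cos t)⁻¹ := inv_pos.2 hc
      have h7 : t ^ 2 ≤ 1 := by
        rw [sq_le_one_iff_abs_le_one]; linarith
      have h8 : (w (y + t) - w (x + t)) * (Real.cos t)⁻¹ ≤ (s * |x - y|) * 2 := by
        calc (w (y + t) - w (x + t)) * (Real.cos t)⁻¹ ≤ (s * |x - y|) * (Real.cos t)⁻¹ :=
              mul_le_mul_of_nonneg_right h2 h6.le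
          _ ≤ (s * |x - y|) * 2 :=
              mul_le_mul_of_nonneg_left (by linarith) (by positivity)
      linarith
    have h1 := key x y
    have h2 := key y x
    rw [abs_sub_comm] at h2
    rw [abs_le]
    constructor <;> linarith

/-- If `1 + w` stays above `cos`, the radial function is `1`. -/
lemma rad_eq_one {w : ℝ → ℝ} (hw : Continuous w) {x : ℝ} (hx : w x = 0)
    (h : ∀ t ∈ Icc (-1 : ℝ) 1, -(11/25) * t ^ 2 ≤ w (x + t)) : rad w x = 1 := by
  apply le_antisymm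
  · have := rad_le hw x
    rw [hx] at this
    linarith
  · obtain ⟨t, ht, he, _⟩ := rad_spec hw x
    rw [he, le_div_iff₀ (cos_pos_of_mem ht)]
    have h1 := h t ht
    have h2 := one_sub_cos_ge ht
    linarith

end Pool.Agent.IB
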