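import Pool.Agent.IB.Rad

/-!
Second order expansion of the radial function for `C^{1,1}` perturbations.
-/

namespace Pool.Agent.IB

open Set

/-- `w` is differentiable with derivative `w'`, and `w`, `w'` are bounded by `s` and
`s`-Lipschitz. -/
structure C11 (w w' : ℝ → ℝ) (s : ℝ) : Prop where
  bl : BL w s
  der : ∀ x, HasDerivAt w (w' x) x
  bl' : BL w' s

lemma lipschitz_of_deriv {w w' : ℝ → ℝ} {s : ℝ} (hder : ∀ x, HasDerivAt w (w' x) x)
    (hb : ∀ x, |w' x| ≤ s) (x y : ℝ) : |w x - w y| ≤ s * |x - y| := by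
  have := Convex.norm_image_sub_le_of_norm_hasDerivWithin_le (f := w) (f' := w') (s := univ)
    (C := s) (x := y) (y := x) (fun z _ => (hder z).hasDerivWithinAt) (fun z _ => hb z)
    convex_univ (mem_univ _) (mem_univ _)
  simpa [Real.norm_eq_abs] using this

lemma C11.second {w w' : ℝ → ℝ} {s : ℝ} (h : C11 w w' s) (x t : ℝ) :
    |w (x + t) - w x - w' x * t| ≤ s * t ^ 2 := by
  have hs := h.bl.nonneg
  have key := Convex.norm_image_sub_le_of_norm_hasDerivWithin_le
    (f := fun y => w y - w' x * y) (f' := fun y => w' y - w' x) (s := Metric.closedBall x |t|)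
    (C := s * |t|) (x := x) (y := x + t)
    (fun z _ => by
      have h1 := (h.der z).fun_sub ((hasDerivAt_id z).const_mul (w' x))
      simpa using h1.hasDerivWithinAt)
    (fun z hz => by
      rw [Real.norm_eq_abs]
      refine (h.bl'.2 z x).trans ?_
      apply mul_le_mul_of_nonneg_left _ hs
      rw [Metric.mem_closedBall, Real.dist_eq] at hz
      exact hz)
    (convex_closedBall _ _) (Metric.mem_closedBall_self (abs_nonneg _))
    (by rw [Metric.mem_closedBall, Real.dist_eq]; simp)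
  have e1 : w (x + t) - w' x * (x + t) - (w x - w' x * x) = w (x + t) - w x - w' x * t := by ring
  rw [e1, Real.norm_eq_abs, Real.norm_eq_abs] at key
  have e2 : s * |t| * |x + t - x| = s * t ^ 2 := by
    rw [show x + t - x = t by ring, mul_assoc, ← sq, sq_abs]
  rw [e2] at key
  exact key

lemma inv_cos_upper {t : ℝ} (ht : |t| ≤ 3/10) :
    (Real.cos t)⁻¹ ≤ 1 + t ^ 2 / 2 + t ^ 4 / 2 := by
  have ht1 : t ∈ Icc (-1 : ℝ) 1 := abs_le.1 (ht.trans (by norm_num))
  have hc := cos_pos_of_mem ht1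
  rw [inv_le_iff_one_le_mul₀ hc]
  have h1 : 1 - t ^ 2 / 2 ≤ Real.cos t := cos_ge
  have h2 : t ^ 2 ≤ 9/100 := by
    have := pow_le_pow_left₀ (abs_nonneg t) ht 2
    rw [sq_abs] at this
    linarith
  have h3 : 0 ≤ t ^ 2 := sq_nonneg t
  set u := t ^ 2 with hu
  have h4 : t ^ 4 = u ^ 2 := by rw [hu]; ring
  rw [h4]
  have h5 : 0 ≤ 1 + u / 2 + u ^ 2 / 2 := by positivity
  have h6 : (1 + u / 2 + u ^ 2 / 2) * (1 - u / 2) ≤ (1 + u / 2 + u ^ 2 / 2) * Real.cos t :=
    mul_le_mul_of_nonneg_left h1 h5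
  have h7 : 1 ≤ (1 + u / 2 + u ^ 2 / 2) * (1 - u / 2) := by
    have : (1 + u / 2 + u ^ 2 / 2) * (1 - u / 2) = 1 + u ^ 2 / 4 * (1 - u) := by ring
    rw [this]
    have : 0 ≤ u ^ 2 / 4 * (1 - u) := mul_nonneg (by positivity) (by linarith)
    linarith
  linarith

lemma inv_cos_lower {t : ℝ} (ht : |t| ≤ 3/10) :
    1 + t ^ 2 / 2 - t ^ 4 / 2 ≤ (Real.cos t)⁻¹ := by
  have ht1 : t ∈ Icc (-1 : ℝ) 1 := abs_le.1 (ht.trans (by norm_num))
  have hc := cos_pos_of_mem ht1
  rw [le_inv_comm₀ _ hc]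
  · rw [← one_div, le_div_iff₀]
    · have h1 := (abs_le.1 (Real.cos_bound (abs_le.2 ht1))).2
      have h2 : t ^ 2 ≤ 9/100 := by
        have := pow_le_pow_left₀ (abs_nonneg t) ht 2
        rw [sq_abs] at this
        linarith
      have h3 : 0 ≤ t ^ 2 := sq_nonneg t
      have h4' : |t| ^ 4 = (t ^ 2) ^ 2 := by rw [← sq_abs t]; ring
      rw [h4'] at h1
      set u := t ^ 2 with hu
      have h4 : t ^ 4 = u ^ 2 := by rw [hu]; ring
      rw [h4]
      have h5 : 0 ≤ 1 + u / 2 - u ^ 2 / 2 := by nlinarith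
      have h6 : Real.cos t * (1 + u / 2 - u ^ 2 / 2) ≤
          (1 - u / 2 + u ^ 2 * (5/96)) * (1 + u / 2 - u ^ 2 / 2) :=
        mul_le_mul_of_nonneg_right (by linarith) h5
      have h7 : (1 - u / 2 + u ^ 2 * (5/96)) * (1 + u / 2 - u ^ 2 / 2) ≤ 1 := by
        have : (1 - u / 2 + u ^ 2 * (5/96)) * (1 + u / 2 - u ^ 2 / 2) =
          1 + u ^ 2 * (5/96 - 3/4 + u * (1/4 + 5/192) - u ^ 2 * (5/192)) := by ring
        rw [this]
        have h8 : 5/96 - 3/4 + u * (1/4 + 5/192) - u ^ 2 * (5/192) ≤ 0 := by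
          have : 0 ≤ u ^ 2 * (5/192) := by positivity
          nlinarith
        have := mul_nonneg (sq_nonneg u) (neg_nonneg.2 h8)
        nlinarith
      linarith
    · have h3 : 0 ≤ t ^ 2 := sq_nonneg t
      have h2 : t ^ 2 ≤ 9/100 := by
        have := pow_le_pow_left₀ (abs_nonneg t) ht 2
        rw [sq_abs] at this
        linarith
      have : t ^ 4 = (t ^ 2) ^ 2 := by ring
      rw [this]; nlinarith
  · have h3 : 0 ≤ t ^ 2 := sq_nonneg t
    have h2 : t ^ 2 ≤ 9/100 := by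
      have := pow_le_pow_left₀ (abs_nonneg t) ht 2
      rw [sq_abs] at this
      linarith
    have : t ^ 4 = (t ^ 2) ^ 2 := by ring
    rw [this]; nlinarith

/-- Expansion of the quotient for small offsets. -/
lemma quot_expand {w w' : ℝ → ℝ} {s : ℝ} (h : C11 w w' s) (hs : s ≤ 1/30) (x t : ℝ)
    (ht : |t| ≤ 3 * s) :
    |(1 + w (x + t)) / Real.cos t - (1 + w x + w' x * t + t ^ 2 / 2)| ≤ 17 * s ^ 3 := by
  have hs0 := h.bl.nonneg
  have ht3 : |t| ≤ 3/10 := by linarith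
  have hq1 := inv_cos_upper ht3
  have hq2 := inv_cos_lower ht3
  set q := (Real.cos t)⁻¹ - (1 + t ^ 2 / 2) with hq
  have hr := h.second x t
  set r := w (x + t) - w x - w' x * t with hr'
  have e1 : (1 + w (x + t)) / Real.cos t - (1 + w x + w' x * t + t ^ 2 / 2) =
      r * (1 + t ^ 2 / 2 + q) + (w x + w' x * t) * (t ^ 2 / 2) + (1 + w x + w' x * t) * q := by
    rw [div_eq_mul_inv, show (Real.cos t)⁻¹ = 1 + t ^ 2 / 2 + q by rw [hq]; ring,
      show w (x + t) = r + w x + w' x * t by rw [hr']; ring]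
    ring
  rw [e1]
  have hqb : |q| ≤ t ^ 4 / 2 := abs_le.2 ⟨by rw [hq]; linarith, by rw [hq]; linarith⟩
  have ht2 : t ^ 2 ≤ 9 * s ^ 2 := by
    have := pow_le_pow_left₀ (abs_nonneg t) ht 2
    rw [sq_abs] at this
    linarith
  have ht2' : 0 ≤ t ^ 2 := sq_nonneg t
  have hs2 : s ^ 2 ≤ 1/900 := by nlinarith
  have hs3 : 0 ≤ s ^ 3 := by positivity
  have ht4 : t ^ 4 ≤ 27/10 * s ^ 3 := by
    have a : t ^ 4 = t ^ 2 * t ^ 2 := by ring
    have b : t ^ 2 * t ^ 2 ≤ (9 * s ^ 2) * (9 * s ^ 2) :=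
      mul_le_mul ht2 ht2 ht2' (by positivity)
    have c : (9 * s ^ 2) * (9 * s ^ 2) = 81 * s ^ 3 * s := by ring
    have d : 81 * s ^ 3 * s ≤ 81 * s ^ 3 * (1/30) :=
      mul_le_mul_of_nonneg_left hs (by positivity)
    linarith
  have ht4' : 0 ≤ t ^ 4 := by positivity
  have hs3b : s ^ 3 ≤ 1/1000 := by
    have : s ^ 3 = s ^ 2 * s := by ring
    rw [this]; nlinarith
  have hw : |w x + w' x * t| ≤ 11/10 * s := by
    have a := h.bl.1 x
    have b : |w' x * t| ≤ s * (1/10) := by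
      rw [abs_mul]; exact mul_le_mul (h.bl'.1 x) (by linarith) (abs_nonneg _) hs0
    have := abs_add_le (w x) (w' x * t)
    linarith
  have b1 : |r * (1 + t ^ 2 / 2 + q)| ≤ (9 * s ^ 3) * (11/10) := by
    rw [abs_mul]
    apply mul_le_mul _ _ (abs_nonneg _) (by positivity)
    · refine hr.trans ?_
      calc s * t ^ 2 ≤ s * (9 * s ^ 2) := mul_le_mul_of_nonneg_left ht2 hs0
        _ = 9 * s ^ 3 := by ring
    · rw [abs_le]
      have := abs_le.1 hqb
      constructor <;> nlinarith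
  have b2 : |(w x + w' x * t) * (t ^ 2 / 2)| ≤ (11/10 * s) * (9 * s ^ 2 / 2) := by
    rw [abs_mul]
    apply mul_le_mul hw _ (abs_nonneg _) (by positivity)
    rw [abs_of_nonneg (by positivity)]
    linarith
  have b3 : |(1 + w x + w' x * t) * q| ≤ (11/10) * (27/20 * s ^ 3) := by
    rw [abs_mul]
    apply mul_le_mul _ _ (abs_nonneg _) (by norm_num)
    · have := abs_le.1 hw
      rw [abs_le]
      constructor <;> linarith
    · linarith
  have b4 : (11/10 * s) * (9 * s ^ 2 / 2) = 99/20 * s ^ 3 := by ring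
  calc |r * (1 + t ^ 2 / 2 + q) + (w x + w' x * t) * (t ^ 2 / 2) + (1 + w x + w' x * t) * q|
      ≤ |r * (1 + t ^ 2 / 2 + q)| + |(w x + w' x * t) * (t ^ 2 / 2)| +
        |(1 + w x + w' x * t) * q| := by
          refine (abs_add_le _ _).trans ?_
          gcongr
          exact abs_add_le _ _
    _ ≤ 17 * s ^ 3 := by linarith

/-- Second order expansion of the radial function. -/
lemma rad_expand {w w' : ℝ → ℝ} {s : ℝ} (h : C11 w w' s) (hs : s ≤ 1/30) (x : ℝ) :
    |rad w x - (1 + w x - (w' x) ^ 2 / 2)| ≤ 17 * s ^ 3 := by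
  have hs0 := h.bl.nonneg
  obtain ⟨t, ht, hts, he, hle⟩ := rad_spec' h.bl (by linarith) x
  rw [abs_le]
  constructor
  · have h1 := (abs_le.1 (quot_expand h hs x t hts)).1
    rw [← he] at h1
    nlinarith [sq_nonneg (t + w' x)]
  · have hb := h.bl'.1 x
    have h2 := hle (-w' x) (by
      rw [abs_le] at hb
      constructor <;> linarith)
    have h3 := (abs_le.1 (quot_expand h hs x (-w' x) (by rw [abs_neg]; linarith))).2
    nlinarith

lemma abs_sub_sin_le (t : ℝ) : |t - Real.sin t| ≤ 2 * t ^ 2 := by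
  rcases le_or_gt |t| 1 with h | h
  · have h1 := Real.sin_bound h
    have e : t - Real.sin t = -(Real.sin t - (t - t ^ 3 / 6)) + t ^ 3 / 6 := by ring
    rw [e]
    refine (abs_add_le _ _).trans ?_
    rw [abs_neg]
    have h2 : |t ^ 3 / 6| ≤ t ^ 2 / 6 := by
      rw [abs_div, abs_pow, abs_of_pos (by norm_num : (0:ℝ) < 6)]
      have : |t| ^ 3 = t ^ 2 * |t| := by rw [← sq_abs]; ring
      rw [this]
      have := mul_le_mul_of_nonneg_left h (sq_nonneg t)
      linarith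
    have h3 : |t| ^ 5 ≤ t ^ 2 := by
      have : |t| ^ 5 = t ^ 2 * |t| ^ 3 := by rw [← sq_abs]; ring
      rw [this]
      have h4 : |t| ^ 3 ≤ 1 := pow_le_one₀ (abs_nonneg _) h
      have := mul_le_mul_of_nonneg_left h4 (sq_nonneg t)
      linarith
    have := sq_nonneg t
    linarith
  · have h1 := Real.abs_sin_le_one t
    have h2 : |t - Real.sin t| ≤ |t| + 1 := by
      refine (abs_sub _ _).trans ?_
      linarith
    have h3 : |t| ≤ t ^ 2 := by
      have : t ^ 2 = |t| * |t| := by rw [← sq_abs]; ring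
      rw [this]
      nlinarith [abs_nonneg t]
    linarith

/-- Global convexity inequality for the support function `1 + w`. -/
lemma support_ineq {w w' : ℝ → ℝ} {s : ℝ} (h : C11 w w' s) (hs : s ≤ 1/30) (x t : ℝ)
    (ht : |t| ≤ Real.pi) :
    (1 + w x) * Real.cos t + w' x * Real.sin t ≤ 1 + w (x + t) := by
  have hs0 := h.bl.nonneg
  have h1 := (abs_le.1 (h.second x t)).1
  have h2 := Real.cos_le_one_sub_mul_cos_sq ht
  have h3 : 1/5 ≤ 2 / Real.pi ^ 2 := by
    rw [div_le_div_iff₀ (by norm_num) (by positivity)]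
    have := Real.pi_lt_d2
    nlinarith [Real.pi_pos]
  have ht2 : 0 ≤ t ^ 2 := sq_nonneg t
  have h4 : 1/5 * t ^ 2 ≤ 1 - Real.cos t := by
    have := mul_le_mul_of_nonneg_right h3 ht2
    linarith
  have h5 : |w' x * (t - Real.sin t)| ≤ s * (2 * t ^ 2) := by
    rw [abs_mul]
    exact mul_le_mul (h.bl'.1 x) (abs_sub_sin_le t) (abs_nonneg _) hs0
  have h6 := (abs_le.1 h5).1
  have h7 := (abs_le.1 (h.bl.1 x)).1
  have h8 : (9/10) * (1/5 * t ^ 2) ≤ (1 + w x) * (1 - Real.cos t) :=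
    mul_le_mul (by linarith) h4 (by positivity) (by linarith)
  have h9 : s * t ^ 2 ≤ 1/30 * t ^ 2 := mul_le_mul_of_nonneg_right hs ht2
  nlinarith

end Pool.Agent.IB
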