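import Pool.Agent.IB.Zone

/-!
The linear solution operator of the fixed point scheme.
-/

namespace Pool.Agent.IB

open Set MeasureTheory

namespace Zone

variable (Z : Zone)

/-- Projection killing the obstruction. -/
noncomputable def pr (ν : ℝ → ℝ) (x : ℝ) : ℝ := ν x - cI ν (Real.pi / 2) * Z.chi x

/-- Solution operator. -/
noncomputable def sol (ν : ℝ → ℝ) (x : ℝ) : ℝ :=
  (Z.pr ν x - 3 * osc (Z.pr ν) (Real.pi / 2 - x)) * (Z.c x)⁻¹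

variable {Z}

lemma pr_BL {ν : ℝ → ℝ} {M M' : ℝ} (h : BL ν M') (hM : ∀ x, |ν x| ≤ M) :
    BL (Z.pr ν) (M' + 2 * M * Z.K) := by
  have hK := Z.K_pos
  have h1 := h.sub (Z.hchi.const_mul (cI ν (Real.pi / 2)))
  refine h1.mono ?_
  have := cI_bound hM (x := Real.pi / 2) (by positivity) le_rfl
  have := mul_le_mul_of_nonneg_right this hK.le
  linarith

lemma pr_cont {ν : ℝ → ℝ} (h : Continuous ν) : Continuous (Z.pr ν) := by
  have := Z.hchi.continuous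
  unfold pr
  fun_prop

lemma pr_bound {ν : ℝ → ℝ} {M : ℝ} (hM : ∀ x, |ν x| ≤ M) (x : ℝ) :
    |Z.pr ν x| ≤ (1 + 2 * Z.K) * M := by
  have hK := Z.K_pos
  unfold pr
  refine (abs_sub _ _).trans ?_
  rw [abs_mul]
  have h1 := cI_bound hM (x := Real.pi / 2) (by positivity) le_rfl
  have h2 : |cI ν (Real.pi / 2)| * |Z.chi x| ≤ (2 * M) * Z.K :=
    mul_le_mul h1 (Z.hchi.1 x) (abs_nonneg _) (by linarith [abs_nonneg (cI ν (Real.pi / 2))])
  have := hM x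
  linarith

lemma pr_out {ν : ℝ → ℝ} (h : ∀ x, OutZ x → ν x = 0) (x : ℝ) (hx : OutZ x) : Z.pr ν x = 0 := by
  unfold pr
  rw [h x hx, Z.chi0 x hx]; ring

lemma pr_obs {ν : ℝ → ℝ} (h : Continuous ν) : cI (Z.pr ν) (Real.pi / 2) = 0 := by
  have h1 : cI (Z.pr ν) (Real.pi / 2) =
      cI ν (Real.pi / 2) - cI (fun t => cI ν (Real.pi / 2) * Z.chi t) (Real.pi / 2) :=
    cI_sub h (continuous_const.mul Z.hchi.continuous) _
  rw [h1, cI_const_mul, Z.chi1]; ring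

lemma pr_sub {ν ξ : ℝ → ℝ} (hν : Continuous ν) (hξ : Continuous ξ) :
    Z.pr (fun t => ν t - ξ t) = fun x => Z.pr ν x - Z.pr ξ x := by
  funext x
  unfold pr
  rw [cI_sub hν hξ]; ring

lemma osc_pr_out {ν : ℝ → ℝ} (h : Continuous ν) (hout : ∀ x, OutZ x → ν x = 0) (x : ℝ)
    (hx : OutZ x) : osc (Z.pr ν) x = 0 :=
  osc_zero (a := 1/10) (pr_cont h) (by norm_num) (pr_out hout) (pr_obs h) x hx

lemma osc_pr_bound {ν : ℝ → ℝ} {M : ℝ} (h : Continuous ν) (hout : ∀ x, OutZ x → ν x = 0)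
    (hM : ∀ x, |ν x| ≤ M) (x : ℝ) : |osc (Z.pr ν) x| ≤ 10 * ((1 + 2 * Z.K) * M) :=
  osc_bound (a := 1/10) (pr_cont h) (by norm_num) (pr_out hout) (pr_obs h) (pr_bound hM) x

lemma osc_pr_BL {ν : ℝ → ℝ} {M : ℝ} (h : Continuous ν) (hout : ∀ x, OutZ x → ν x = 0)
    (hM : ∀ x, |ν x| ≤ M) : BL (osc (Z.pr ν)) (31 * ((1 + 2 * Z.K) * M)) := by
  have hM0 : 0 ≤ M := (abs_nonneg _).trans (hM 0)
  have hK := Z.K_pos
  have h0 : 0 ≤ (1 + 2 * Z.K) * M := by positivity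
  refine ⟨fun x => (osc_pr_bound h hout hM x).trans (by linarith), fun x y => ?_⟩
  apply lipschitz_of_deriv (hasDerivAt_osc (pr_cont h)) (fun x => ?_) x y
  refine (abs_sub _ _).trans ?_
  rw [abs_mul, abs_of_pos (by norm_num : (0:ℝ) < 3)]
  have h1 := pr_bound (Z := Z) hM x
  have h2 := osc_pr_bound (Z := Z) h hout hM (Real.pi / 2 - x)
  linarith

lemma c_inv_pos (x : ℝ) : 0 < (Z.c x)⁻¹ := inv_pos.2 (Z.hk.trans_le (Z.kc x))

lemma c_inv_le (x : ℝ) : (Z.c x)⁻¹ ≤ Z.k⁻¹ := inv_anti₀ Z.hk (Z.kc x)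

lemma sol_bound {ν : ℝ → ℝ} {M : ℝ} (h : Continuous ν) (hout : ∀ x, OutZ x → ν x = 0)
    (hM : ∀ x, |ν x| ≤ M) (x : ℝ) : |Z.sol ν x| ≤ 31 * ((1 + 2 * Z.K) * M) * Z.k⁻¹ := by
  have hM0 : 0 ≤ M := (abs_nonneg _).trans (hM 0)
  have hK := Z.K_pos
  have h0 : 0 ≤ (1 + 2 * Z.K) * M := by positivity
  unfold sol
  rw [abs_mul, abs_of_pos (c_inv_pos x)]
  apply mul_le_mul _ (c_inv_le x) (c_inv_pos x).le (by positivity)
  refine (abs_sub _ _).trans ?_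
  rw [abs_mul, abs_of_pos (by norm_num : (0:ℝ) < 3)]
  have h1 := pr_bound (Z := Z) hM x
  have h2 := osc_pr_bound (Z := Z) h hout hM (Real.pi / 2 - x)
  linarith

/-- Lipschitz bound of `sol`. -/
lemma sol_BL {ν : ℝ → ℝ} {M M' : ℝ} (h : BL ν M') (hout : ∀ x, OutZ x → ν x = 0)
    (hM : ∀ x, |ν x| ≤ M) : BL (Z.sol ν)
      (2 * (M' + 2 * M * Z.K + 93 * ((1 + 2 * Z.K) * M)) * (Z.k⁻¹ + Z.K * (Z.k⁻¹ * Z.k⁻¹))) := by
  have h1 := (pr_BL (Z := Z) h hM).sub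
    (((osc_pr_BL (Z := Z) h.continuous hout hM).comp_sub (Real.pi / 2)).const_mul 3)
  have h2 := h1.mul (Z.hc.bl.inv Z.hk Z.kc)
  refine h2.mono ?_
  rw [abs_of_pos (by norm_num : (0:ℝ) < 3)]
  apply le_of_eq; ring

lemma sol_out {ν : ℝ → ℝ} (h : Continuous ν) (hout : ∀ x, OutZ x → ν x = 0) (x : ℝ)
    (hx : OutZ x) : Z.sol ν x = 0 := by
  unfold sol
  rw [pr_out hout x hx, osc_pr_out h hout _ hx.refl]; ring

lemma sol_cont {ν : ℝ → ℝ} (h : Continuous ν) : Continuous (Z.sol ν) := by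
  have h1 := pr_cont (Z := Z) h
  have h2 : Continuous (osc (Z.pr ν)) :=
    continuous_iff_continuousAt.2 fun x => (hasDerivAt_osc h1 x).continuousAt
  have h3 := (Z.hc.bl.inv Z.hk Z.kc).continuous
  unfold sol
  fun_prop

lemma sol_mul_cos {ν : ℝ → ℝ} (h : Continuous ν) (hout : ∀ x, OutZ x → ν x = 0) (x : ℝ) :
    Z.sol ν x * Real.cos x = Z.pr ν x - 3 * osc (Z.pr ν) (Real.pi / 2 - x) := by
  by_cases hx : OutZ x
  · rw [sol_out h hout x hx, pr_out hout x hx, osc_pr_out h hout _ hx.refl]; ring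
  · have h1 := Z.cc x hx
    have h2 : 0 < Z.c x := Z.hk.trans_le (Z.kc x)
    unfold sol
    rw [← h1, mul_assoc, inv_mul_cancel₀ h2.ne', mul_one]

lemma sol_Ei {ν : ℝ → ℝ} (h : Continuous ν) (hout : ∀ x, OutZ x → ν x = 0) (x : ℝ) :
    Ei (Z.sol ν) x = osc (Z.pr ν) x := by
  have h1 : Ei (Z.sol ν) x = ∫ t in (0:ℝ)..x, (Z.pr ν t - 3 * osc (Z.pr ν) (Real.pi / 2 - t)) := by
    unfold Ei
    congr 1
    funext t
    exact sol_mul_cos h hout t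
  have hc := pr_cont (Z := Z) h
  have hd := hasDerivAt_osc hc
  have hoc : Continuous (osc (Z.pr ν)) :=
    continuous_iff_continuousAt.2 fun x => (hd x).continuousAt
  rw [h1, intervalIntegral.integral_eq_sub_of_hasDerivAt (fun t _ => hd t)
    ((by fun_prop : Continuous fun t => Z.pr ν t - 3 * osc (Z.pr ν) (Real.pi / 2 - t)).intervalIntegrable _ _),
    osc_pr_out h hout 0 (Or.inl (by norm_num)), sub_zero]

lemma sol_adm {ν : ℝ → ℝ} {M M' δ L : ℝ} (h : BL ν M') (hout : ∀ x, OutZ x → ν x = 0)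
    (hM : ∀ x, |ν x| ≤ M) (hδ : 31 * ((1 + 2 * Z.K) * M) * Z.k⁻¹ ≤ δ)
    (hL : 2 * (M' + 2 * M * Z.K + 93 * ((1 + 2 * Z.K) * M)) *
      (Z.k⁻¹ + Z.K * (Z.k⁻¹ * Z.k⁻¹)) ≤ L) : Adm (Z.sol ν) δ L where
  sup := fun x => (sol_bound h.continuous hout hM x).trans hδ
  bl := (sol_BL h hout hM).mono hL
  out := sol_out h.continuous hout
  obs := by
    rw [sol_Ei h.continuous hout, osc_pr_out h.continuous hout]
    right; linarith

lemma sol_sub {ν ξ : ℝ → ℝ} (hν : Continuous ν) (hξ : Continuous ξ) (x : ℝ) :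
    Z.sol (fun t => ν t - ξ t) x = Z.sol ν x - Z.sol ξ x := by
  unfold sol
  rw [pr_sub hν hξ, osc_sub (pr_cont hν) (pr_cont hξ)]
  ring

lemma sol_sub_bound {ν ξ : ℝ → ℝ} {m : ℝ} (hν : Continuous ν) (hξ : Continuous ξ)
    (hν0 : ∀ x, OutZ x → ν x = 0) (hξ0 : ∀ x, OutZ x → ξ x = 0)
    (hm : ∀ x, |ν x - ξ x| ≤ m) (x : ℝ) :
    |Z.sol ν x - Z.sol ξ x| ≤ 31 * ((1 + 2 * Z.K) * m) * Z.k⁻¹ := by
  rw [← sol_sub hν hξ]
  exact sol_bound (ν := fun t => ν t - ξ t) (hν.sub hξ)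
    (fun x hx => by rw [hν0 x hx, hξ0 x hx, sub_zero]) hm x

end Zone

end Pool.Agent.IB
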