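import Pool.Agent.IB.Osc

/-!
The zone data and the basic operators of the fixed point scheme.
-/

namespace Pool.Agent.IB

open Set MeasureTheory

lemma C11.mono {f f' : ℝ → ℝ} {M M' : ℝ} (h : C11 f f' M) (hM : M ≤ M') : C11 f f' M' :=
  ⟨h.bl.mono hM, h.der, h.bl'.mono hM⟩

lemma C11.add {f f' g g' : ℝ → ℝ} {M M' : ℝ} (hf : C11 f f' M) (hg : C11 g g' M') :
    C11 (fun x => f x + g x) (fun x => f' x + g' x) (M + M') :=
  ⟨hf.bl.add hg.bl, fun x => (hf.der x).fun_add (hg.der x), hf.bl'.add hg.bl'⟩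

lemma C11.neg {f f' : ℝ → ℝ} {M : ℝ} (hf : C11 f f' M) :
    C11 (fun x => - f x) (fun x => - f' x) M :=
  ⟨hf.bl.neg, fun x => (hf.der x).fun_neg, hf.bl'.neg⟩

lemma C11.sub {f f' g g' : ℝ → ℝ} {M M' : ℝ} (hf : C11 f f' M) (hg : C11 g g' M') :
    C11 (fun x => f x - g x) (fun x => f' x - g' x) (M + M') :=
  ⟨hf.bl.sub hg.bl, fun x => (hf.der x).fun_sub (hg.der x), hf.bl'.sub hg.bl'⟩

lemma C11.const_mul {f f' : ℝ → ℝ} {M : ℝ} (c : ℝ) (hf : C11 f f' M) :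
    C11 (fun x => c * f x) (fun x => c * f' x) (|c| * M) :=
  ⟨hf.bl.const_mul c, fun x => (hf.der x).const_mul c, hf.bl'.const_mul c⟩

lemma C11.mul {f f' g g' : ℝ → ℝ} {M M' : ℝ} (hf : C11 f f' M) (hg : C11 g g' M') :
    C11 (fun x => f x * g x) (fun x => f' x * g x + f x * g' x) (4 * M * M') := by
  have hM := hf.bl.nonneg
  have hM' := hg.bl.nonneg
  have h0 : 0 ≤ M * M' := mul_nonneg hM hM'
  refine ⟨(hf.bl.mul hg.bl).mono (by nlinarith), fun x => (hf.der x).fun_mul (hg.der x), ?_⟩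
  exact ((hf.bl'.mul hg.bl).add (hf.bl.mul hg.bl')).mono (by nlinarith)

lemma C11.inv {f f' : ℝ → ℝ} {M k : ℝ} (hf : C11 f f' M) (hk : 0 < k) (hfk : ∀ x, k ≤ f x) :
    C11 (fun x => (f x)⁻¹) (fun x => - f' x * ((f x)⁻¹ * (f x)⁻¹))
      (4 * M * (k⁻¹ + M * (k⁻¹ * k⁻¹)) * (k⁻¹ + M * (k⁻¹ * k⁻¹)) + (k⁻¹ + M * (k⁻¹ * k⁻¹))) := by
  have hM := hf.bl.nonneg
  have hk' : 0 < k⁻¹ := inv_pos.2 hk
  set I := k⁻¹ + M * (k⁻¹ * k⁻¹) with hI
  have hI0 : 0 ≤ I := by positivity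
  have hb := hf.bl.inv hk hfk
  have h4 : 0 ≤ 4 * M * I * I := by positivity
  refine ⟨hb.mono (by linarith), fun x => ?_, ?_⟩
  · have h := (hf.der x).fun_inv (hk.trans_le (hfk x)).ne'
    refine h.congr_deriv ?_
    rw [div_eq_mul_inv, sq, mul_inv]
  · exact (hf.bl'.neg.mul (hb.mul hb)).mono (by rw [← hI]; nlinarith)

lemma C11.comp_sub {f f' : ℝ → ℝ} {M : ℝ} (hf : C11 f f' M) (c : ℝ) :
    C11 (fun x => f (c - x)) (fun x => - f' (c - x)) M := by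
  refine ⟨hf.bl.comp_sub c, fun x => ?_, (hf.bl'.comp_sub c).neg⟩
  have hr : HasDerivAt (fun x : ℝ => c - x) (-1) x := by
    simpa using (hasDerivAt_id x).const_sub c
  have := (hf.der (c - x)).comp x hr
  exact HasDerivAt.congr_deriv (f := fun x => f (c - x)) this (by ring)

lemma BL_cos : BL Real.cos 1 := by
  refine ⟨Real.abs_cos_le_one, fun x y => ?_⟩
  exact lipschitz_of_deriv Real.hasDerivAt_cos (fun x => by
    rw [abs_neg]; exact Real.abs_sin_le_one x) x y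

lemma BL_sin : BL Real.sin 1 := by
  refine ⟨Real.abs_sin_le_one, fun x y => ?_⟩
  exact lipschitz_of_deriv Real.hasDerivAt_sin (fun x => Real.abs_cos_le_one x) x y

/-- Outside the zone. -/
def OutZ (x : ℝ) : Prop := x ≤ 1/10 ∨ Real.pi / 2 - 1/10 ≤ x

lemma OutZ.refl {x : ℝ} (h : OutZ x) : OutZ (Real.pi / 2 - x) := by
  rcases h with h | h
  · right; linarith
  · left; linarith

/-- Zone data. -/
structure Zone where
  c : ℝ → ℝ
  c' : ℝ → ℝ
  chi : ℝ → ℝ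
  K : ℝ
  k : ℝ
  hc : C11 c c' K
  hK : 1 ≤ K
  hk : 0 < k
  hk1 : k ≤ 1
  kc : ∀ x, k ≤ c x
  cc : ∀ x, ¬ OutZ x → c x = Real.cos x
  hchi : BL chi K
  chi0 : ∀ x, OutZ x → chi x = 0
  chi1 : cI chi (Real.pi / 2) = 1

/-- `∫_0^x p cos`. -/
noncomputable def Ei (p : ℝ → ℝ) (x : ℝ) : ℝ := ∫ t in (0:ℝ)..x, p t * Real.cos t

/-- `E (π/2 - x)`. -/
noncomputable def Di (p : ℝ → ℝ) (x : ℝ) : ℝ := Ei p (Real.pi / 2 - x)

lemma hasDerivAt_Ei {p : ℝ → ℝ} (hp : Continuous p) (x : ℝ) :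
    HasDerivAt (Ei p) (p x * Real.cos x) x := by
  have hc : Continuous fun t => p t * Real.cos t := by fun_prop
  exact intervalIntegral.integral_hasDerivAt_right (hc.intervalIntegrable _ _)
    (hc.stronglyMeasurableAtFilter _ _) hc.continuousAt

/-- Admissible densities. -/
structure Adm (p : ℝ → ℝ) (δ L : ℝ) : Prop where
  sup : ∀ x, |p x| ≤ δ
  bl : BL p L
  out : ∀ x, OutZ x → p x = 0
  obs : Ei p (Real.pi / 2) = 0

lemma Ei_zero {p : ℝ → ℝ} (hp : Continuous p) (hout : ∀ x, OutZ x → p x = 0)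
    (hobs : Ei p (Real.pi / 2) = 0) (x : ℝ) (hx : OutZ x) : Ei p x = 0 := by
  have hint : ∀ y z : ℝ, IntervalIntegrable (fun t => p t * Real.cos t) volume y z :=
    fun y z => (by fun_prop : Continuous fun t => p t * Real.cos t).intervalIntegrable _ _
  rcases hx with hx | hx
  · apply integral_zero_of_zero
    intro t ht
    have h2 : t ≤ max 0 x := ht.2
    have : OutZ t := Or.inl (h2.trans (max_le (by norm_num) hx))
    simp [hout t this]
  · have h1 : Ei p x = Ei p (Real.pi / 2) + ∫ t in (Real.pi / 2)..x, p t * Real.cos t :=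
      (intervalIntegral.integral_add_adjacent_intervals (hint _ _) (hint _ _)).symm
    rw [h1, hobs, integral_zero_of_zero]
    · ring
    · intro t ht
      have h1 : min (Real.pi / 2) x ≤ t := ht.1
      have : OutZ t := Or.inr ((le_min (by linarith) hx).trans h1)
      simp [hout t this]

lemma Ei_BL {p : ℝ → ℝ} {δ : ℝ} (hp : Continuous p) (hδ : ∀ x, |p x| ≤ δ)
    (hout : ∀ x, OutZ x → p x = 0) (hobs : Ei p (Real.pi / 2) = 0) : BL (Ei p) (2 * δ) := by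
  have hδ0 : 0 ≤ δ := (abs_nonneg _).trans (hδ 0)
  have hb : ∀ x, |p x * Real.cos x| ≤ δ := fun x => by
    rw [abs_mul]
    calc |p x| * |Real.cos x| ≤ δ * 1 :=
          mul_le_mul (hδ x) (Real.abs_cos_le_one _) (abs_nonneg _) hδ0
      _ = δ := mul_one δ
  refine ⟨fun x => ?_, fun x y => ?_⟩
  · by_cases hx : OutZ x
    · rw [Ei_zero hp hout hobs x hx, abs_zero]; positivity
    · have hx' : 1/10 < x ∧ x < Real.pi / 2 - 1/10 := by
        unfold OutZ at hx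
        push Not at hx
        exact hx
      have h := intervalIntegral.norm_integral_le_of_norm_le_const (a := (0:ℝ)) (b := x) (C := δ)
        (f := fun t => p t * Real.cos t) (fun t _ => hb t)
      rw [Real.norm_eq_abs, sub_zero, abs_of_pos (by linarith : 0 < x)] at h
      have := Real.pi_lt_four
      unfold Ei
      nlinarith
  · have := lipschitz_of_deriv (hasDerivAt_Ei hp) hb x y
    refine this.trans ?_
    apply mul_le_mul_of_nonneg_right _ (abs_nonneg _)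
    linarith

lemma Di_BL {p : ℝ → ℝ} {δ : ℝ} (hp : Continuous p) (hδ : ∀ x, |p x| ≤ δ)
    (hout : ∀ x, OutZ x → p x = 0) (hobs : Ei p (Real.pi / 2) = 0) : BL (Di p) (2 * δ) :=
  (Ei_BL hp hδ hout hobs).comp_sub (Real.pi / 2)

lemma Adm.cont {p : ℝ → ℝ} {δ L : ℝ} (h : Adm p δ L) : Continuous p := h.bl.continuous

lemma Adm.Di_BL {p : ℝ → ℝ} {δ L : ℝ} (h : Adm p δ L) : BL (Di p) (2 * δ) :=
  Pool.Agent.IB.Di_BL h.cont h.sup h.out h.obs

lemma Adm.Di_out {p : ℝ → ℝ} {δ L : ℝ} (h : Adm p δ L) (x : ℝ) (hx : OutZ x) : Di p x = 0 :=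
  Ei_zero h.cont h.out h.obs _ hx.refl

lemma Adm.Di_C11 {p : ℝ → ℝ} {δ L : ℝ} (h : Adm p δ L) (hδL : δ ≤ L) :
    C11 (Di p) (fun x => -(p (Real.pi / 2 - x) * Real.cos (Real.pi / 2 - x))) (2 * L) := by
  have hE : C11 (Ei p) (fun x => p x * Real.cos x) (2 * L) := by
    refine ⟨(Ei_BL h.cont h.sup h.out h.obs).mono (by linarith), hasDerivAt_Ei h.cont, ?_⟩
    exact (h.bl.mul BL_cos).mono (by linarith)
  exact hE.comp_sub (Real.pi / 2)

lemma Ei_sub {p q : ℝ → ℝ} (hp : Continuous p) (hq : Continuous q) (x : ℝ) :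
    Ei (fun t => p t - q t) x = Ei p x - Ei q x := by
  unfold Ei
  rw [← intervalIntegral.integral_sub]
  · congr 1; funext t; simp only []; ring
  · exact (by fun_prop : Continuous fun t => p t * Real.cos t).intervalIntegrable _ _
  · exact (by fun_prop : Continuous fun t => q t * Real.cos t).intervalIntegrable _ _

lemma Di_sub_BL {p q : ℝ → ℝ} {δ L d : ℝ} (hp : Adm p δ L) (hq : Adm q δ L)
    (hd : ∀ x, |p x - q x| ≤ d) : BL (fun x => Di p x - Di q x) (2 * d) := by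
  have h := Pool.Agent.IB.Di_BL (p := fun t => p t - q t) (δ := d) (hp.cont.sub hq.cont) hd
    (fun x hx => by rw [hp.out x hx, hq.out x hx, sub_zero])
    (by rw [Ei_sub hp.cont hq.cont, hp.obs, hq.obs, sub_zero])
  have e : Di (fun t => p t - q t) = fun x => Di p x - Di q x := by
    funext x
    exact Ei_sub hp.cont hq.cont _
  rwa [e] at h

namespace Zone

variable (Z : Zone)

/-- Bound for the inverse of `c + D`. -/
noncomputable def I0 : ℝ := (Z.k / 2)⁻¹ + (Z.K + 1) * ((Z.k / 2)⁻¹ * (Z.k / 2)⁻¹)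

/-- `C11` bound for the inverse of `c + D`. -/
noncomputable def I1 : ℝ := 4 * (Z.K + 1) * Z.I0 * Z.I0 + Z.I0

lemma K_pos : 0 < Z.K := by linarith [Z.hK]

lemma I0_ge : (Z.k / 2)⁻¹ ≤ Z.I0 := by
  have := Z.K_pos
  have := Z.hk
  unfold I0
  have : 0 ≤ (Z.K + 1) * ((Z.k / 2)⁻¹ * (Z.k / 2)⁻¹) := by positivity
  linarith

lemma I0_ge_one : 1 ≤ Z.I0 := by
  refine le_trans ?_ Z.I0_ge
  have := Z.hk
  have := Z.hk1
  rw [one_le_inv₀ (by linarith)]
  linarith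

lemma I0_pos : 0 < Z.I0 := lt_of_lt_of_le one_pos Z.I0_ge_one

lemma I1_ge : Z.I0 ≤ Z.I1 := by
  have := Z.K_pos
  have := Z.I0_pos
  unfold I1
  have : 0 ≤ 4 * (Z.K + 1) * Z.I0 * Z.I0 := by positivity
  linarith

lemma I1_pos : 0 < Z.I1 := Z.I0_pos.trans_le Z.I1_ge

/-- The mean perturbation. -/
noncomputable def eta (p : ℝ → ℝ) (x : ℝ) : ℝ := - Di p x * (Z.c x + Di p x)⁻¹

variable {Z}

lemma den_ge {p : ℝ → ℝ} {δ L : ℝ} (h : Adm p δ L) (hδ : δ ≤ Z.k / 4) (x : ℝ) :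
    Z.k / 2 ≤ Z.c x + Di p x := by
  have h1 := Z.kc x
  have h2 := (abs_le.1 (h.Di_BL.1 x)).1
  linarith

lemma den_inv_BL {p : ℝ → ℝ} {δ L : ℝ} (h : Adm p δ L) (hδ : δ ≤ Z.k / 4) :
    BL (fun x => (Z.c x + Di p x)⁻¹) Z.I0 := by
  have hk := Z.hk
  have hk1 := Z.hk1
  have h1 : BL (fun x => Z.c x + Di p x) (Z.K + 1) := (Z.hc.bl.add h.Di_BL).mono (by linarith)
  exact h1.inv (by linarith : 0 < Z.k / 2) (den_ge h hδ)

lemma den_inv_le {p : ℝ → ℝ} {δ L : ℝ} (h : Adm p δ L) (hδ : δ ≤ Z.k / 4) (x : ℝ) :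
    |(Z.c x + Di p x)⁻¹| ≤ Z.I0 := (den_inv_BL h hδ).1 x

lemma eta_BL {p : ℝ → ℝ} {δ L : ℝ} (h : Adm p δ L) (hδ : δ ≤ Z.k / 4) :
    BL (Z.eta p) (4 * Z.I0 * δ) :=
  (h.Di_BL.neg.mul (den_inv_BL h hδ)).mono (by linarith)

/-- The derivative of `eta`. -/
noncomputable def eta' (Z : Zone) (p : ℝ → ℝ) (x : ℝ) : ℝ :=
  - (-(p (Real.pi / 2 - x) * Real.cos (Real.pi / 2 - x))) * (Z.c x + Di p x)⁻¹ +
    - Di p x * (- (Z.c' x + -(p (Real.pi / 2 - x) * Real.cos (Real.pi / 2 - x))) *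
      ((Z.c x + Di p x)⁻¹ * (Z.c x + Di p x)⁻¹))

lemma eta_C11 {p : ℝ → ℝ} {δ L : ℝ} (h : Adm p δ L) (hδ : δ ≤ Z.k / 4) (hδL : δ ≤ L)
    (hL : L ≤ 1/2) : C11 (Z.eta p) (eta' Z p) (8 * Z.I1 * L) := by
  have hk := Z.hk
  have h1 : C11 (fun x => Z.c x + Di p x) _ (Z.K + 1) :=
    (Z.hc.add (h.Di_C11 hδL)).mono (by linarith)
  have h2 := h1.inv (by linarith : 0 < Z.k / 2) (den_ge h hδ)
  have h3 := (h.Di_C11 hδL).neg.mul h2
  refine h3.mono ?_
  unfold I1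
  apply le_of_eq
  unfold I0
  ring

lemma eta_out {p : ℝ → ℝ} {δ L : ℝ} (h : Adm p δ L) (x : ℝ) (hx : OutZ x) : Z.eta p x = 0 := by
  unfold eta
  rw [h.Di_out x hx]; ring

lemma eta_eq {p : ℝ → ℝ} {δ L : ℝ} (h : Adm p δ L) (hδ : δ ≤ Z.k / 4) (x : ℝ) :
    Z.c x * Z.eta p x + Di p x = - (Di p x * Z.eta p x) := by
  have h1 := den_ge h hδ x
  have hk := Z.hk
  have h2 : Z.c x + Di p x ≠ 0 := by
    have : 0 < Z.c x + Di p x := by linarith
    exact this.ne'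
  have h3 : Z.eta p x * (Z.c x + Di p x) = - Di p x := by
    unfold eta
    rw [mul_assoc, inv_mul_cancel₀ h2, mul_one]
  linarith

lemma eta_sub_BL {p q : ℝ → ℝ} {δ L d : ℝ} (hp : Adm p δ L) (hq : Adm q δ L)
    (hδ : δ ≤ Z.k / 4) (hd : ∀ x, |p x - q x| ≤ d) :
    BL (fun x => Z.eta p x - Z.eta q x) (16 * Z.K * Z.I0 * Z.I0 * d) := by
  have hk := Z.hk
  have h := ((Di_sub_BL hp hq hd).neg.mul Z.hc.bl).mul
    ((den_inv_BL (Z := Z) hp hδ).mul (den_inv_BL (Z := Z) hq hδ))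
  have e : (fun x => Z.eta p x - Z.eta q x) = fun x => -(Di p x - Di q x) * Z.c x *
      ((Z.c x + Di p x)⁻¹ * (Z.c x + Di q x)⁻¹) := by
    funext x
    have h1 := den_ge (Z := Z) hp hδ x
    have h2 := den_ge (Z := Z) hq hδ x
    have h1' : Z.c x + Di p x ≠ 0 := (by linarith : 0 < Z.c x + Di p x).ne'
    have h2' : Z.c x + Di q x ≠ 0 := (by linarith : 0 < Z.c x + Di q x).ne'
    unfold eta
    field_simp
    ring
  rw [e]
  exact h.mono (by linarith)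

end Zone

end Pool.Agent.IB
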