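import Pool.Agent.IB.Lambda

/-!
Existence of the zone data.
-/

namespace Pool.Agent.IB

open Set MeasureTheory

lemma exists_C11 {f : ℝ → ℝ} (hf : ContDiff ℝ 2 f) (hs : HasCompactSupport f) :
    ∃ K, 0 ≤ K ∧ C11 f (deriv f) K := by
  have hf' : ContDiff ℝ (1 + 1) f := by
    rw [one_add_one_eq_two]; exact hf
  obtain ⟨hd, _, h1⟩ := contDiff_succ_iff_deriv.1 hf'
  obtain ⟨C1, hC1⟩ := hs.exists_bound_of_continuous hf.continuous
  obtain ⟨C2, hC2⟩ := hs.deriv.exists_bound_of_continuous h1.continuous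
  obtain ⟨L1, hL1⟩ := ContDiff.lipschitzWith_of_hasCompactSupport hs hf (by norm_num)
  obtain ⟨L2, hL2⟩ := ContDiff.lipschitzWith_of_hasCompactSupport hs.deriv h1 (by norm_num)
  have a1 := le_abs_self C1
  have a2 := le_abs_self C2
  have a1' := abs_nonneg C1
  have a2' := abs_nonneg C2
  have a3 := L1.coe_nonneg
  have a4 := L2.coe_nonneg
  have hlip : ∀ (g : ℝ → ℝ) (L : NNReal), LipschitzWith L g → (L : ℝ) ≤ |C1| + |C2| + L1 + L2 →
      ∀ x y, |g x - g y| ≤ (|C1| + |C2| + L1 + L2) * |x - y| := by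
    intro g L hL hle x y
    have := hL.dist_le_mul x y
    rw [Real.dist_eq, Real.dist_eq] at this
    exact this.trans (mul_le_mul_of_nonneg_right hle (abs_nonneg _))
  refine ⟨|C1| + |C2| + L1 + L2, by positivity, ⟨⟨fun x => ?_, ?_⟩, fun x => ?_, ⟨fun x => ?_, ?_⟩⟩⟩
  · have := hC1 x
    rw [Real.norm_eq_abs] at this
    linarith
  · exact hlip f L1 hL1 (by linarith)
  · exact (hd x).hasDerivAt
  · have := hC2 x
    rw [Real.norm_eq_abs] at this
    linarith
  · exact hlip _ L2 hL2 (by linarith)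

/-- A bump of radius `1/10` at `c`. -/
noncomputable def bmp (c : ℝ) : ContDiffBump c where
  rIn := 1/20
  rOut := 1/10
  rIn_pos := by norm_num
  rIn_lt_rOut := by norm_num

/-- The function. -/
noncomputable def bf (c x : ℝ) : ℝ := bmp c x

lemma bf_contDiff (c : ℝ) : ContDiff ℝ 2 (bf c) := by
  have := (bmp c).contDiff (n := 2)
  exact_mod_cast this

lemma bf_nonneg (c x : ℝ) : 0 ≤ bf c x := (bmp c).nonneg

lemma bf_le_one (c x : ℝ) : bf c x ≤ 1 := (bmp c).le_one

lemma bf_self (c : ℝ) : bf c c = 1 :=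
  (bmp c).one_of_mem_closedBall (Metric.mem_closedBall_self (bmp c).rIn_pos.le)

lemma bf_left {c x : ℝ} (h : x ≤ c - 1/10) : bf c x = 0 := by
  apply (bmp c).zero_of_le_dist
  rw [Real.dist_eq, abs_of_neg (by linarith)]
  show (1/10 : ℝ) ≤ _
  linarith

lemma bf_right {c x : ℝ} (h : c + 1/10 ≤ x) : bf c x = 0 := by
  apply (bmp c).zero_of_le_dist
  rw [Real.dist_eq, abs_of_pos (by linarith)]
  show (1/10 : ℝ) ≤ _
  linarith

lemma bf_compact (c : ℝ) : HasCompactSupport (bf c) := (bmp c).hasCompactSupport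

lemma bf_hasDeriv (c x : ℝ) : HasDerivAt (bf c) (deriv (bf c) x) x :=
  ((bf_contDiff c).differentiable (by norm_num) x).hasDerivAt

lemma bf_deriv_cont (c : ℝ) : Continuous (deriv (bf c)) :=
  (bf_contDiff c).continuous_deriv (by norm_num)

lemma dbf_left {c x : ℝ} (h : x ≤ c - 1/10) : deriv (bf c) x = 0 :=
  deriv_zero_left (bf_hasDeriv c x) (fun _ hy => bf_left (hy.trans h))

lemma dbf_right {c x : ℝ} (h : c + 1/10 ≤ x) : deriv (bf c) x = 0 :=
  deriv_zero_right (bf_hasDeriv c x) (fun _ hy => bf_right (h.trans hy))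

/-- The quadratic functional is negative. -/
lemma J_neg {c : ℝ} {W : ℝ → ℝ} (hW : Continuous W) (hc0 : 1/10 ≤ c)
    (hc1 : c + 1/10 ≤ Real.pi / 2)
    (hWb : ∀ t, c - 1/10 ≤ t → t ≤ c + 1/10 → 1/5 ≤ W t ∧ W t ≤ 1) :
    ∫ t in (0:ℝ)..(Real.pi / 2), W t * (3 * (bf c t) ^ 2 - 3/2 * (deriv (bf c) t) ^ 2) < 0 := by
  set F : ℝ → ℝ := fun t => W t * (3 * (bf c t) ^ 2 - 3/2 * (deriv (bf c) t) ^ 2) with hF
  have hbc : Continuous (bf c) := (bf_contDiff c).continuous
  have hdc := bf_deriv_cont c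
  have hFc : Continuous F := by rw [hF]; fun_prop
  have hint : ∀ x y : ℝ, IntervalIntegrable F volume x y := fun x y => hFc.intervalIntegrable _ _
  have h1 : ∫ t in (0:ℝ)..(c - 1/10), F t = 0 := by
    apply integral_zero_of_zero
    intro t ht
    have h2 : t ≤ max 0 (c - 1/10) := ht.2
    have h3 : t ≤ c - 1/10 := h2.trans (max_le (by linarith) le_rfl)
    rw [hF]
    simp only [bf_left h3, dbf_left h3]
    ring
  have h2 : ∫ t in (c + 1/10)..(Real.pi / 2), F t = 0 := by
    apply integral_zero_of_zero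
    intro t ht
    have h2 : min (c + 1/10) (Real.pi / 2) ≤ t := ht.1
    have h3 : c + 1/10 ≤ t := (le_min le_rfl hc1).trans h2
    rw [hF]
    simp only [bf_right h3, dbf_right h3]
    ring
  have h3 : ∫ t in (0:ℝ)..(Real.pi / 2), F t =
      (∫ t in (c - 1/10)..c, F t) + ∫ t in c..(c + 1/10), F t := by
    rw [← intervalIntegral.integral_add_adjacent_intervals (hint 0 (c - 1/10)) (hint _ _),
      ← intervalIntegral.integral_add_adjacent_intervals (hint (c - 1/10) c) (hint _ _),
      ← intervalIntegral.integral_add_adjacent_intervals (hint c (c + 1/10)) (hint _ _), h1, h2]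
    ring
  have h4 : ∫ t in c..(c + 1/10), F t ≤ 3/10 := by
    have : ∫ t in c..(c + 1/10), F t ≤ ∫ t in c..(c + 1/10), (3:ℝ) := by
      apply intervalIntegral.integral_mono_on (by linarith) (hint _ _)
        intervalIntegrable_const
      intro t ht
      obtain ⟨hw1, hw2⟩ := hWb t (by linarith [ht.1]) ht.2
      have hb0 := bf_nonneg c t
      have hb1 := bf_le_one c t
      have hb2 : (bf c t) ^ 2 ≤ 1 := by nlinarith
      have hd2 := sq_nonneg (deriv (bf c) t)
      rw [hF]
      simp only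
      nlinarith [mul_nonneg (by linarith : 0 ≤ W t) hd2, mul_nonneg (by linarith : 0 ≤ W t) (sub_nonneg.2 hb2)]
    rw [intervalIntegral.integral_const] at this
    refine this.trans (le_of_eq ?_)
    rw [smul_eq_mul]; ring
  have h5 : ∫ t in (c - 1/10)..c, F t ≤ -(27/10) := by
    have : ∫ t in (c - 1/10)..c, F t ≤ ∫ t in (c - 1/10)..c, (33 - 6 * deriv (bf c) t) := by
      apply intervalIntegral.integral_mono_on (by linarith) (hint _ _)
        ((by fun_prop : Continuous fun t => 33 - 6 * deriv (bf c) t).intervalIntegrable _ _)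
      intro t ht
      obtain ⟨hw1, hw2⟩ := hWb t ht.1 (by linarith [ht.2])
      have hb0 := bf_nonneg c t
      have hb1 := bf_le_one c t
      have hb2 : (bf c t) ^ 2 ≤ 1 := by nlinarith
      have hd2 := sq_nonneg (deriv (bf c) t)
      have hd3 := sq_nonneg (deriv (bf c) t - 10)
      rw [hF]
      simp only
      nlinarith [mul_nonneg (by linarith : 0 ≤ W t - 1/5) hd2, mul_nonneg (by linarith : 0 ≤ W t) (sub_nonneg.2 hb2)]
    refine this.trans (le_of_eq ?_)
    have hderiv : ∫ t in (c - 1/10)..c, (33 - 6 * deriv (bf c) t) =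
        (33 * c - 6 * bf c c) - (33 * (c - 1/10) - 6 * bf c (c - 1/10)) := by
      apply intervalIntegral.integral_eq_sub_of_hasDerivAt (f := fun t => 33 * t - 6 * bf c t)
      · intro t _
        have h1 : HasDerivAt (fun t : ℝ => 33 * t) 33 t := by
          simpa using (hasDerivAt_id t).const_mul 33
        exact h1.fun_sub ((bf_hasDeriv c t).const_mul 6)
      · exact (by fun_prop : Continuous fun t => 33 - 6 * deriv (bf c) t).intervalIntegrable _ _
    rw [hderiv, bf_self, bf_left le_rfl]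
    ring
  rw [h3]
  linarith

/-- The cut-off. -/
noncomputable def cut : ContDiffBump (Real.pi / 4) where
  rIn := Real.pi / 4 - 1/10
  rOut := Real.pi / 4 - 1/20
  rIn_pos := by linarith [Real.pi_gt_three]
  rIn_lt_rOut := by linarith

/-- The modified cosine. -/
noncomputable def cz (x : ℝ) : ℝ := 1 + cut x * (Real.cos x - 1)

lemma cut_contDiff : ContDiff ℝ 2 (fun x => cut x) := by
  have := cut.contDiff (n := 2)
  exact_mod_cast this

lemma cz_C11 : ∃ K, 0 ≤ K ∧ ∃ c', C11 cz c' K := by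
  obtain ⟨K, hK, h⟩ := exists_C11 (f := fun x => cut x * (Real.cos x - 1))
    (cut_contDiff.mul (Real.contDiff_cos.sub contDiff_const))
    (cut.hasCompactSupport.mul_right)
  have h1 : C11 (fun _ => (1:ℝ)) (fun _ => 0) 1 :=
    ⟨⟨fun _ => by simp, fun x y => by simp⟩,
      fun x => hasDerivAt_const x 1, BL_zero zero_le_one⟩
  exact ⟨1 + K, by positivity, _, h1.add h⟩

lemma cz_eq {x : ℝ} (hx : ¬ OutZ x) : cz x = Real.cos x := by
  unfold OutZ at hx
  push Not at hx
  have : cut x = 1 := by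
    apply cut.one_of_mem_closedBall
    rw [Metric.mem_closedBall, Real.dist_eq]
    show |x - Real.pi / 4| ≤ Real.pi / 4 - 1/10
    rw [abs_le]
    constructor <;> linarith [hx.1, hx.2]
  unfold cz
  rw [this]; ring

lemma cz_ge (x : ℝ) : 1/40 ≤ cz x := by
  have h0 := cut.nonneg (x := x)
  have h1 := cut.le_one (x := x)
  by_cases hx : Real.pi / 4 - 1/20 ≤ |x - Real.pi / 4|
  · have : cut x = 0 := by
      apply cut.zero_of_le_dist
      rw [Real.dist_eq]
      exact hx
    unfold cz
    rw [this]; norm_num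
  · push Not at hx
    have hx' := abs_lt.1 hx
    have h2 : 1 - 2 / Real.pi * x ≤ Real.cos x :=
      Real.one_sub_mul_le_cos (by linarith [hx'.1]) (by linarith [hx'.2])
    have h3 : 1 - 2 / Real.pi * x ≥ 1/40 := by
      have h4 : 2 / Real.pi * x ≤ 2 / Real.pi * (Real.pi / 2 - 1/20) :=
        mul_le_mul_of_nonneg_left (by linarith [hx'.2]) (by positivity)
      have h5 : 2 / Real.pi * (Real.pi / 2 - 1/20) = 1 - 1 / (10 * Real.pi) := by
        field_simp; ring
      have h6 : 1/40 ≤ 1 / (10 * Real.pi) := by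
        apply one_div_le_one_div_of_le (by positivity)
        linarith [Real.pi_lt_four]
      linarith
    have h7 : 1/40 ≤ Real.cos x := by linarith
    have h8 := Real.cos_le_one x
    unfold cz
    nlinarith

theorem exists_zone : ∃ Z : Zone, Nonempty Z.Bumps := by
  have hpi := Real.pi_gt_three
  have hpi4 := Real.pi_lt_four
  obtain ⟨K1, hK1, c', hc⟩ := cz_C11
  obtain ⟨K2, hK2, hG⟩ := exists_C11 (bf_contDiff (1/4)) (bf_compact (1/4))
  obtain ⟨K3, hK3, hH⟩ := exists_C11 (bf_contDiff (Real.pi / 3)) (bf_compact (Real.pi / 3))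
  have hGout : ∀ x, OutZ x → bf (1/4) x = 0 := by
    intro x hx
    rcases hx with hx | hx
    · exact bf_left (by linarith)
    · exact bf_right (by linarith)
  have hHout : ∀ x, OutZ x → bf (Real.pi / 3) x = 0 := by
    intro x hx
    rcases hx with hx | hx
    · exact bf_left (by linarith)
    · exact bf_right (by linarith)
  have hGc : Continuous (bf (1/4)) := (bf_contDiff _).continuous
  have hczc : Continuous cz := hc.bl.continuous
  -- positivity of the weight near 1/4
  have hw1 : ∀ t : ℝ, 1/4 - 1/10 ≤ t → t ≤ 1/4 + 1/10 →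
      1/5 ≤ Real.cos (3 * t) * cz t ∧ Real.cos (3 * t) * cz t ≤ 1 := by
    intro t h1 h2
    have hnz : ¬ OutZ t := by
      unfold OutZ; push Not; constructor <;> linarith
    rw [cz_eq hnz]
    have a1 : 1 - (3 * t) ^ 2 / 2 ≤ Real.cos (3 * t) := cos_ge
    have a2 : 1 - t ^ 2 / 2 ≤ Real.cos t := cos_ge
    have a3 := Real.cos_le_one (3 * t)
    have a4 := Real.cos_le_one t
    have a5 : 2/5 ≤ Real.cos (3 * t) := by nlinarith
    have a6 : 9/10 ≤ Real.cos t := by nlinarith
    constructor <;> nlinarith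
  have hw2 : ∀ t : ℝ, Real.pi / 3 - 1/10 ≤ t → t ≤ Real.pi / 3 + 1/10 →
      1/5 ≤ -(Real.cos (3 * t) * cz t) ∧ -(Real.cos (3 * t) * cz t) ≤ 1 := by
    intro t h1 h2
    have hnz : ¬ OutZ t := by
      unfold OutZ; push Not; constructor <;> linarith
    rw [cz_eq hnz]
    have e : Real.cos (3 * t) = - Real.cos (3 * t - Real.pi) := by
      rw [Real.cos_sub_pi, neg_neg]
    rw [e]
    have a1 : 1 - (3 * t - Real.pi) ^ 2 / 2 ≤ Real.cos (3 * t - Real.pi) := cos_ge
    have a2 : 1 - 2 / Real.pi * t ≤ Real.cos t :=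
      Real.one_sub_mul_le_cos (by linarith) (by linarith)
    have a3 := Real.cos_le_one (3 * t - Real.pi)
    have a4 := Real.cos_le_one t
    have a5 : 9/10 ≤ Real.cos (3 * t - Real.pi) := by
      have : (3 * t - Real.pi) ^ 2 ≤ 1/10 := by nlinarith
      linarith
    have a6 : 1/4 ≤ Real.cos t := by
      have b1 : 2 / Real.pi * t ≤ 2 / Real.pi * (Real.pi / 3 + 1/10) :=
        mul_le_mul_of_nonneg_left h2 (by positivity)
      have b2 : 2 / Real.pi * (Real.pi / 3 + 1/10) = 2/3 + 1 / (5 * Real.pi) := by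
        field_simp; ring
      have b3 : 1 / (5 * Real.pi) ≤ 1/15 := by
        apply one_div_le_one_div_of_le (by norm_num)
        linarith
      linarith
    constructor <;> nlinarith
  -- normalisation of chi
  have hk0 : 0 < cI (bf (1/4)) (Real.pi / 2) := by
    unfold cI
    apply intervalIntegral.integral_pos (by linarith)
    · exact (by fun_prop : Continuous fun t => Real.cos (3 * t) * bf (1/4) t).continuousOn
    · intro t ht
      by_cases h1 : t ≤ 1/4 - 1/10
      · rw [bf_left h1, mul_zero]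
      · by_cases h2 : 1/4 + 1/10 ≤ t
        · rw [bf_right h2, mul_zero]
        · push Not at h1 h2
          have a1 : 1 - (3 * t) ^ 2 / 2 ≤ Real.cos (3 * t) := cos_ge
          have a5 : 2/5 ≤ Real.cos (3 * t) := by nlinarith
          exact mul_nonneg (by linarith) (bf_nonneg _ _)
    · refine ⟨1/4, ⟨by norm_num, by linarith⟩, ?_⟩
      rw [bf_self, mul_one]
      have a1 : 1 - (3 * (1/4 : ℝ)) ^ 2 / 2 ≤ Real.cos (3 * (1/4)) := cos_ge
      norm_num at a1 ⊢
      linarith
  set k0 := cI (bf (1/4)) (Real.pi / 2) with hk0def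
  have hk0' : 0 < k0⁻¹ := inv_pos.2 hk0
  set K := K1 + K2 + K3 + k0⁻¹ * K2 + 1 with hK
  have hKK : 0 ≤ k0⁻¹ * K2 := by positivity
  let Z : Zone :=
    { c := cz
      c' := c'
      chi := fun x => k0⁻¹ * bf (1/4) x
      K := K
      k := 1/40
      hc := hc.mono (by rw [hK]; linarith)
      hK := by rw [hK]; linarith
      hk := by norm_num
      hk1 := by norm_num
      kc := cz_ge
      cc := fun x hx => cz_eq hx
      hchi := (hG.bl.const_mul k0⁻¹).mono (by rw [abs_of_pos hk0', hK]; linarith)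
      chi0 := fun x hx => by rw [hGout x hx, mul_zero]
      chi1 := by rw [cI_const_mul]; exact inv_mul_cancel₀ hk0.ne' }
  refine ⟨Z, ⟨{
    G := bf (1/4)
    G' := deriv (bf (1/4))
    H := bf (Real.pi / 3)
    H' := deriv (bf (Real.pi / 3))
    hG := ⟨?_, hGout⟩
    hH := ⟨?_, hHout⟩
    JG := ?_
    JH := ?_
    ne := ?_ }⟩⟩
  · rw [mul_one]
    exact hG.mono (by show K2 ≤ K; rw [hK]; linarith)
  · rw [mul_one]
    exact hH.mono (by show K3 ≤ K; rw [hK]; linarith)
  · have h := J_neg (c := 1/4) (W := fun t => Real.cos (3 * t) * cz t) (by fun_prop)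
      (by norm_num) (by linarith) hw1
    unfold cI
    have e : ∀ t : ℝ, Real.cos (3 * t) * (Z.c t * (3 * (bf (1/4) t) ^ 2 -
        3/2 * (deriv (bf (1/4)) t) ^ 2)) = Real.cos (3 * t) * cz t * (3 * (bf (1/4) t) ^ 2 -
        3/2 * (deriv (bf (1/4)) t) ^ 2) := fun t => by
      show Real.cos (3 * t) * (cz t * _) = _
      ring
    simp only [e]
    exact h
  · have h := J_neg (c := Real.pi / 3) (W := fun t => -(Real.cos (3 * t) * cz t)) (by fun_prop)
      (by linarith) (by linarith) hw2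
    unfold cI
    have e : ∀ t : ℝ, Real.cos (3 * t) * (Z.c t * (3 * (bf (Real.pi / 3) t) ^ 2 -
        3/2 * (deriv (bf (Real.pi / 3)) t) ^ 2)) = -(-(Real.cos (3 * t) * cz t) *
        (3 * (bf (Real.pi / 3) t) ^ 2 - 3/2 * (deriv (bf (Real.pi / 3)) t) ^ 2)) := fun t => by
      show Real.cos (3 * t) * (cz t * _) = _
      ring
    simp only [e]
    rw [intervalIntegral.integral_neg]
    linarith
  · intro μ
    by_cases hμ : μ = 1
    · refine ⟨Real.pi / 3, ?_⟩
      unfold Zone.Gm
      rw [bf_self, hμ]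
      norm_num
    · refine ⟨1/4, ?_⟩
      unfold Zone.Gm
      rw [bf_self, bf_left (c := Real.pi / 3) (by linarith)]
      intro h
      apply hμ
      linarith

end Pool.Agent.IB
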